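import Pool.Agent.W617.KB.Defs
import Pool.Agent.H560R3.TG.Ops

/-! Statements of the parts. -/

set_option autoImplicit false

namespace Pool.Agent.W617.KB

open Pool.Agent.H560R3.TG

/-- KB-V, first part -/
def S_V13 : Prop := ∀ (t : ℝ), 0 < t → ∀ (u : List Piece) (i : ℕ) (b : Bool) (v : List Piece),
  WF 0 (u ++ .cr i b :: v) 0 → External u i b v 1 → External u i b v 3 →
  V t (u ++ v) = dd t * V t (u ++ .death i :: .birth i :: v)

/-- KB-V, second part -/
def S_V02 : Prop := ∀ (t : ℝ), 0 < t → ∀ (u : List Piece) (i : ℕ) (b : Bool) (v : List Piece),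
  WF 0 (u ++ .cr i b :: v) 0 → External u i b v 0 → External u i b v 2 →
  V t (u ++ .death i :: .birth i :: v) = dd t * V t (u ++ v)

/-- KB-DE: `DiskAt` implies `Excluded` -/
def S_DE : Prop := ∀ (u : List Piece) (i : ℕ) (b : Bool) (v : List Piece),
  WF 0 (u ++ .cr i b :: v) 0 → Connected (u ++ .cr i b :: v) → DiskAt u i b v → Excluded u i b v

/-- KB-HP: the skein module is spanned by the empty link (Hoste-Przytycki) -/
def S_HP : Prop := ∀ D : List Piece, WF 0 D 0 → ∃ c : K, IsBracket D c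

/-- KB-TR: evaluation of the bracket at `A = i t` -/
def S_TR : Prop := ∀ (t : ℝ), 0 < t → Transcendental ℚ t →
  ∃ ev : K →+* ℂ, ev RatFunc.X = Complex.I * t ∧
    ∀ (D : List Piece) (c : K), WF 0 D 0 → IsBracket D c → ‖ev c‖ = |V t D|

/-- growth like `t ^ M` -/
def Gr (f : ℝ → ℝ) (M : ℤ) : Prop := ∃ a C T : ℝ, 0 < a ∧ ∀ t : ℝ, T ≤ t → 0 < t →
  a * t ^ M ≤ |f t| ∧ |f t| ≤ C * t ^ M

/-- KB-AS: the degrees of a rational function from its growth at the points `i t` -/
def S_AS : Prop := ∀ (c : K) (f : ℝ → ℝ) (M₁ M₂ : ℤ),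
  (∀ t : ℝ, 0 < t → Transcendental ℚ t →
    ∃ ev : K →+* ℂ, ev RatFunc.X = Complex.I * t ∧ ‖ev c‖ = |f t|) →
  Gr f M₁ → Gr (fun t => f t⁻¹) M₂ → c ≠ 0 ∧ br c = M₁ + M₂

/-- the example: two closed 2-braids with one crossing each around the two holes, joined at a
crossing which touches the outer region from two sides -/
def D0 : List Piece :=
  [.birth 0, .birth 1, .hole 2, .birth 4, .birth 5, .hole 6, .cr 0 true, .cr 3 false, .cr 6 true,
    .death 5, .death 4, .death 1, .death 0]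

/-- KB-EX1 -/
def S_EX1 : Prop := WF 0 D0 0 ∧ Connected D0 ∧ Alternating D0 ∧ Filling D0 ∧ Z2Trivial D0

/-- KB-EX2 -/
def S_EX2 : Prop := ∀ u i b v, D0 = u ++ .cr i b :: v → ¬ Excluded u i b v

/-- KB-EX3 -/
def S_EX3 : Prop := count TwoExternal D0 = 2 ∧ count ExternalTwice D0 = 3

end Pool.Agent.W617.KB
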