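import Pool.Agent.H560R3.TG.Main
import Pool.Agent.W617.KB.Stmts

/-! The two extreme states of a connected alternating diagram with at least one strand, and the
growth of the bracket of a simple diagram. The proof of `lower_states2` is that of `lower_states` in
the starting file `TG/Lower3.lean` (there the diagram has a crossing). -/

set_option autoImplicit false
set_option linter.unusedSimpArgs false

namespace Pool.Agent.W617.KB

open Pool.Agent.H560R3.TG

variable {S G S' G' : Type}

theorem exists_birth_slice {a : G} {E : List (Slice S G)} {D : List Piece} (hE : Labelling a E D)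
    (hn : ∃ i, Piece.birth i ∈ D) : ∃ K ∈ sts a [] E, K ≠ [] := by
  obtain ⟨i, hi⟩ := hn
  have h1 : Piece.birth i ∈ E.map Slice.plain := by rw [hE.2]; exact hi
  obtain ⟨s, hs, hsp⟩ := List.mem_map.1 h1
  obtain ⟨L, R, u, y, rfl, hL⟩ := plain_birth s i hsp
  refine ⟨_, (src_mem_sts _ _ _ _ hE.1 _ hs).2, ?_⟩
  simp [Slice.tgt, Loc.tgt]

theorem lower_states2 {D : List Piece} (hwf : WF 0 D 0) (cB : Bool)
    (hcB : ∀ i b, Piece.cr i b ∈ D → (b = cB ↔ i % 2 = 0)) (hz2 : Z2Trivial D)
    (hn : ∃ i, Piece.birth i ∈ D) :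
    ∃ (EA EB : List (Slice Unit ℕ)) (e l : ℕ) (f : List (Slice Unit ℕ)),
      Labelling 0 EA D ∧ HOK EA ∧ CEs cB 0 EA ∧
      Labelling 0 EB D ∧ HOK EB ∧ CEs (!cB) 0 EB ∧ AllAdj R01 0 [] EB ∧
      Labelling l f D ∧ e ≤ cardL l f ∧ e ≤ holes D + 1 ∧
      (crossings D : ℤ) + 4 - 2 * e ≤ Phi cB ht 0 EA + Phi (!cB) ht 0 EB := by
  classical
  obtain ⟨P, hP, hPA⟩ := exists_std hwf
  obtain ⟨EX, hX, hXh, hmin⟩ := exists_min (D := D) ⟨trE kp (fun _ => true) 0 P,
    labelling_tr sym_kp (fun _ => true) hP, by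
      intro h hh
      have := holeLabels_tr (kp : Unit → ℕ → ℕ → Unit) (fun _ => true) 0 P
      rw [this] at hh
      obtain ⟨_, _, rfl⟩ := List.mem_map.1 hh
      rfl⟩
  have hsame : P.map Slice.plain = EX.map Slice.plain := hP.2.trans hX.2.symm
  set Z : List (Slice Unit (ℕ × Bool)) := trE (fun _ _ _ => ()) id (0, true) (zipE P EX) with hZ
  have hZl : Labelling ((0, true) : ℕ × Bool) Z D :=
    labelling_tr (fun _ _ _ => rfl) id (labelling_zip hP hX)
  have hZ1 : trE kp Prod.fst (0, true) Z = P := by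
    have h1 := trE_zip_fst 0 true P EX hsame [] [] [] [] hP.1 hX.1 rfl
    have h2 := trE_trE (fun (_ : Unit × Unit) (_ _ : ℕ × Bool) => ()) id kp Prod.fst (0, true)
      (zipE P EX)
    exact h2.trans h1
  have hZ2 : trE kp Prod.snd (0, true) Z = EX := by
    have h1 := trE_zip_snd 0 true P EX hsame [] [] [] [] hP.1 hX.1 rfl
    have h2 := trE_trE (fun (_ : Unit × Unit) (_ _ : ℕ × Bool) => ()) id kp Prod.snd (0, true)
      (zipE P EX)
    exact h2.trans h1
  have hZ2' : trE (fun _ _ _ => ()) Prod.snd (0, true) Z = EX := hZ2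
  have hZR : AllAdj (fun p q : ℕ × Bool => R01 p.1 q.1) (0, true) [] Z := by
    have := (allAdj_tr (S := Unit) (S' := Unit) sym_kp (Prod.fst : ℕ × Bool → ℕ) R01
      (0, true) [] Z).1
    apply this
    rw [hZ1]; exact hPA
  have hZh : ∀ g ∈ holeLabels (0, true) Z, g.1 = 0 ∧ g.2 = true := by
    intro g hg
    have e1 := holeLabels_tr (kp : Unit → ℕ × Bool → ℕ × Bool → Unit) Prod.fst (0, true) Z
    have e2 := holeLabels_tr (kp : Unit → ℕ × Bool → ℕ × Bool → Unit) Prod.snd (0, true) Z
    rw [hZ1] at e1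
    rw [hZ2] at e2
    exact ⟨std_holes hz2 hP hPA _ (by rw [e1]; exact List.mem_map_of_mem hg),
      hXh _ (by rw [e2]; exact List.mem_map_of_mem hg)⟩
  have hX3 : ∀ p ∈ labs (0, true) [] Z, p.2 = true → p.1 = 0 := by
    intro p hp hp2
    have := hmin Unit (ℕ × Bool) (0, true) Z Prod.snd (fun p => decide (p.1 = 0)) hZl hZ2' rfl
      (by simp) (fun g hg => by simpa using (hZh g hg).1) p hp hp2
    simpa using this
  have hle : ∀ p ∈ labs (0, true) [] Z, p.1 ≤ 1 :=
    labs_of_allAdj (P := fun p => p.1 ≤ 1) (fun x y h => by unfold R01 at h; omega) _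
      (by simp) _ _ hZR
  have hadj := allAdj_labs (P := fun p : ℕ × Bool => (p.2 = true → p.1 = 0)) _ _ _ hX3 hZR
  -- facts at the crossings
  have hcr : ∀ s ∈ Z, ∀ b y y' z, s.p = .cr b () y () () y' () z →
      (b = cB → (cur (0, true) s.L).1 = 0 ∧ y = (1, false) ∧ y' = (1, false) ∧ z.1 = 0) ∧
      (b ≠ cB → cur (0, true) s.L = (1, false) ∧ y.1 = 0 ∧ y'.1 = 0 ∧ z = (1, false)) := by
    intro s hs b y y' z hsp
    obtain ⟨L, p, R⟩ := s
    simp only at hsp
    subst hsp
    have hmem : Piece.cr L.length b ∈ D := by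
      rw [← hZl.2]; exact List.mem_map.2 ⟨_, hs, rfl⟩
    obtain ⟨m1, m2⟩ := src_mem_sts _ _ _ _ hZl.1 _ hs
    have m1' : L ++ ((), y) :: ((), z) :: R ∈ sts (0, true) [] Z := by
      simpa [Slice.src, Loc.src] using m1
    have m2' : L ++ ((), y') :: ((), z) :: R ∈ sts (0, true) [] Z := by
      simpa [Slice.tgt, Loc.tgt] using m2
    obtain ⟨a1, a2, a3, -⟩ := state_adj hadj m1'
    obtain ⟨-, a4, a5, -⟩ := state_adj hadj m2'
    have hpar : (cur (0, true) L).1 % 2 = L.length % 2 := by
      have h1 := adj_parity 0 (trF kp Prod.fst (0, true) L) (by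
        have := (adj_tr (S := Unit) (S' := Unit) kp (Prod.fst : ℕ × Bool → ℕ) Nb (0, true) L).2
          (adj_mono (fun x y h => R01_nb h.1) _ _ a1)
        exact this)
      have h2 : cur 0 (trF kp Prod.fst (0, true) L) = (cur (0, true) L).1 :=
        cur_trF kp Prod.fst (0, true) L
      rw [h2, trF_length] at h1
      simpa using h1
    have hiff := hcB _ _ hmem
    simp only at a2 a3 a4 a5 ⊢
    obtain ⟨r2, x2, y2⟩ := a2
    obtain ⟨r3, -, z3⟩ := a3
    obtain ⟨r4, -, y4⟩ := a4
    unfold R01 at r2 r3 r4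
    generalize cur (0, true) L = X at hpar r2 x2 r4 ⊢
    obtain ⟨X1, X2⟩ := X
    obtain ⟨y1, yb⟩ := y
    obtain ⟨y1', yb'⟩ := y'
    obtain ⟨z1, zb⟩ := z
    simp only [Prod.mk.injEq] at *
    constructor
    · intro hb
      have h1 := hiff.1 hb
      have hX : X1 = 0 := by omega
      refine ⟨hX, ⟨by omega, ?_⟩, ⟨by omega, ?_⟩, by omega⟩
      · by_contra hc
        have := y2 (by simpa using hc)
        omega
      · by_contra hc
        have := y4 (by simpa using hc)
        omega
    · intro hb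
      have h1 : L.length % 2 = 1 := by
        rcases Nat.mod_two_eq_zero_or_one L.length with h | h
        · exact absurd (hiff.2 h) hb
        · exact h
      have hX : X1 = 1 := by omega
      refine ⟨⟨hX, ?_⟩, by omega, by omega, ⟨by omega, ?_⟩⟩
      · by_contra hc
        have := x2 (by simpa using hc)
        omega
      · by_contra hc
        have := z3 (by simpa using hc)
        omega
  have hCEZ : CEs cB (0, true) Z := by
    intro s hs
    have h1 := hcr s hs
    obtain ⟨L, p, R⟩ := s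
    cases p with
    | cr b s₁ y s₂ t₁ y' t₂ z =>
      obtain ⟨h2, h3⟩ := h1 b y y' z rfl
      refine ⟨fun hb => ?_, fun hb => ?_⟩
      · rw [(h2 hb).2.1, (h2 hb).2.2.1]
      · rw [(h3 hb).2.2.2]; exact (h3 hb).1
    | _ => trivial
  -- the two labellings
  have hEA : Labelling 0 (trE kp rh (0, true) Z) D := labelling_tr sym_kp rh hZl
  have hsum : Phi cB ht 0 (trE kp rh (0, true) Z) + Phi (!cB) ht 0 P =
      (crossings D : ℤ) - 2 * Phi cB (ind Prod.snd) (0, true) Z := by
    have e1 := Phi_tr (kp : Unit → ℕ × Bool → ℕ × Bool → Unit) rh cB ht (0, true) Z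
    have e2 := Phi_tr (kp : Unit → ℕ × Bool → ℕ × Bool → Unit) Prod.fst (!cB) ht (0, true) Z
    rw [hZ1] at e2
    have e1' : Phi cB ht 0 (trE kp rh (0, true) Z) = Phi cB (fun g => ht (rh g)) (0, true) Z := e1
    have e2' : Phi (!cB) ht 0 P = Phi (!cB) (fun g => ht g.1) (0, true) Z := e2
    have e3 := phi_sum cB (!cB) (fun g => ht (rh g)) (fun g => ht g.1) (ind Prod.snd)
      (0, true) Z (by
        intro s hs
        have h1 := hcr s hs
        obtain ⟨m1, m2⟩ := src_mem_sts _ _ _ _ hZl.1 _ hs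
        have lb : ∀ p ∈ labs (0, true) [] Z, ht (rh p) + ht p.1 = 2 - 2 * ind Prod.snd p := by
          intro p hp
          have q1 := hX3 p hp
          have q2 := hle p hp
          obtain ⟨p1, p2⟩ := p
          simp only at q1 q2
          cases p2
          · have : p1 = 0 ∨ p1 = 1 := by omega
            rcases this with rfl | rfl <;> simp [ht, rh, ind]
          · have : p1 = 0 := q1 rfl
            subst this
            simp [ht, rh, ind]
        obtain ⟨L, p, R⟩ := s
        cases p with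
        | birth u y =>
          have hy : y ∈ labs (0, true) [] Z :=
            mem_labs_of_state _ _ _ _ m2 _ (by simp [Slice.tgt, Loc.tgt])
          have := lb y hy
          simp only [Loc.wt, Slice.plain, crossings]
          push_cast
          linarith
        | death u y =>
          have hy : cur (0, true) L ∈ labs (0, true) [] Z := by
            apply cur_mem_labs _ _ _ _ R
            simpa [Slice.tgt, Loc.tgt] using m2
          have := lb _ hy
          simp only [Loc.wt, Slice.plain, crossings]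
          push_cast
          linarith
        | hole => simp [Loc.wt, Slice.plain, crossings]
        | cr b s₁ y s₂ t₁ y' t₂ z =>
          obtain ⟨h2, h3⟩ := h1 b y y' z rfl
          simp only at h2 h3
          by_cases hb : b = cB
          · obtain ⟨k1, k2, k3, k4⟩ := h2 hb
            simp only [Loc.wt, Slice.plain, crossings, hb, if_true]
            have hb'' : ¬ (cB = !cB) := by simp
            simp only [hb'', if_false, k3, k1, ht]
            push_cast
            try ring
          · obtain ⟨k1, k2, k3, k4⟩ := h3 hb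
            have hb' : b = !cB := bool_ne hb
            simp only [Loc.wt, Slice.plain, crossings, hb, if_false, hb', if_true]
            have hb'' : ¬ ((!cB) = cB) := by simp
            simp only [hb'', if_false, k1]
            obtain ⟨y1', yb'⟩ := y'
            simp only at k3
            subst k3
            cases yb' <;> simp [ht, rh, ind])
    have e4 := phi_one cB (0, true) [] [] Z hZl.1
    rw [e1', e2', e3, hZl.2]
    simp only [List.length_nil, Nat.cast_zero, sub_zero] at e4
    linarith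
  obtain ⟨l, Z', q1, q2, q3, q4⟩ := outerIneq (Prod.snd : ℕ × Bool → Bool) cB (0, true) rfl Z
    hZl.1 hCEZ (allAdj_mono (by
      rintro x y ⟨r, hx, hy⟩ ⟨c1, c2⟩
      have h1 := hx c1
      have h2 := hy c2
      unfold R01 at r
      omega) _ _ _ hadj) (exists_birth_slice hZl hn)
  have hZ'l : Labelling (((0, true), l) : (ℕ × Bool) × ℕ) Z' D := by
    refine ⟨q1, ?_⟩
    rw [← hZl.2, ← q2, plain_trE]
  have hf : Labelling l (trE kp Prod.snd ((0, true), l) Z') D :=
    labelling_tr sym_kp Prod.snd hZ'l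
  have hsub : NU ((0, true), l) [] Z' ⊆
      insert l (holeLabels l (trE kp Prod.snd ((0, true), l) Z')).toFinset := by
    intro l' hl'
    by_contra hcon
    rw [Finset.mem_insert, not_or, List.mem_toFinset] at hcon
    obtain ⟨c1, c2⟩ := hcon
    rw [mem_NU] at hl'
    obtain ⟨hl0, p, hp, hpl⟩ := hl'
    have hpC : p.1.2 = true := by
      have := q3 p hp
      by_contra hc
      simp only [Mk, hc, Bool.false_eq_true, if_false] at this
      exact hl0 (hpl ▸ this)
    have hZ'X : trE (fun _ _ _ => ()) (fun p : (ℕ × Bool) × ℕ => p.1.2) ((0, true), l) Z' =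
        EX := by
      have h2 := trE_trE (kp : Unit → (ℕ × Bool) × ℕ → (ℕ × Bool) × ℕ → Unit) Prod.fst
        (fun (_ : Unit) (_ _ : ℕ × Bool) => ()) Prod.snd ((0, true), l) Z'
      rw [q2] at h2
      exact h2.symm.trans hZ2'
    have hhl := holeLabels_tr (kp : Unit → (ℕ × Bool) × ℕ → (ℕ × Bool) × ℕ → Unit) Prod.snd
      ((0, true), l) Z'
    have hhl2 := holeLabels_tr (fun (_ : Unit) (_ _ : (ℕ × Bool) × ℕ) => ())
      (fun p : (ℕ × Bool) × ℕ => p.1.2) ((0, true), l) Z'
    rw [hZ'X] at hhl2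
    have := hmin Unit ((ℕ × Bool) × ℕ) ((0, true), l) Z' (fun p => p.1.2)
      (fun p => p.1.2 && decide (p.2 ≠ l')) hZ'l hZ'X rfl (by simpa using fun h => c1 h.symm)
      (by
        intro g hg
        have h1 : g.1.2 = true := hXh _ (by rw [hhl2]; exact List.mem_map.2 ⟨g, hg, rfl⟩)
        have h2 : g.2 ≠ l' := by
          rintro rfl
          apply c2
          have hhl' : holeLabels l (trE kp Prod.snd ((0, true), l) Z') = _ := hhl
          rw [hhl']
          exact List.mem_map.2 ⟨g, hg, rfl⟩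
        simp [h1, h2]) p hp hpC
    simp [hpl] at this
  refine ⟨trE kp rh (0, true) Z, P, (NU ((0, true), l) [] Z').card, l,
    trE kp Prod.snd ((0, true), l) Z', hEA, ⟨?_, ?_⟩, ?_, hP,
    ⟨allAdj_mono (fun _ _ => R01_nb) _ _ _ hPA, std_holes hz2 hP hPA⟩, ?_, hPA, hf,
    Finset.card_le_card hsub, ?_, ?_⟩
  · refine (allAdj_tr sym_kp rh Nb (0, true) [] Z).2 (allAdj_mono ?_ _ _ _ hadj)
    rintro x y ⟨r, hx, hy⟩
    exact rh_nb r hx hy
  · intro g hg
    have e1 := holeLabels_tr (kp : Unit → ℕ × Bool → ℕ × Bool → Unit) rh (0, true) Z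
    have e1' : holeLabels 0 (trE kp rh (0, true) Z) = _ := e1
    rw [e1'] at hg
    obtain ⟨p, hp, rfl⟩ := List.mem_map.1 hg
    simp [rh, (hZh p hp).2]
  · intro s hs
    obtain ⟨r, hr, rfl⟩ := List.mem_map.1 hs
    have h1 := hcr r hr
    obtain ⟨L, p, R⟩ := r
    cases p with
    | cr b s₁ y s₂ t₁ y' t₂ z =>
      obtain ⟨h2, h3⟩ := h1 b y y' z rfl
      refine ⟨fun hb => ?_, fun hb => ?_⟩
      · rw [(h2 hb).2.1, (h2 hb).2.2.1]
      · rw [(h3 hb).2.2.2]
        have : cur 0 (trF kp rh (0, true) L) = rh (cur (0, true) L) := cur_trF kp rh (0, true) L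
        simp only [Slice.tr]
        rw [this]
        exact congrArg rh (h3 hb).1
    | _ => trivial
  · rw [← hZ1]
    intro s hs
    obtain ⟨r, hr, rfl⟩ := List.mem_map.1 hs
    have h1 := hcr r hr
    obtain ⟨L, p, R⟩ := r
    cases p with
    | cr b s₁ y s₂ t₁ y' t₂ z =>
      obtain ⟨h2, h3⟩ := h1 b y y' z rfl
      refine ⟨fun hb => ?_, fun hb => ?_⟩
      · have hb' : b ≠ cB := bool_ne' hb
        show y.1 = y'.1
        rw [(h3 hb').2.1, (h3 hb').2.2.1]
      · have hb' : b = cB := bool_ne'' hb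
        have : cur 0 (trF kp Prod.fst (0, true) L) = (cur (0, true) L).1 :=
          cur_trF kp Prod.fst (0, true) L
        show cur 0 (trF kp Prod.fst (0, true) L) = z.1
        rw [this, (h2 hb').2.2.2]
        exact (h2 hb').1
    | _ => trivial
  · have h1 : (insert l (holeLabels l (trE kp Prod.snd ((0, true), l) Z')).toFinset).card ≤
        holes D + 1 := by
      refine (Finset.card_insert_le _ _).trans ?_
      have h2 := List.toFinset_card_le (holeLabels l (trE kp Prod.snd ((0, true), l) Z'))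
      rw [holeLabels_length, hf.2] at h2
      omega
    exact (Finset.card_le_card hsub).trans h1
  · rw [hsum]
    linarith


/-- `e` is the largest number of different labels of the external regions -/
def Ext (D : List Piece) (e : ℕ) : Prop :=
  (∃ (l : ℕ) (f : List (Slice Unit ℕ)), Labelling l f D ∧ e ≤ cardL l f) ∧
  ∀ (l : ℕ) (f : List (Slice Unit ℕ)), Labelling l f D → cardL l f ≤ e

theorem adequate2 {D : List Piece} (hwf : WF 0 D 0) (hD : Connected D) (ha : Alternating D)
    (hS : Simple D) (hz : Z2Trivial D) (hn : ∃ i, Piece.birth i ∈ D) :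
    ∃ (k : Bool → ℤ) (e l : ℕ) (f : List (Slice Unit ℕ)), (∀ c, Ub (sm c D) (k c)) ∧
      (∀ c u i b v, D = u ++ .cr i b :: v → Ub (sm c (u ++ .cr i (!b) :: v)) (k c)) ∧
      (∀ c, ∃ E : List (Slice Unit ℕ), Labelling 0 E (sm c D) ∧ HOK E ∧
        k c ≤ Phi true ht 0 E) ∧
      Labelling l f D ∧ e ≤ cardL l f ∧
      (crossings D : ℤ) + 4 - 2 * e ≤ k true + k false := by
  obtain ⟨cB, hcB⟩ := alt_type hD ha
  obtain ⟨EA, EB, e, l, f, hA, okA, ceA, hB, okB, ceB, hR, hf, he, heh, hsum⟩ :=
    lower_states2 hwf cB hcB hz hn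
  obtain ⟨k', hk', hN'⟩ := upper (crossings D) D rfl hwf hD e l f hf he
  have h1 := ubc_of_ub (hk' cB) EA hA okA ceA
  have h2 := ubc_of_ub (hk' (!cB)) EB hB okB ceB
  have hkk : k' true + k' false = k' cB + k' (!cB) := by cases cB <;> simp [add_comm]
  have hUB : Ub (sm cB D) (Phi cB ht 0 EA) := (hk' cB).mono (by linarith)
  have hUW : Ub (sm (!cB) D) (Phi (!cB) ht 0 EB) := (hk' (!cB)).mono (by linarith)
  have hcase : ∀ c : Bool, c = cB ∨ c = !cB := by
    intro c; cases c <;> cases cB <;> simp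
  have hne : ¬ ((!cB) = cB) := by simp
  refine ⟨fun c => if c = cB then Phi cB ht 0 EA else Phi (!cB) ht 0 EB, e, l, f, ?_, ?_, ?_, hf,
    he, ?_⟩
  · intro c
    rcases hcase c with rfl | rfl
    · simp only [if_true]; exact hUB
    · simp only [hne, if_false]; exact hUW
  · intro c u i b v hDe
    subst hDe
    have hSd := hS.1 u i b v rfl
    rcases hcase c with rfl | rfl
    · simp only [if_true]
      exact switch_B hwf hD hcB hSd (hS.2 u i b v rfl) hUB e l f hf he EB hB okB ceB hR hsum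
    · simp only [hne, if_false]
      exact switch_W hwf hD hcB hSd hUW
  · intro c
    rcases hcase c with rfl | rfl
    · obtain ⟨E', g1, g2, g3, g4, g5⟩ := drop' c 0 [] [] EA hA.1 ceA
      refine ⟨E', ⟨g1, by rw [g2, hA.2]⟩, ⟨g5 _ okA.1, by rw [g3]; exact okA.2⟩, ?_⟩
      simp only [if_true]
      rw [g4]
    · obtain ⟨E', g1, g2, g3, g4, g5⟩ := drop' (!cB) 0 [] [] EB hB.1 ceB
      refine ⟨E', ⟨g1, by rw [g2, hB.2]⟩, ⟨g5 _ okB.1, by rw [g3]; exact okB.2⟩, ?_⟩
      simp only [hne, if_false]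
      rw [g4]
  · have hs : (if true = cB then Phi cB ht 0 EA else Phi (!cB) ht 0 EB) +
        (if false = cB then Phi cB ht 0 EA else Phi (!cB) ht 0 EB) =
        Phi cB ht 0 EA + Phi (!cB) ht 0 EB := by
      cases cB <;> simp [add_comm]
    rw [hs]
    linarith

/-- growth of the bracket of a simple diagram -/
theorem base {D : List Piece} (hwf : WF 0 D 0) (hD : Connected D) (ha : Alternating D)
    (hS : Simple D) (hz : Z2Trivial D) (hn : ∃ i, Piece.birth i ∈ D) (e : ℕ) (he : Ext D e) :
    ∃ M₁ M₂ : ℤ, Gr (fun t => V t D) M₁ ∧ Gr (fun t => V t⁻¹ D) M₂ ∧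
      M₁ + M₂ = 4 * crossings D + 8 - 4 * e := by
  obtain ⟨k, e0, l, f, hub, hsw, hex, hf, he0, hlow⟩ := adequate2 hwf hD ha hS hz hn
  have hee : e0 ≤ e := he0.trans (he.2 l f hf)
  obtain ⟨l', f', hf', he'⟩ := he.1
  obtain ⟨k', hk', hN'⟩ := upper (crossings D) D rfl hwf hD e l' f' hf' he'
  have hkc : ∀ c, k c ≤ k' c := by
    intro c
    obtain ⟨E, h1, h2, h3⟩ := hex c
    exact h3.trans (hk' c E h1 h2)
  have hsum : k true + k false = crossings D + 4 - 2 * e := by
    have h1 := hkc true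
    have h2 := hkc false
    have h3 : (e0 : ℤ) ≤ e := by exact_mod_cast hee
    linarith
  obtain ⟨C1, hC1, hb1⟩ := ubV D [] (k true) rfl hwf (hub true)
  obtain ⟨C2, hC2, hb2⟩ := ubV (D.map fl) [] (k false) rfl ((WF_fl _ _ _).2 hwf) (by
    rw [List.nil_append, sm_fl]; exact hub false)
  obtain ⟨E1, e11, e12, e13⟩ := hex true
  obtain ⟨c1, T1, hc1, hT1, hl1⟩ := big hwf (k true) (hub true) (fun u i b v h => hsw true u i b v h)
    E1 e11 e12 e13
  obtain ⟨E2, e21, e22, e23⟩ := hex false
  obtain ⟨c2, T2, hc2, hT2, hl2⟩ := big (D := D.map fl) ((WF_fl _ _ _).2 hwf) (k false)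
    (by rw [sm_fl]; exact hub false) (by
      intro u i b v h
      have hD2 : D = u.map fl ++ .cr i (!b) :: v.map fl := by
        have := congrArg (List.map fl) h
        rw [fl_fl] at this
        rw [this]; simp [fl]
      have h2 := hsw false (u.map fl) i (!b) (v.map fl) hD2
      have h3 : u.map fl ++ .cr i (!!b) :: v.map fl = (u ++ .cr i (!b) :: v).map fl := by
        simp [fl]
      rw [h3, sm_fl] at h2
      exact h2)
    E2 (by rw [sm_fl]; exact e21) e22 e23
  rw [crossings_fl] at hl2 hb2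
  simp only [List.nil_append] at hb1 hb2
  refine ⟨(crossings D : ℤ) + 2 * k true, (crossings D : ℤ) + 2 * k false, ?_, ?_, ?_⟩
  · refine ⟨c1, C1, T1, hc1, fun t h1 h0 => ⟨hl1 t h1, hb1 t (hT1.trans h1)⟩⟩
  · refine ⟨c2, C2, T2, hc2, fun t h1 h0 => ?_⟩
    show _ ≤ |V t⁻¹ D| ∧ |V t⁻¹ D| ≤ _
    rw [V_inv]
    exact ⟨hl2 t h1, hb2 t (hT2.trans h1)⟩
  · linarith

end Pool.Agent.W617.KB
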