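import Pool.Agent.W617.KB.Pres
import Pool.Agent.W617.KB.Stmts

/-! `DiskAt` implies `Excluded`. -/

set_option autoImplicit false
set_option linter.unusedSimpArgs false

namespace Pool.Agent.W617.KB

open Pool.Agent.H560R3.TG

variable {S G S' G' : Type}

theorem flat_append (a : Bool) (L M : List (Bool × Bool)) :
    Flat a (L ++ M) ↔ Flat a L ∧ Flat (cur a L) M := by
  induction L generalizing a with
  | nil => simp [Flat, cur]
  | cons p L ih =>
    obtain ⟨s, g⟩ := p
    simp only [List.cons_append, Flat, cur, ih]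
    tauto

theorem near_append (a : Bool) (L M : List (Bool × Bool)) :
    Near a (L ++ M) ↔ Near a L ∧ Near (cur a L) M := by
  induction L generalizing a with
  | nil => simp [Near, cur]
  | cons p L ih =>
    obtain ⟨s, g⟩ := p
    simp only [List.cons_append, Near, cur, ih]
    tauto

theorem trF_forget (a : Bool) (F : List (Bool × Bool)) :
    trF (kp : Bool → Bool → Bool → Bool) (fun _ => ()) a F = forget F := by
  induction F generalizing a with
  | nil => rfl
  | cons p F ih => simp only [trF, ih]; rfl

theorem forget_inj {F F' : List (Bool × Bool)} (h : forget F = forget F') :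
    F.map Prod.fst = F'.map Prod.fst := by
  have := congrArg (List.map Prod.fst) h
  simpa [forget, List.map_map, Function.comp_def] using this

/-- label of the strands -/
def ph (r : Bool) (s : Bool × Bool) (x y : Bool × Bool) : Bool :=
  if s.1 then r else (x.2 && y.2)

theorem sym_ph (r : Bool) : Sym (ph r) := by
  intro s x y
  unfold ph
  rw [Bool.and_comm]

theorem near_of (F F' : List (Bool × Bool)) (a a' : Bool) (h : F'.map Prod.fst = F.map Prod.fst)
    (he : ∀ e ∈ trF (ph true) (fun _ => ()) (a, a') (zipF F F'), e.1 = true) : Near a' F' := by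
  induction F generalizing F' a a' with
  | nil =>
    rcases F' with _ | ⟨p', F'⟩
    · trivial
    · simp at h
  | cons p F ih =>
    rcases F' with _ | ⟨⟨s', g'⟩, F'⟩
    · trivial
    · obtain ⟨s, g⟩ := p
      simp only [List.map_cons, List.cons.injEq] at h
      obtain ⟨rfl, h⟩ := h
      refine ⟨fun hs => ?_, ih F' g g' h fun e he' => he e ?_⟩
      · have := he (ph true (s', s') (a, a') (g, g'), ()) (by simp [zipF, trF])
        simp only [ph, hs, Bool.false_eq_true, if_false, Bool.and_eq_true] at this
        exact this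
      · simp only [zipF, trF, List.mem_cons]
        exact Or.inr he'

theorem hole_ok (L L' : List (Bool × Bool)) (a a' : Bool) (h : L'.map Prod.fst = L.map Prod.fst)
    (hA : Away a L) (hN : Near a' L') (hc : cur a L = true) (h0 : L = [] → a' = true) :
    cur a' L' = true := by
  induction L generalizing L' a a' with
  | nil =>
    rcases L' with _ | ⟨p', L'⟩
    · exact h0 rfl
    · simp at h
  | cons p L ih =>
    rcases L' with _ | ⟨⟨s', g'⟩, L'⟩
    · simp at h
    · obtain ⟨s, g⟩ := p
      simp only [List.map_cons, List.cons.injEq] at h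
      obtain ⟨rfl, h⟩ := h
      refine ih L' g g' h hA.2 hN.2 hc ?_
      rintro rfl
      have hg : g = true := hc
      have hs : s' = false := by
        by_contra hs
        have := (hA.1 (by simpa using hs)).2
        rw [hg] at this
        simp at this
      exact (hN.1 hs).2

theorem two_true : ∀ a b c d : Bool, ((a = b ∧ c = d ∧ a ≠ c) ∨ (a = c ∧ b = d ∧ a ≠ b)) →
    (a = true ∨ c = true ∨ b = true) := by decide

theorem hole_mem {a : G} {E : List (Slice S G)} {L R : List (S × G)}
    (h : (⟨L, .hole, R⟩ : Slice S G) ∈ E) : cur a L ∈ holeLabels a E := by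
  induction E with
  | nil => simp at h
  | cons r E ih =>
    rcases List.mem_cons.1 h with h | h
    · subst h
      simp [holeLabels]
    · have := ih h
      obtain ⟨L', p, R'⟩ := r
      cases p <;> simp only [holeLabels, List.mem_cons] <;> tauto

theorem hDE : S_DE := by
  intro u i b v hwf hD hdisk
  obtain ⟨Eu, Ev, L, R, s₁, y, s₂, t₁, y', t₂, z, hE1, hu, hh1, haw, hsame, htwo⟩ := hdisk
  set X : Slice Bool Bool := ⟨L, .cr b s₁ y s₂ t₁ y' t₂ z, R⟩ with hX
  set E1 := Eu ++ X :: Ev with hE1d
  set κ : Bool → Bool → Bool → Bool := kp with hκ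
  set τ : Bool → Unit := fun _ => () with hτ
  have hsplit : trE κ τ true E1 = trE κ τ true Eu ++
      ⟨trF κ τ true L, .cr b s₁ () s₂ t₁ () t₂ (), trF κ τ z R⟩ :: trE κ τ true Ev := by
    simp [hE1d, trE, hX, Slice.tr, Loc.tr, Loc.right, hκ, kp]
  have hE0 : Labelling () (trE κ τ true E1) (u ++ .cr i b :: v) := labelling_tr sym_kp τ hE1
  refine ⟨trE κ τ true Eu, trE κ τ true Ev, trF κ τ true L, trF κ τ z R, s₁, s₂, t₁, t₂, ?_, ?_,
    ?_, htwo, ?_⟩
  · rw [← hsplit]; exact hE0
  · rw [plain_trE, hu]
  · intro s hs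
    have hs' : s ∈ trE κ τ true (Eu ++ Ev) := by
      simpa [trE] using hs
    obtain ⟨r, hr, rfl⟩ := List.mem_map.1 hs'
    have h1 := hsame r hr
    obtain ⟨L1, p, R1⟩ := r
    cases p with
    | cr b s₁ y s₂ t₁ y' t₂ z => exact h1
    | _ => trivial
  intro E hE hover hflat
  rw [← hsplit] at hover
  -- corresponding slices
  have hidx : ∀ (n : ℕ) (pc : Piece), (u ++ .cr i b :: v)[n]? = some pc →
      ∃ p q, E1[n]? = some p ∧ E[n]? = some q ∧ p.plain = pc ∧ q.plain = pc ∧
        (q.src true).map Prod.fst = (p.src true).map Prod.fst ∧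
        (q.tgt true).map Prod.fst = (p.tgt true).map Prod.fst := by
    intro n pc hn
    obtain ⟨p, hp, hpp⟩ := get_of_plain hE1 hn
    obtain ⟨q, hq, hqp⟩ := get_of_plain hE hn
    refine ⟨p, q, hp, hq, hpp, hqp, ?_, ?_⟩
    · have h1 := congrArg (fun l => l[n]?) hover.1
      simp only [List.getElem?_map, trE, hq, hp, Option.map_some, Option.some.injEq] at h1
      have h2 := src_tr (sym_kp : Sym (kp : Bool → Bool → Bool → Bool)) τ true p
      have h3 : (Slice.tr κ τ true p).src () = trF κ τ true (p.src true) := h2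
      rw [h3, trF_forget] at h1
      exact forget_inj h1
    · have h1 := congrArg (fun l => l[n]?) hover.2
      simp only [List.getElem?_map, trE, hq, hp, Option.map_some, Option.some.injEq] at h1
      have h2 := tgt_tr (sym_kp : Sym (kp : Bool → Bool → Bool → Bool)) τ true p
      have h3 : (Slice.tr κ τ true p).tgt () = trF κ τ true (p.tgt true) := h2
      rw [h3, trF_forget] at h1
      exact forget_inj h1
  -- the labels at a crossing
  have hcr : ∀ (n j : ℕ) (c : Bool), (u ++ .cr i b :: v)[n]? = some (.cr j c) →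
      ∀ p q, E1[n]? = some p → E[n]? = some q →
      ∃ a₁ a₂ c₁ c₂ : Bool, ∃ (x1 y1 y1' z1 : Bool) (L1 R1 L2 R2 : List (Bool × Bool))
        (x0 x0' x0'' : Bool),
        p = ⟨L1, .cr c a₁ x0 a₂ c₁ x0' c₂ x0'', R1⟩ ∧ q = ⟨L2, .cr c a₁ y1 a₂ c₁ y1' c₂ z1, R2⟩ ∧
        x1 = cur true L2 ∧
        L1.length = L2.length ∧ (a₁ = false → y1 = x1) ∧ (a₂ = false → z1 = y1) ∧
        (c₁ = false → y1' = x1) ∧ (c₂ = false → z1 = y1') := by
    intro n j c hn p q hp hq
    obtain ⟨p', q', hp', hq', hpp, hqp, hs, ht⟩ := hidx n _ hn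
    rw [hp] at hp'; rw [hq] at hq'
    obtain rfl : p = p' := by simpa using hp'
    obtain rfl : q = q' := by simpa using hq'
    obtain ⟨L1, R1, a₁, x0, a₂, c₁, x0', c₂, x0'', rfl, hL1⟩ := plain_cr p j c hpp
    obtain ⟨L2, R2, a₁', y1, a₂', c₁', y1', c₂', z1, rfl, hL2⟩ := plain_cr q j c hqp
    have hlen : (L2.map Prod.fst).length = (L1.map Prod.fst).length := by simp [hL1, hL2]
    simp only [Slice.src, Slice.tgt, Loc.src, Loc.tgt, List.map_append, List.append_assoc,
      List.map_cons, List.map_nil, List.cons_append, List.nil_append] at hs ht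
    obtain ⟨-, hs⟩ := List.append_inj hs hlen
    obtain ⟨-, ht⟩ := List.append_inj ht hlen
    simp only [List.cons.injEq] at hs ht
    obtain ⟨rfl, rfl, -⟩ := hs
    obtain ⟨rfl, rfl, -⟩ := ht
    obtain ⟨f1, f2⟩ := hflat _ (List.mem_of_getElem? hq)
    have f1' : Flat true (L2 ++ (a₁', y1) :: (a₂', z1) :: R2) := by
      simpa [Slice.src, Loc.src] using f1
    have f2' : Flat true (L2 ++ (c₁', y1') :: (c₂', z1) :: R2) := by
      simpa [Slice.tgt, Loc.tgt] using f2
    rw [flat_append] at f1' f2'
    refine ⟨a₁', a₂', c₁', c₂', cur true L2, y1, y1', z1, L1, R1, L2, R2, x0, x0', x0'', rfl, rfl,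
      rfl, by omega, f1'.2.1, f1'.2.2.1, f2'.2.1, f2'.2.2.1⟩
  have hlu : Eu.length = u.length := len_of_plain hu
  have hXget : E1[u.length]? = some X := by rw [hE1d, ← hlu]; simp
  have hDget : (u ++ Piece.cr i b :: v)[u.length]? = some (.cr i b) := by simp
  obtain ⟨qX, hqX, hqXp⟩ := get_of_plain hE hDget
  obtain ⟨a₁, a₂, c₁, c₂, x1, y1, y1', z1, L1, R1, L2, R2, x0, x0', x0'', hXe, hqe, hx1, hLL, g1,
    g2, g3, g4⟩ := hcr _ _ _ hDget _ _ hXget hqX
  rw [hX] at hXe
  simp only [Slice.mk.injEq, Loc.cr.injEq] at hXe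
  obtain ⟨rfl, ⟨-, rfl, rfl, rfl, rfl, rfl, rfl, rfl⟩, rfl⟩ := hXe
  obtain ⟨r0, k1, k2, k3, k4⟩ : ∃ r0 : Bool, (s₁ = false → (x1 && y1) = r0) ∧
      (s₂ = false → (y1 && z1) = r0) ∧ (t₁ = false → (x1 && y1') = r0) ∧
      (t₂ = false → (y1' && z1) = r0) := by
    rcases htwo with ⟨h1, h2, h3⟩ | ⟨h1, h2, h3⟩
    · subst h1; subst h2
      cases s₁ <;> cases t₁
      · exact absurd rfl h3
      · have e1 := g1 rfl
        have e2 := g2 rfl
        subst e1; subst e2
        exact ⟨z1, by simp, by simp, by simp, by simp⟩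
      · have e1 := g3 rfl
        have e2 := g4 rfl
        subst e1; subst e2
        exact ⟨z1, by simp, by simp, by simp, by simp⟩
      · exact absurd rfl h3
    · subst h1; subst h2
      cases s₁ <;> cases s₂
      · exact absurd rfl h3
      · have e1 := g1 rfl
        have e2 := g3 rfl
        exact ⟨x1, fun _ => by rw [e1]; simp, by simp, fun _ => by rw [e2]; simp, by simp⟩
      · have e1 := g2 rfl
        have e2 := g4 rfl
        exact ⟨z1, by simp, fun _ => by rw [← e1]; simp, by simp, fun _ => by rw [← e2]; simp⟩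
      · exact absurd rfl h3
  -- the labelling of the strands
  have hZ := labelling_zip hE1 hE
  have hW := labelling_tr (sym_ph r0) (fun _ => ()) hZ
  set W := trE (ph r0) (fun _ => ()) (true, true) (zipE E1 E) with hWd
  have hWget : ∀ (n : ℕ) (p q : Slice Bool Bool), E1[n]? = some p → E[n]? = some q →
      W[n]? = some (Slice.tr (ph r0) (fun _ => ()) (true, true) (p.zip q)) := by
    intro n p q hp hq
    rw [hWd]
    unfold trE zipE
    rw [List.getElem?_map, List.getElem?_zipWith, hp, hq]
    rfl
  have hWidx : ∀ s ∈ W, ∃ (n : ℕ) (p q : Slice Bool Bool), E1[n]? = some p ∧ E[n]? = some q ∧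
      (u ++ Piece.cr i b :: v)[n]? = some p.plain ∧
      s = Slice.tr (ph r0) (fun _ => ()) (true, true) (p.zip q) := by
    intro s hs
    obtain ⟨n, hn⟩ := List.mem_iff_getElem?.1 hs
    have h1 : (u ++ Piece.cr i b :: v)[n]? = some s.plain := by
      rw [← hW.2, List.getElem?_map, hn]; rfl
    obtain ⟨p, q, hp, hq, hpp, hqp, -, -⟩ := hidx n _ h1
    have h2 := hWget n p q hp hq
    rw [hn] at h2
    refine ⟨n, p, q, hp, hq, by rw [hpp]; exact h1, by simpa using h2⟩
  obtain ⟨w, hw⟩ := hD W hW (by
    intro s hs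
    obtain ⟨n, p, q, hp, hq, hn, rfl⟩ := hWidx s hs
    by_cases hiscr : ∃ j c, p.plain = .cr j c
    · obtain ⟨j, c, hjc⟩ := hiscr
      rw [hjc] at hn
      obtain ⟨a₁, a₂, c₁, c₂, x2, y2, y2', z2, L3, R3, L4, R4, w0, w0', w0'', hpe, hqe2, hx2, hLL2,
        e1, e2, e3, e4⟩ := hcr _ _ _ hn _ _ hp hq
      subst hpe; subst hqe2
      have hcz : (cur ((true, true) : Bool × Bool) (zipF L3 L4)).2 = x2 := by
        rw [cur_zipF true true L3 L4 hLL2, hx2]
      by_cases hnX : n = u.length
      · subst hnX
        rw [hXget] at hp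
        rw [hqX] at hq
        simp only [Option.some.injEq] at hp hq
        rw [hX] at hp
        rw [hqe] at hq
        simp only [Slice.mk.injEq, Loc.cr.injEq] at hp hq
        obtain ⟨rfl, ⟨-, rfl, rfl, rfl, rfl, rfl, rfl, rfl⟩, rfl⟩ := hp
        obtain ⟨rfl, ⟨-, -, rfl, -, -, rfl, -, rfl⟩, rfl⟩ := hq
        have hx12 : x2 = x1 := by rw [hx2, hx1]
        have m1 : ph r0 (s₁, s₁) (cur (true, true) (zipF L L2)) (y, y1) = r0 := by
          unfold ph
          cases s₁
          · simp only [Bool.false_eq_true, if_false]; rw [hcz, hx12]; exact k1 rfl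
          · simp
        have m2 : ph r0 (s₂, s₂) (y, y1) (z, z1) = r0 := by
          unfold ph
          cases s₂
          · simp only [Bool.false_eq_true, if_false]; exact k2 rfl
          · simp
        have m3 : ph r0 (t₁, t₁) (cur (true, true) (zipF L L2)) (y', y1') = r0 := by
          unfold ph
          cases t₁
          · simp only [Bool.false_eq_true, if_false]; rw [hcz, hx12]; exact k3 rfl
          · simp
        have m4 : ph r0 (t₂, t₂) (y', y1') (z, z1) = r0 := by
          unfold ph
          cases t₂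
          · simp only [Bool.false_eq_true, if_false]; exact k4 rfl
          · simp
        simp only [Slice.zip, Loc.zip, Slice.tr, Loc.tr, Loc.Same, m1, m2, m3, m4, and_self]
      · -- another crossing
        have hsm : Loc.Same (.cr c a₁ w0 a₂ c₁ w0' c₂ w0'' : Loc Bool Bool) := by
          have hmem : (⟨L3, .cr c a₁ w0 a₂ c₁ w0' c₂ w0'', R3⟩ : Slice Bool Bool) ∈ Eu ++ Ev := by
            rcases lt_or_gt_of_ne hnX with hlt | hgt
            · rw [hE1d, List.getElem?_append_left (by omega)] at hp
              exact List.mem_append_left _ (List.mem_of_getElem? hp)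
            · rw [hE1d, List.getElem?_append_right (by omega)] at hp
              obtain ⟨r, hr⟩ : ∃ r, n - Eu.length = r + 1 := ⟨n - Eu.length - 1, by omega⟩
              rw [hr, List.getElem?_cons_succ] at hp
              exact List.mem_append_right _ (List.mem_of_getElem? hp)
          exact hsame _ hmem
        obtain ⟨rfl, rfl, rfl⟩ := hsm
        simp only [Slice.zip, Loc.zip, Slice.tr, Loc.tr, Loc.Same]
        cases a₁
        · have q1 := e1 rfl
          have q2 := e2 rfl
          have q3 := e3 rfl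
          have q4 := e4 rfl
          have q5 : y2' = y2 := by rw [q3, q1]
          have q6 : z2 = y2 := q2
          refine ⟨?_, ?_, ?_⟩
          · unfold ph
            simp only [Bool.false_eq_true, if_false]
            rw [hcz, q6, ← q1]
          · unfold ph
            simp only [Bool.false_eq_true, if_false]
            rw [hcz, q5]
          · unfold ph
            simp only [Bool.false_eq_true, if_false]
            rw [hcz, q5, q6, ← q1]
        · simp [ph]
    · obtain ⟨L3, p3, R3⟩ := p
      have hqp : q.plain = (⟨L3, p3, R3⟩ : Slice Bool Bool).plain := by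
        obtain ⟨p', q', hp', hq', hpp, hqp, -, -⟩ := hidx n _ hn
        rw [hq] at hq'
        obtain rfl : q = q' := by simpa using hq'
        exact hqp
      obtain ⟨L4, q4, R4⟩ := q
      cases p3 with
      | cr c a₁ y a₂ c₁ y' c₂ z => exact absurd ⟨_, _, rfl⟩ hiscr
      | birth _ _ => cases q4 <;> first | trivial | simp [Slice.plain] at hqp
      | death _ _ => cases q4 <;> first | trivial | simp [Slice.plain] at hqp
      | hole => cases q4 <;> first | trivial | simp [Slice.plain] at hqp)
  -- all labels are `r0`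
  have hsrc : ∀ (n : ℕ) (p q : Slice Bool Bool), E1[n]? = some p → E[n]? = some q →
      p.plain = q.plain → (∀ e ∈ trF (ph r0) (fun _ => ()) (true, true)
        (zipF (p.src true) (q.src true)), e.1 = w) ∧
      (∀ e ∈ trF (ph r0) (fun _ => ()) (true, true)
        (zipF (p.tgt true) (q.tgt true)), e.1 = w) := by
    intro n p q hp hq hpq
    have h1 := List.mem_of_getElem? (hWget n p q hp hq)
    have h2 := hw _ h1
    have h3 := src_tr (sym_ph r0) (fun _ => ()) ((true, true) : Bool × Bool) (p.zip q)
    have h4 := tgt_tr (sym_ph r0) (fun _ => ()) ((true, true) : Bool × Bool) (p.zip q)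
    rw [zip_src true true p q hpq] at h3
    rw [zip_tgt true true p q hpq] at h4
    constructor
    · intro e he
      apply h2
      rw [List.mem_append]
      left
      have h3' : (Slice.tr (ph r0) (fun _ => ()) ((true, true) : Bool × Bool) (p.zip q)).src () =
        _ := h3
      rw [h3']; exact he
    · intro e he
      apply h2
      rw [List.mem_append]
      right
      have h4' : (Slice.tr (ph r0) (fun _ => ()) ((true, true) : Bool × Bool) (p.zip q)).tgt () =
        _ := h4
      rw [h4']; exact he
  have hwr : w = r0 := by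
    have hXW := List.mem_of_getElem? (hWget _ _ _ hXget hqX)
    have h2 := hw _ hXW
    have htrue : s₁ = true ∨ t₁ = true ∨ s₂ = true := by
      exact two_true s₁ s₂ t₁ t₂ htwo
    rw [hqe] at h2
    rcases htrue with h | h | h
    · have := h2 (ph r0 (s₁, s₁) (cur (true, true) (zipF L L2)) (y, y1), ()) (by
        simp [hX, Slice.zip, Loc.zip, Slice.tr, Loc.tr, Slice.src, Loc.src])
      rw [← this]; simp [ph, h]
    · have := h2 (ph r0 (t₁, t₁) (cur (true, true) (zipF L L2)) (y', y1'), ()) (by
        simp [hX, Slice.zip, Loc.zip, Slice.tr, Loc.tr, Slice.tgt, Loc.tgt])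
      rw [← this]; simp [ph, h]
    · have := h2 (ph r0 (s₂, s₂) (y, y1) (z, z1), ()) (by
        simp [hX, Slice.zip, Loc.zip, Slice.tr, Loc.tr, Slice.src, Loc.src])
      rw [← this]; simp [ph, h]
  subst hwr
  -- `w` is true
  have hwt : w = true := by
    have hXp : X.plain = qX.plain := by
      have := hE1.2
      have h1 : (E1.map Slice.plain)[u.length]? = some X.plain := by
        rw [List.getElem?_map, hXget]; rfl
      rw [this, hDget] at h1
      rw [hqXp]; simpa using h1.symm
    have h5 := (hsrc _ _ _ hXget hqX hXp).1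
    obtain ⟨hA, -⟩ := haw X (List.mem_of_getElem? hXget)
    obtain ⟨hF, -⟩ := hflat qX (List.mem_of_getElem? hqX)
    have hne : X.src true ≠ [] := by simp [hX, Slice.src, Loc.src]
    have hfs : (qX.src true).map Prod.fst = (X.src true).map Prod.fst := by
      obtain ⟨p', q', hp', hq', -, -, hs, -⟩ := hidx _ _ hDget
      rw [hXget] at hp'; rw [hqX] at hq'
      obtain rfl : X = p' := by simpa using hp'
      obtain rfl : qX = q' := by simpa using hq'
      exact hs
    generalize X.src true = FX at h5 hA hne hfs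
    generalize qX.src true = FQ at h5 hF hfs
    rcases FX with _ | ⟨⟨s, g⟩, FX⟩
    · exact absurd rfl hne
    · rcases FQ with _ | ⟨⟨s', g'⟩, FQ⟩
      · simp at hfs
      · simp only [List.map_cons, List.cons.injEq] at hfs
        obtain ⟨rfl, -⟩ := hfs
        have hs : s' = false := by
          by_contra hs
          have := (hA.1 (by simpa using hs)).1
          simp at this
        have hg' : g' = true := hF.1 hs
        have := h5 (ph w (s', s') (true, true) (g, g'), ()) (by simp [zipF, trF])
        rw [← this]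
        simp [ph, hs, hg']
  subst hwt
  have hnear : ∀ (n : ℕ) (p q : Slice Bool Bool), E1[n]? = some p → E[n]? = some q →
      (u ++ Piece.cr i b :: v)[n]? = some q.plain →
      Near true (q.src true) ∧ Near true (q.tgt true) := by
    intro n p q hp hq hn
    obtain ⟨p', q', hp', hq', hpp, hqp, hs, ht⟩ := hidx n _ hn
    rw [hp] at hp'; rw [hq] at hq'
    obtain rfl : p = p' := by simpa using hp'
    obtain rfl : q = q' := by simpa using hq'
    obtain ⟨h1, h2⟩ := hsrc n p q hp hq hpp
    exact ⟨near_of _ _ _ _ hs h1, near_of _ _ _ _ ht h2⟩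
  have hEidx : ∀ s ∈ E, ∃ (n : ℕ) (p : Slice Bool Bool), E1[n]? = some p ∧ E[n]? = some s ∧
      (u ++ Piece.cr i b :: v)[n]? = some s.plain := by
    intro s hs
    obtain ⟨n, hn⟩ := List.mem_iff_getElem?.1 hs
    have h1 : (u ++ Piece.cr i b :: v)[n]? = some s.plain := by
      rw [← hE.2, List.getElem?_map, hn]; rfl
    obtain ⟨p, hp, -⟩ := get_of_plain hE1 h1
    exact ⟨n, p, hp, hn, h1⟩
  refine ⟨fun h hh => ?_, fun s hs => ?_⟩
  · obtain ⟨L5, R5, hmem, rfl⟩ := mem_holeLabels hh
    obtain ⟨n, p, hp, hq, hn⟩ := hEidx _ hmem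
    obtain ⟨hN, -⟩ := hnear n p _ hp hq hn
    obtain ⟨p', q', hp', hq', hpp, hqp, hs, ht⟩ := hidx n _ hn
    rw [hp] at hp'; rw [hq] at hq'
    obtain rfl : p = p' := by simpa using hp'
    obtain rfl : (⟨L5, .hole, R5⟩ : Slice Bool Bool) = q' := by simpa using hq'
    obtain ⟨L6, R6, rfl, hL6⟩ := plain_hole p L5.length hpp
    have hhole : cur true L6 = true := by
      apply hh1
      exact hole_mem (List.mem_of_getElem? hp)
    have hA := (haw _ (List.mem_of_getElem? hp)).1
    have hA' : Away true (L6 ++ R6) := by simpa [Slice.src, Loc.src] using hA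
    have hN' : Near true (L5 ++ R5) := by simpa [Slice.src, Loc.src] using hN
    rw [away_append] at hA'
    rw [near_append] at hN'
    have hs' : (L5 ++ R5).map Prod.fst = (L6 ++ R6).map Prod.fst := by
      simpa [Slice.src, Loc.src] using hs
    rw [List.map_append, List.map_append] at hs'
    obtain ⟨hs1, -⟩ := List.append_inj hs' (by simp [hL6])
    exact hole_ok L6 L5 true true hs1 hA'.1 hN'.1 hhole (fun _ => rfl)
  · obtain ⟨n, p, hp, hq, hn⟩ := hEidx _ hs
    exact hnear n p s hp hq hn

end Pool.Agent.W617.KB
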