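import Pool.Agent.H560R3.TG.Defs

/-!
# The Kauffman bracket of links in `#_g (S¹ × S²)`: definitions

The diagrams in the disk with holes `S_g` (words in the elementary pieces), their labellings and the
properties `WF`, `Connected`, `Alternating`, `Filling`, `Z2Trivial`, `External` are those of the
starting file `Pool.Agent.H560R3.TG.Defs`. Here are: the excluded crossings, the two numbers of
crossings which touch external regions twice, the skein module of `M_g = #_g (S¹ × S²)`, the bracket
and the breadth.
-/

set_option autoImplicit false

namespace Pool.Agent.W617.KB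

open Pool.Agent.H560R3.TG

/-! ### crossings and external regions -/

/-- The corners `k` and `k'` of the crossing `cr i b` of `u ++ cr i b :: v` lie in the same region:
they get the same label in all labellings of the regions. -/
def SameRegion (u : List Piece) (i : ℕ) (b : Bool) (v : List Piece) (k k' : Fin 4) : Prop :=
  ∀ (a : Bool) (Eu Ev : List (Slice Unit Bool)) (L R : List (Unit × Bool)) (y y' z : Bool),
    Labelling a (Eu ++ ⟨L, .cr b () y () () y' () z, R⟩ :: Ev) (u ++ .cr i b :: v) →
    Eu.map Slice.plain = u →
    corner (cur a L) y z y' k = corner (cur a L) y z y' k'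

/-- The crossing is adjacent to two distinct external regions. -/
def TwoExternal (u : List Piece) (i : ℕ) (b : Bool) (v : List Piece) : Prop :=
  ∃ k k' : Fin 4, External u i b v k ∧ External u i b v k' ∧ ¬ SameRegion u i b v k k'

/-- Two corners of the crossing lie in external regions (in two distinct ones or in the same). -/
def ExternalTwice (u : List Piece) (i : ℕ) (b : Bool) (v : List Piece) : Prop :=
  ∃ k k' : Fin 4, k ≠ k' ∧ External u i b v k ∧ External u i b v k'

/-- The number of the crossings of `D` with the property `P`; a crossing of `D` is given by the part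
`u` of the word before it. -/
noncomputable def count (P : List Piece → ℕ → Bool → List Piece → Prop) (D : List Piece) : ℕ :=
  {u : List Piece | ∃ i b v, D = u ++ .cr i b :: v ∧ P u i b v}.ncard

/-! ### excluded crossings -/

/-- The gaps on the two sides of every strand with the label `false` have the same label. -/
def Flat : Bool → List (Bool × Bool) → Prop
  | _, [] => True
  | a, (s, g) :: F => (s = false → g = a) ∧ Flat g F

/-- The gaps next to the strands with the label `false` have the label `true`. -/
def Near : Bool → List (Bool × Bool) → Prop
  | _, [] => True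
  | a, (s, g) :: F => (s = false → a = true ∧ g = true) ∧ Near g F

/-- Forget the labels of the gaps. -/
def forget (F : List (Bool × Bool)) : List (Bool × Unit) := F.map (fun e => (e.1, ()))

/-- The strands of the slices `E` have the same labels as those of the slices `E0`. -/
def Over (E : List (Slice Bool Bool)) (E0 : List (Slice Bool Unit)) : Prop :=
  E.map (fun s => forget (s.src true)) = E0.map (fun s => s.src ()) ∧
    E.map (fun s => forget (s.tgt true)) = E0.map (fun s => s.tgt ())

/-- The crossing `cr i b` of `u ++ cr i b :: v` is excluded: there is an embedded disk in `S_g` whose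
boundary passes through this crossing and does not meet the diagram elsewhere. The strands with the
label `true` in `E0` form the part `P` of the diagram in the disk, the others the part `Q` outside;
two neighbouring ends at the crossing belong to `P`, the two others to `Q`. The labellings of the
gaps which do not change at the strands of `Q` are the labellings of the components of the
complement of `P`; the condition says that the outer boundary circle, the holes and `Q` all lie in
the same of these components, that is to say, `P` lies in a disk without holes and disjoint from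
`Q`. -/
def Excluded (u : List Piece) (i : ℕ) (b : Bool) (v : List Piece) : Prop :=
  ∃ (Eu Ev : List (Slice Bool Unit)) (L R : List (Bool × Unit)) (s₁ s₂ t₁ t₂ : Bool),
    Labelling () (Eu ++ ⟨L, .cr b s₁ () s₂ t₁ () t₂ (), R⟩ :: Ev) (u ++ .cr i b :: v) ∧
    Eu.map Slice.plain = u ∧
    (∀ s ∈ Eu ++ Ev, s.p.Same) ∧
    ((s₁ = s₂ ∧ t₁ = t₂ ∧ s₁ ≠ t₁) ∨ (s₁ = t₁ ∧ s₂ = t₂ ∧ s₁ ≠ s₂)) ∧
    ∀ E : List (Slice Bool Bool), Labelling true E (u ++ .cr i b :: v) →
      Over E (Eu ++ ⟨L, .cr b s₁ () s₂ t₁ () t₂ (), R⟩ :: Ev) →
      (∀ s ∈ E, Flat true (s.src true) ∧ Flat true (s.tgt true)) →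
      (∀ h ∈ holeLabels true E, h = true) ∧
        ∀ s ∈ E, Near true (s.src true) ∧ Near true (s.tgt true)

/-! ### the skein module of `M_g` -/

/-- The local moves which generate the planar isotopies of diagrams in `S_g` (`zig1`, `zig2`, `sb`,
`sd`, `far`) and the second and third Reidemeister move (`r2`, `r3`), for a part of the diagram with
`n` strands at the top. They do not change the blackboard framing of the link in
`S_g × [-1, 1]`. -/
inductive RMove : ℕ → List Piece → List Piece → Prop
  | zig1 (n i : ℕ) (h : i < n) : RMove n [.birth i, .death (i + 1)] []
  | zig2 (n i : ℕ) (h : i < n) : RMove n [.birth (i + 1), .death i] []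
  | sb (n i : ℕ) (b : Bool) (h : i < n) :
      RMove n [.birth i, .cr (i + 1) b] [.birth (i + 1), .cr i (!b)]
  | sd (n i : ℕ) (b : Bool) (h : i + 3 ≤ n) :
      RMove n [.cr (i + 1) b, .death i] [.cr i (!b), .death (i + 1)]
  | r2 (n i : ℕ) (b : Bool) (h : i + 2 ≤ n) : RMove n [.cr i b, .cr i (!b)] []
  | r3 (n i : ℕ) (a b c : Bool) (hc : a = c → b = a) (h : i + 3 ≤ n) :
      RMove n [.cr i a, .cr (i + 1) b, .cr i c] [.cr (i + 1) c, .cr i b, .cr (i + 1) a]
  | far (n : ℕ) (p q : Piece) (hp : ¬ (p.isHole ∧ q.isHole)) (hpq : p.pos + p.src ≤ q.pos)
      (hn : q.pos + q.src ≤ n) :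
      RMove n [p, q.put (q.pos - p.src + p.tgt)] [q, p]

/-- The field `ℚ(A)`. -/
abbrev K : Type := RatFunc ℚ

/-- `A` if `b` is true, `A⁻¹` if `b` is false. -/
noncomputable def Ab (b : Bool) : K := if b then RatFunc.X else (RatFunc.X)⁻¹

/-- The free vector space over `ℚ(A)` with the set of words as basis; `cls D` is the basis
element `D`. -/
noncomputable def cls (D : List Piece) : List Piece →₀ K := Finsupp.single D 1

/-- The relations of the Kauffman bracket skein module of `M_g`.

`isotopy`: framed isotopies in the handlebody `S_g × [-1, 1]`. (The first Reidemeister move is not a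
framed isotopy; it multiplies by `-A^(±3)`, which is a consequence of `kauffman` and `circle`.)

`slide`: the slides over the 2-handles of `M_g = (S_g × [-1, 1]) ∪ (2-handles) ∪ ball`. The strand
next to the hole `i` on its right is moved around the sphere which consists of the disk
`a × [-1, 1]` (`a` is the arc from the hole to the right to the outer boundary circle) and the core
of the 2-handle: it leaves the hole to the right above (`b` true) or below (`b` false) the `k` other
strands, crosses the level of the hole on the far right and comes back below (above) these strands.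
Moving once around the sphere changes the blackboard framing by two full twists, and a full twist
multiplies by `-A^(±3)`; so there is the factor `A^(±6)`.

`kauffman`: a crossing is `A` times the one plus `A⁻¹` times the other smoothing.

`circle`: a trivial circle is `-A² - A⁻²`. -/
inductive SkeinRel : (List Piece →₀ K) → Prop
  | isotopy (n m : ℕ) (u l r v : List Piece) (hu : WF 0 u n) (hm : RMove n l r) (hl : WF n l m)
      (hr : WF n r m) (hv : WF m v 0) : SkeinRel (cls (u ++ l ++ v) - cls (u ++ r ++ v))
  | slide (i k : ℕ) (b : Bool) (u v : List Piece) (hu : WF 0 u (i + 1 + k))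
      (hv : WF (i + 1 + k) v 0) :
      SkeinRel (cls (u ++ [.hole i] ++ v) -
        (Ab b) ^ 6 • cls (u ++ (goRight b i k ++ [.hole i] ++ goLeft b i k) ++ v))
  | kauffman (i : ℕ) (b : Bool) (u v : List Piece) (h : WF 0 (u ++ .cr i b :: v) 0) :
      SkeinRel (cls (u ++ .cr i b :: v) -
        (Ab b • cls (u ++ v) + (Ab b)⁻¹ • cls (u ++ .death i :: .birth i :: v)))
  | circle (i : ℕ) (u v : List Piece) (h : WF 0 (u ++ .birth i :: .death i :: v) 0) :
      SkeinRel (cls (u ++ .birth i :: .death i :: v) -
        (-(RatFunc.X) ^ 2 - ((RatFunc.X)⁻¹) ^ 2 : K) • cls (u ++ v))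

/-- The subspace of the relations. -/
noncomputable def Rels : Submodule K (List Piece →₀ K) := Submodule.span K {x | SkeinRel x}

/-- The diagram in `S_g` without strands. -/
def empty (g : ℕ) : List Piece := List.replicate g (.hole 0)

/-- `c` is the bracket of the diagram `D`: in the skein module, `D` is `c` times the empty link. -/
def IsBracket (D : List Piece) (c : K) : Prop := cls D - c • cls (empty (holes D)) ∈ Rels

/-! ### breadth -/

/-- The breadth of a polynomial: the highest minus the lowest exponent. -/
noncomputable def brP (p : Polynomial ℚ) : ℤ := (p.natDegree : ℤ) - p.natTrailingDegree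

/-- The breadth of a rational function `f / h`: the breadth of `f` minus the breadth of `h`. -/
noncomputable def br (c : K) : ℤ := brP c.num - brP c.denom

/-! ### the hypotheses -/

/-- The hypotheses: `D` is a diagram in `S_g` (with at least one strand), connected, alternating, not
contained in a disk with fewer holes, the link is trivial in `H_1(M_g; Z/2)`, and there are no
excluded crossings. -/
structure Admissible (D : List Piece) : Prop where
  wf : WF 0 D 0
  strand : ∃ i, Piece.birth i ∈ D
  conn : Connected D
  alt : Alternating D
  fill : Filling D
  z2 : Z2Trivial D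
  noex : ∀ u i b v, D = u ++ .cr i b :: v → ¬ Excluded u i b v

end Pool.Agent.W617.KB
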