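import Pool.Agent.W617.KB.Mid

/-! External corners and disks in the smoothings. -/

set_option autoImplicit false
set_option linter.unusedSimpArgs false

namespace Pool.Agent.W617.KB

open Pool.Agent.H560R3.TG

variable {S G S' G' G'' : Type}

theorem crn_tr (φ : S → G → G → S') (ψ : G → G') (a : G) (s : Slice S G) (k : Fin 4) :
    crn (ψ a) (s.tr φ ψ a) k = ψ (crn a s k) := by
  obtain ⟨L, p, R⟩ := s
  cases p with
  | cr b s₁ y s₂ t₁ y' t₂ z =>
    simp only [crn, Slice.tr, Loc.tr, cur_trF]
    exact corner_map ψ _ _ _ _ k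
  | _ => rfl

theorem crn_zip (a : G) (a' : G') (s : Slice S G) (s' : Slice S' G') (h : s.plain = s'.plain)
    (k : Fin 4) : crn (a, a') (s.zip s') k = (crn a s k, crn a' s' k) := by
  have hl := same_shape h
  obtain ⟨L, p, R⟩ := s
  obtain ⟨L', p', R'⟩ := s'
  simp only at hl
  cases p <;> cases p' <;> simp only [Slice.plain, reduceCtorEq] at h
  case cr.cr =>
    simp only [crn, Slice.zip, Loc.zip, cur_zipF a a' L L' hl]
    exact corner_pair _ _ _ _ _ _ _ _ k
  all_goals rfl

/-- combination of two labellings of the regions -/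
def comb (ρ : G × G' → G'') (a : G) (a' : G') (E : List (Slice Unit G))
    (E' : List (Slice Unit G')) : List (Slice Unit G'') :=
  trE (fun (_ : Unit × Unit) (_ _ : G × G') => ()) ρ (a, a') (zipE E E')

theorem comb_lab {ρ : G × G' → G''} {a : G} {a' : G'} {E : List (Slice Unit G)}
    {E' : List (Slice Unit G')} {D : List Piece} (h : Labelling a E D) (h' : Labelling a' E' D) :
    Labelling (ρ (a, a')) (comb ρ a a' E E') D :=
  labelling_tr (fun _ _ _ => rfl) ρ (labelling_zip h h')

theorem comb_holes {ρ : G × G' → G''} {a : G} {a' : G'} {E : List (Slice Unit G)}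
    {E' : List (Slice Unit G')} {D : List Piece} (h : Labelling a E D) (h' : Labelling a' E' D) :
    holeLabels (ρ (a, a')) (comb ρ a a' E E') = ((holeLabels a E).zip (holeLabels a' E')).map ρ := by
  unfold comb
  rw [holeLabels_tr, holeLabels_zip a a' E E' (h.2.trans h'.2.symm)]

theorem comb_get {ρ : G × G' → G''} {a : G} {a' : G'} {E : List (Slice Unit G)}
    {E' : List (Slice Unit G')} {D : List Piece} (h : Labelling a E D) (h' : Labelling a' E' D)
    {n : ℕ} {s : Slice Unit G} {s' : Slice Unit G'} (hs : E[n]? = some s) (hs' : E'[n]? = some s') :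
    ∃ r, (comb ρ a a' E E')[n]? = some r ∧
      ∀ k, crn (ρ (a, a')) r k = ρ (crn a s k, crn a' s' k) := by
  have hp : s.plain = s'.plain := by
    have h1 : (E.map Slice.plain)[n]? = some s.plain := by rw [List.getElem?_map, hs]; rfl
    have h2 : (E'.map Slice.plain)[n]? = some s'.plain := by rw [List.getElem?_map, hs']; rfl
    rw [h.2] at h1
    rw [h'.2, h1] at h2
    simpa using h2
  refine ⟨Slice.tr (fun (_ : Unit × Unit) (_ _ : G × G') => ()) ρ (a, a') (s.zip s'), ?_, ?_⟩
  · unfold comb trE zipE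
    rw [List.getElem?_map, List.getElem?_zipWith, hs, hs']
    rfl
  · intro k
    rw [crn_tr, crn_zip a a' s s' hp]

theorem get_of_plain {a : G} {E : List (Slice S G)} {D : List Piece} (h : Labelling a E D) {n : ℕ}
    {p : Piece} (hn : D[n]? = some p) : ∃ s, E[n]? = some s ∧ s.plain = p := by
  have h1 : (E.map Slice.plain)[n]? = some p := by rw [h.2]; exact hn
  rw [List.getElem?_map] at h1
  rcases hE : E[n]? with _ | s
  · rw [hE] at h1; simp at h1
  · rw [hE] at h1
    exact ⟨s, rfl, by simpa using h1⟩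

/-! ### colours -/

/-- the colour of the corner `k` of a crossing `cr j b`: `0` is black, `1` white -/
def par (j : ℕ) (k : Fin 4) : ℕ := if k = 0 ∨ k = 2 then j % 2 else (j + 1) % 2

theorem std_crn {D : List Piece} {P : List (Slice Unit ℕ)} (hP : Labelling 0 P D)
    (hA : AllAdj R01 0 [] P) {n : ℕ} {s : Slice Unit ℕ} (hs : P[n]? = some s) {j : ℕ} {b : Bool}
    (hp : s.plain = .cr j b) (k : Fin 4) : crn 0 s k = par j k := by
  obtain ⟨L, R, ⟨⟩, y, ⟨⟩, ⟨⟩, y', ⟨⟩, z, rfl, hL⟩ := plain_cr s j b hp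
  have hmem := List.mem_of_getElem? hs
  obtain ⟨f1, f2, f3, f4, f5⟩ := cr_facts hP (allAdj_mono (fun _ _ => R01_nb) _ _ _ hA) hmem
  have hle : ∀ g ∈ labs 0 [] P, g ≤ 1 :=
    labs_of_allAdj (P := fun g => g ≤ 1) (fun x y h => by unfold R01 at h; omega) _
      (by omega) _ _ hA
  obtain ⟨m1, m2⟩ := src_mem_sts _ _ _ _ hP.1 _ hmem
  have m1' : L ++ ((), y) :: ((), z) :: R ∈ sts 0 [] P := by
    simpa [Slice.src, Loc.src] using m1
  have m2' : L ++ ((), y') :: ((), z) :: R ∈ sts 0 [] P := by
    simpa [Slice.tgt, Loc.tgt] using m2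
  have b1 := hle _ (cur_mem_labs _ _ _ _ _ m1')
  have b2 := hle _ (mem_labs_of_state _ _ _ _ m1' y (by simp))
  have b3 := hle _ (mem_labs_of_state _ _ _ _ m1' z (by simp))
  have b4 := hle _ (mem_labs_of_state _ _ _ _ m2' y' (by simp))
  rw [hL] at f1
  unfold Nb at f2 f3 f4 f5
  fin_cases k
  · show cur 0 L = par j 0
    simp [par]; omega
  · show y = par j 1
    simp [par]; omega
  · show z = par j 2
    simp [par]; omega
  · show y' = par j 3
    simp [par]; omega

theorem ext_black {D : List Piece} (hwf : WF 0 D 0) (hz : Z2Trivial D) {n j : ℕ} {b : Bool}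
    {k : Fin 4} (hn : D[n]? = some (.cr j b)) (h : ExtN D n k) : par j k = 0 := by
  obtain ⟨P, hP, hA⟩ := exists_std hwf
  have hh := std_holes hz hP hA
  obtain ⟨s, hs, hsp⟩ := get_of_plain hP hn
  have h1 := h (trE kp (fun g => decide (g = 0)) 0 P)
    (labelling_tr sym_kp (fun g => decide (g = 0)) hP) (by
      intro g hg
      have e := holeLabels_tr (kp : Unit → ℕ → ℕ → Unit) (fun g => decide (g = 0)) 0 P
      have e' : holeLabels true (trE (kp : Unit → ℕ → ℕ → Unit) (fun g => decide (g = 0)) 0 P) =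
        _ := e
      rw [e'] at hg
      obtain ⟨l, hl, rfl⟩ := List.mem_map.1 hg
      simp [hh l hl])
    (Slice.tr kp (fun g => decide (g = 0)) 0 s) (by
      simp only [trE, List.getElem?_map, hs]; rfl)
  have h2 := crn_tr (kp : Unit → ℕ → ℕ → Unit) (fun g => decide (g = 0)) 0 s k
  have h3 : crn true (Slice.tr (kp : Unit → ℕ → ℕ → Unit) (fun g => decide (g = 0)) 0 s) k =
      decide (crn 0 s k = 0) := h2
  rw [h3, std_crn hP hA hs hsp] at h1
  simpa using h1

theorem par_le (j : ℕ) (k : Fin 4) : par j k = 0 ∨ par j k = 1 := by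
  unfold par; split_ifs <;> omega

/-- `k` is one of the corners merged by the smoothing `w` -/
def Mk2 (w : Bool) (k : Fin 4) : Prop := if w then k = 1 ∨ k = 3 else k = 0 ∨ k = 2

theorem mrg_of {a : G} {X : Slice Unit G} {i : ℕ} {b : Bool} {w : Bool} (hX : X.plain = .cr i b)
    (h : ∀ k k', Mk2 w k → Mk2 w k' → crn a X k = crn a X k') :
    Mrg w (cur a X.L) X.p := by
  obtain ⟨L, R, s₁, y, s₂, t₁, y', t₂, z, rfl, hL⟩ := plain_cr X i b hX
  cases w with
  | true =>
    have := h 1 3 (by simp [Mk2]) (by simp [Mk2])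
    simpa [Mrg, crn, corner] using this
  | false =>
    have := h 0 2 (by simp [Mk2]) (by simp [Mk2])
    simpa [Mrg, crn, corner] using this

theorem fit_unit {X : Slice Unit G} {i : ℕ} {b : Bool} {w : Bool} (hX : X.plain = .cr i b) :
    Fit w X.p := by
  obtain ⟨L, R, s₁, y, s₂, t₁, y', t₂, z, rfl, hL⟩ := plain_cr X i b hX
  cases w <;> simp [Fit]

theorem len_of_plain {E : List (Slice S G)} {u : List Piece} (h : E.map Slice.plain = u) :
    E.length = u.length := by rw [← h]; simp

theorem ext_up {u v : List Piece} {i : ℕ} {b w : Bool} {n n' : ℕ} {k : Fin 4}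
    (hwf : WF 0 (u ++ .cr i b :: v) 0) (hc : Cor u.length (mid w i).length n n')
    (h : ExtN (u ++ .cr i b :: v) n' k) : ExtN (u ++ mid w i ++ v) n k := by
  intro E' hE' hh s hs
  obtain ⟨Eu, Em, Ev, X, rfl, hu, hm, hv, hX, hl, hho, -, -, -⟩ := up hwf hE'
  apply h _ hl (by rw [hho]; exact hh) s
  rw [← hc.get (len_of_plain hu) (len_of_plain hm)]
  exact hs

/-- the white labels replaced -/
theorem whiten {D : List Piece} (hwf : WF 0 D 0) (hz : Z2Trivial D) (a m : G)
    {f : List (Slice Unit G)} (hf : Labelling a f D) :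
    ∃ f2 : List (Slice Unit G), Labelling a f2 D ∧ holeLabels a f2 = holeLabels a f ∧
      ∀ (n : ℕ) (s s2 : Slice Unit G) (j : ℕ) (b : Bool), f[n]? = some s → f2[n]? = some s2 → D[n]? = some (Piece.cr j b) → ∀ k,
        crn a s2 k = if par j k = 0 then crn a s k else m := by
  obtain ⟨P, hP, hA⟩ := exists_std hwf
  have hh := std_holes hz hP hA
  set ρ : G × ℕ → G := fun q => if q.2 = 0 then q.1 else m with hρ
  refine ⟨comb ρ a 0 f P, comb_lab (ρ := ρ) hf hP, ?_, ?_⟩
  · have h1 := comb_holes (ρ := ρ) hf hP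
    have h1' : holeLabels a (comb ρ a 0 f P) = _ := h1
    rw [h1']
    have hlen : (holeLabels a f).length = (holeLabels 0 P).length := by
      rw [holeLabels_length, holeLabels_length, hf.2, hP.2]
    clear h1 h1'
    generalize holeLabels a f = l1 at hlen
    generalize holeLabels 0 P = l2 at hlen hh
    induction l1 generalizing l2 with
    | nil => rfl
    | cons x l1 ih =>
      rcases l2 with _ | ⟨c, l2⟩
      · simp at hlen
      · have hc : c = 0 := hh c (by simp)
        subst hc
        simp only [List.zip_cons_cons, List.map_cons, hρ, if_true]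
        rw [← hρ, ih l2 (by simpa using hlen) (fun c hc => hh c (by simp [hc]))]
  · intro n s s2 j b hs hs2 hn k
    obtain ⟨s', hs', hsp⟩ := get_of_plain hP hn
    obtain ⟨r, hr, hrk⟩ := comb_get (ρ := ρ) hf hP hs hs'
    rw [hs2] at hr
    obtain rfl : s2 = r := by simpa using hr
    have h2 : crn a s2 k = ρ (crn a s k, crn 0 s' k) := hrk k
    rw [h2, std_crn hP hA hs' hsp]

theorem ext_down {u v : List Piece} {i : ℕ} {b w : Bool} {n n' j : ℕ} {b' : Bool} {k : Fin 4}
    (hwf : WF 0 (u ++ .cr i b :: v) 0) (hz : Z2Trivial (u ++ .cr i b :: v))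
    (hc : Cor u.length (mid w i).length n n')
    (hm : ∀ k, Mk2 w k → ExtN (u ++ .cr i b :: v) u.length k ∨ par i k ≠ 0)
    (hn : (u ++ .cr i b :: v)[n']? = some (.cr j b')) (hk : par j k = 0)
    (h : ExtN (u ++ mid w i ++ v) n k) : ExtN (u ++ .cr i b :: v) n' k := by
  intro E hE hh s hs
  obtain ⟨E2, hE2, hh2, hcr⟩ := whiten hwf hz true true hE
  obtain ⟨X, hX, hXp⟩ := get_of_plain hE (n := u.length) (p := .cr i b) (by simp)
  obtain ⟨X2, hX2, hX2p⟩ := get_of_plain hE2 (n := u.length) (p := .cr i b) (by simp)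
  obtain ⟨Eu, Ev, rfl, hu, -, hv⟩ := split_idx (a := true) hE2.2 hX2
  have hmk : ∀ k, Mk2 w k → crn true X2 k = true := by
    intro k hk
    rw [hcr u.length X X2 i b hX hX2 (by simp) k]
    split_ifs with h0
    · rcases hm k hk with h1 | h1
      · exact h1 E hE hh X hX
      · exact absurd h0 h1
    · rfl
  obtain ⟨Em, hEm, hl, hho, -, -⟩ := down (w := w) hE2 hu (fit_unit hX2p)
    (mrg_of hX2p (fun k k' h1 h2 => by rw [hmk k h1, hmk k' h2]))
  obtain ⟨s2, hs2, hs2p⟩ := get_of_plain hE2 hn
  have h3 := h _ hl (by rw [hho, hh2]; exact hh) s2 (by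
    rw [hc.get (X := X2) (len_of_plain hu) (len_of_plain hEm)]; exact hs2)
  rw [hcr _ _ _ _ _ hs hs2 hn k, if_pos hk] at h3
  exact h3

theorem Z2_mid {u v : List Piece} {i : ℕ} {b w : Bool} (hz : Z2Trivial (u ++ .cr i b :: v)) :
    Z2Trivial (u ++ mid w i ++ v) := by
  intro j hj
  apply hz j
  simp only [List.mem_append] at hj
  rcases hj with (hj | hj) | hj
  · simp [hj]
  · cases w <;> simp [mid] at hj
  · simp [hj]

theorem get_cor {u v : List Piece} {i : ℕ} {b w : Bool} {n n' : ℕ}
    (hc : Cor u.length (mid w i).length n n') :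
    (u ++ mid w i ++ v)[n]? = (u ++ .cr i b :: v)[n']? := hc.get rfl rfl

/-- the external corners at the other crossings do not change -/
theorem ext_cor {u v : List Piece} {i : ℕ} {b w : Bool} {n n' : ℕ} {k : Fin 4}
    (hwf : WF 0 (u ++ .cr i b :: v) 0) (hz : Z2Trivial (u ++ .cr i b :: v))
    (hc : Cor u.length (mid w i).length n n')
    (hm : ∀ k, Mk2 w k → ExtN (u ++ .cr i b :: v) u.length k ∨ par i k ≠ 0)
    (hn : IsCr (u ++ .cr i b :: v) n') :
    ExtN (u ++ mid w i ++ v) n k ↔ ExtN (u ++ .cr i b :: v) n' k := by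
  obtain ⟨j, b', hn⟩ := hn
  constructor
  · intro h
    have hn' : (u ++ mid w i ++ v)[n]? = some (.cr j b') := by rw [get_cor (b := b) hc]; exact hn
    exact ext_down hwf hz hc hm hn (ext_black (WF_mid w hwf) (Z2_mid hz) hn' h) h
  · exact ext_up hwf hc

theorem count_mid {u v : List Piece} {i : ℕ} {b w : Bool}
    (hwf : WF 0 (u ++ .cr i b :: v) 0) (hz : Z2Trivial (u ++ .cr i b :: v))
    (hm : ∀ k, Mk2 w k → ExtN (u ++ .cr i b :: v) u.length k ∨ par i k ≠ 0)
    (ht : TwiceN (u ++ .cr i b :: v) u.length) :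
    count ExternalTwice (u ++ .cr i b :: v) = count ExternalTwice (u ++ mid w i ++ v) + 1 := by
  classical
  rw [count_eq, count_eq]
  set A := {n | IsCr (u ++ .cr i b :: v) n ∧ TwiceN (u ++ .cr i b :: v) n} with hA
  set B := {n | IsCr (u ++ mid w i ++ v) n ∧ TwiceN (u ++ mid w i ++ v) n} with hB
  have hfin : A.Finite := by
    apply (Set.finite_lt_nat (u ++ .cr i b :: v).length).subset
    rintro n ⟨⟨j, b', h1⟩, -⟩
    by_contra hc
    rw [List.getElem?_eq_none (by simpa using hc)] at h1
    simp at h1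
  have hmem : u.length ∈ A := ⟨⟨i, b, by simp⟩, ht⟩
  have key : ∀ n n', Cor u.length (mid w i).length n n' → (n ∈ B ↔ n' ∈ A) := by
    intro n n' hc
    have h1 : IsCr (u ++ mid w i ++ v) n ↔ IsCr (u ++ .cr i b :: v) n' := by
      unfold IsCr; rw [get_cor (b := b) hc]
    constructor
    · rintro ⟨h2, k, k', hk, h3, h4⟩
      have h5 := h1.1 h2
      exact ⟨h5, k, k', hk, (ext_cor hwf hz hc hm h5).1 h3, (ext_cor hwf hz hc hm h5).1 h4⟩
    · rintro ⟨h5, k, k', hk, h3, h4⟩
      exact ⟨h1.2 h5, k, k', hk, (ext_cor hwf hz hc hm h5).2 h3, (ext_cor hwf hz hc hm h5).2 h4⟩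
  have h2 : (A \ {u.length}).ncard = B.ncard := by
    symm
    have hex : ∀ n, n ∈ B → ∃ n', Cor u.length (mid w i).length n n' := fun n hn => cor_of_cr hn.1
    choose! g hg using hex
    apply Set.ncard_congr (fun n _ => g n)
    · intro n hn
      refine ⟨(key n _ (hg n hn)).1 hn, ?_⟩
      exact (hg n hn).ne
    · intro n m hn hm h
      have h3 := hg n hn
      have h4 := hg m hm
      rw [← h] at h4
      exact h3.inj h4
    · intro n' hn'
      obtain ⟨n, hn⟩ := cor_exists (μ := (mid w i).length) (show n' ≠ u.length from hn'.2)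
      have hnB := (key n n' hn).2 hn'.1
      exact ⟨n, hnB, (hg n hnB).inj2 hn⟩
  rw [← h2, Set.ncard_diff_singleton_add_one hmem hfin]

/-! ### disks -/

theorem away_append (a : Bool) (L M : List (Bool × Bool)) :
    Away a (L ++ M) ↔ Away a L ∧ Away (cur a L) M := by
  induction L generalizing a with
  | nil => simp [Away, cur]
  | cons p L ih =>
    simp only [List.cons_append, Away, cur, ih]
    tauto

theorem disk_up {u v : List Piece} {i : ℕ} {b w bp : Bool} {n n' : ℕ}
    (hwf : WF 0 (u ++ .cr i b :: v) 0) (hc : Cor u.length (mid w i).length n n')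
    (hext : ∀ k, Mk2 bp k → ExtN (u ++ .cr i b :: v) u.length k)
    (h : DiskN (u ++ mid w i ++ v) n) : DiskN (u ++ .cr i b :: v) n' := by
  obtain ⟨E', hE', hh, haw, hsame, s0, hs0, htwo⟩ := h
  obtain ⟨Eu, Em, Ev, X, rfl, hu, hm, hv, hX, hl, hho, hst, -, -⟩ := up hwf hE'
  obtain ⟨hXa, hXb⟩ := hst (Away true) haw
  have hget := hc.get (X := X) (Ev := Ev) (len_of_plain hu) (len_of_plain hm)
  have hXs : X.p.Same := by
    have hlg := labelling_tr (S' := Unit) (φ := fun (_ : Bool) (_ _ : Bool) => ())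
      (fun _ _ _ => rfl) (id : Bool → Bool) hl
    have hhg := holeLabels_tr (fun (_ : Bool) (_ _ : Bool) => ()) (id : Bool → Bool) true
      (Eu ++ X :: Ev)
    have hcor : ∀ k, Mk2 bp k → crn true X k = true := by
      intro k hk
      have h1 := hext k hk _ hlg (by
        intro g hg
        have hhg' : holeLabels true (trE (fun (_ : Bool) (_ _ : Bool) => ()) (id : Bool → Bool)
          true (Eu ++ X :: Ev)) = _ := hhg
        have hg' : g ∈ holeLabels true (trE (fun (_ : Bool) (_ _ : Bool) => ())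
          (id : Bool → Bool) true (Eu ++ X :: Ev)) := hg
        rw [hhg', List.map_id, hho] at hg'
        exact hh g hg') (Slice.tr (fun (_ : Bool) (_ _ : Bool) => ()) (id : Bool → Bool) true X) (by
        simp only [trE, List.getElem?_map]
        rw [← len_of_plain hu]
        simp)
      have h2 := crn_tr (fun (_ : Bool) (_ _ : Bool) => ()) (id : Bool → Bool) true X k
      have h2' : crn true (Slice.tr (fun (_ : Bool) (_ _ : Bool) => ()) (id : Bool → Bool) true X)
        k = crn true X k := h2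
      rw [← h2']; exact h1
    obtain ⟨L, R, s₁, y, s₂, t₁, y', t₂, z, rfl, hL⟩ := plain_cr X i b hX
    have hXa' : Away true (L ++ (s₁, y) :: (s₂, z) :: R) := by
      simpa [Slice.src, Loc.src] using hXa
    have hXb' : Away true (L ++ (t₁, y') :: (t₂, z) :: R) := by
      simpa [Slice.tgt, Loc.tgt] using hXb
    rw [away_append] at hXa' hXb'
    obtain ⟨-, c1, c2, -⟩ := hXa'
    obtain ⟨-, c3, c4, -⟩ := hXb'
    have hall : s₁ = false ∧ s₂ = false ∧ t₁ = false ∧ t₂ = false := by
      cases bp with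
      | true =>
        have k1 : y = true := by simpa [crn, corner] using hcor 1 (by simp [Mk2])
        have k3 : y' = true := by simpa [crn, corner] using hcor 3 (by simp [Mk2])
        subst k1; subst k3
        refine ⟨?_, ?_, ?_, ?_⟩
        · by_contra hc; exact absurd (c1 (by simpa using hc)).2 (by simp)
        · by_contra hc; exact absurd (c2 (by simpa using hc)).1 (by simp)
        · by_contra hc; exact absurd (c3 (by simpa using hc)).2 (by simp)
        · by_contra hc; exact absurd (c4 (by simpa using hc)).1 (by simp)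
      | false =>
        have k0 : cur true L = true := by simpa [crn, corner] using hcor 0 (by simp [Mk2])
        have k2 : z = true := by simpa [crn, corner] using hcor 2 (by simp [Mk2])
        subst k2
        rw [k0] at c1 c3
        refine ⟨?_, ?_, ?_, ?_⟩
        · by_contra hc; exact absurd (c1 (by simpa using hc)).1 (by simp)
        · by_contra hc; exact absurd (c2 (by simpa using hc)).2 (by simp)
        · by_contra hc; exact absurd (c3 (by simpa using hc)).1 (by simp)
        · by_contra hc; exact absurd (c4 (by simpa using hc)).2 (by simp)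
    obtain ⟨rfl, rfl, rfl, rfl⟩ := hall
    exact ⟨rfl, rfl, rfl⟩
  refine ⟨Eu ++ X :: Ev, hl, by rw [hho]; exact hh, ?_, ?_, s0, by rw [← hget]; exact hs0, htwo⟩
  · intro s hs
    simp only [List.mem_append, List.mem_cons] at hs
    rcases hs with hs | rfl | hs
    · exact haw s (by simp [hs])
    · exact ⟨hXa, hXb⟩
    · exact haw s (by simp [hs])
  · intro m s hmn hs
    by_cases hmN : m = u.length
    · rw [hmN, ← len_of_plain hu] at hs
      simp at hs
      rw [← hs]; exact hXs
    · obtain ⟨m', hm'⟩ := cor_exists (μ := (mid w i).length) hmN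
      have h1 := hm'.get (X := X) (Ev := Ev) (len_of_plain hu) (len_of_plain hm)
      refine hsame m' s ?_ (by rw [h1]; exact hs)
      rintro rfl
      exact hmn (hm'.inj2 hc)

end Pool.Agent.W617.KB
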