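import Pool.Agent.W617.KB.Base
import Pool.Agent.W617.KB.Pres

/-! The number of the external regions of the smoothings. -/

set_option autoImplicit false
set_option linter.unusedSimpArgs false

namespace Pool.Agent.W617.KB

open Pool.Agent.H560R3.TG

variable {S G S' G' G'' : Type}

theorem Ext_white {u v : List Piece} {i : ℕ} {b w : Bool} {e : ℕ}
    (hwf : WF 0 (u ++ .cr i b :: v) 0) (hz : Z2Trivial (u ++ .cr i b :: v))
    (hw : ∀ k, Mk2 w k → par i k ≠ 0) (h : Ext (u ++ .cr i b :: v) e) :
    Ext (u ++ mid w i ++ v) e := by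
  constructor
  · obtain ⟨l, f, hf, he⟩ := h.1
    obtain ⟨f2, hf2, hh2, hcr⟩ := whiten hwf hz l 0 hf
    obtain ⟨X, hX, hXp⟩ := get_of_plain hf (n := u.length) (p := .cr i b) (by simp)
    obtain ⟨X2, hX2, hX2p⟩ := get_of_plain hf2 (n := u.length) (p := .cr i b) (by simp)
    obtain ⟨Eu, Ev, rfl, hu, -, hv⟩ := split_idx (a := l) hf2.2 hX2
    have hmk : ∀ k, Mk2 w k → crn l X2 k = 0 := by
      intro k hk
      rw [hcr u.length X X2 i b hX hX2 (by simp) k, if_neg (hw k hk)]
    obtain ⟨Em, hEm, hl, hho, -, -⟩ := down (w := w) hf2 hu (fit_unit hX2p)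
      (mrg_of hX2p (fun k k' h1 h2 => by rw [hmk k h1, hmk k' h2]))
    refine ⟨l, _, hl, ?_⟩
    unfold cardL at he ⊢
    rw [hho, hh2]; exact he
  · intro l f' hf'
    obtain ⟨Eu, Em, Ev, X, rfl, hu, hm, hv, hX, hl, hho, -, -, -⟩ := up hwf hf'
    have := h.2 l _ hl
    unfold cardL at this ⊢
    rw [← hho]; exact this

/-- the label of an external corner is the label of the outer region or of a hole -/
theorem ext_lab {D : List Piece} {n : ℕ} {k : Fin 4} (h : ExtN D n k) {a : ℕ}
    {F : List (Slice Unit ℕ)} (hF : Labelling a F D) {s : Slice Unit ℕ} (hs : F[n]? = some s) :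
    crn a s k ∈ insert a (holeLabels a F).toFinset := by
  by_contra hcon
  rw [Finset.mem_insert, not_or, List.mem_toFinset] at hcon
  obtain ⟨h1, h2⟩ := hcon
  set c := crn a s k with hc
  have ha : decide (a ≠ c) = true := by simpa using fun h => h1 h.symm
  have h3 := labelling_tr (S' := Unit) sym_kp (fun g => decide (g ≠ c)) hF
  have h4 := holeLabels_tr (kp : Unit → ℕ → ℕ → Unit) (fun g => decide (g ≠ c)) a F
  have h5 := crn_tr (kp : Unit → ℕ → ℕ → Unit) (fun g => decide (g ≠ c)) a s k
  simp only [ha] at h3 h4 h5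
  have h6 := h _ h3 (by
    intro g hg
    rw [h4] at hg
    obtain ⟨l, hl, rfl⟩ := List.mem_map.1 hg
    simp only [ne_eq, decide_not, Bool.not_eq_true', decide_eq_false_iff_not]
    rintro rfl
    exact h2 hl) _ (by simp only [trE, List.getElem?_map, hs]; rfl)
  rw [h5] at h6
  simp [hc] at h6

/-! ### colouring by the parity of the number of marked strands -/

def tog : Bool → List (Bool × Unit) → List (Bool × Bool)
  | _, [] => []
  | x, (s, _) :: F => (s, xor x s) :: tog (xor x s) F

/-- the parity on the right of the piece -/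
def Loc.rgt (x : Bool) : Loc Bool Unit → Bool
  | .cr _ s₁ _ s₂ _ _ _ _ => xor (xor x s₁) s₂
  | _ => x

def Loc.tog (x : Bool) : Loc Bool Unit → Loc Bool Bool
  | .birth s _ => .birth s (xor x s)
  | .death s _ => .death s (xor x s)
  | .cr b s₁ _ s₂ t₁ _ t₂ _ =>
    .cr b s₁ (xor x s₁) s₂ t₁ (xor x t₁) t₂ (xor (xor x s₁) s₂)
  | .hole => .hole

/-- the number of marked ends at the top and at the bottom has the same parity -/
def Loc.EvenAt : Loc Bool Unit → Prop
  | .cr _ s₁ _ s₂ t₁ _ t₂ _ => xor s₁ s₂ = xor t₁ t₂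
  | _ => True

def stog (a : Bool) (s : Slice Bool Unit) : Slice Bool Bool :=
  ⟨tog a s.L, Loc.tog (cur a (tog a s.L)) s.p, tog (Loc.rgt (cur a (tog a s.L)) s.p) s.R⟩

theorem tog_append (a : Bool) (F K : List (Bool × Unit)) :
    tog a (F ++ K) = tog a F ++ tog (cur a (tog a F)) K := by
  induction F generalizing a with
  | nil => rfl
  | cons p F ih => simp only [List.cons_append, tog]; rw [ih]; rfl

theorem tog_length (a : Bool) (F : List (Bool × Unit)) : (tog a F).length = F.length := by
  induction F generalizing a with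
  | nil => rfl
  | cons p F ih => simp only [tog, List.length_cons, ih]

theorem xx (x s : Bool) : xor (xor x s) s = x := by cases x <;> cases s <;> rfl

theorem stog_src (a : Bool) (s : Slice Bool Unit) : (stog a s).src a = tog a (s.src ()) := by
  obtain ⟨L, p, R⟩ := s
  cases p with
  | death u y => simp [stog, Slice.src, Loc.src, Loc.tog, Loc.rgt, tog_append, tog, cur]
  | birth u y => simp [stog, Slice.src, Loc.src, Loc.tog, Loc.rgt, tog_append, tog, cur]
  | hole => simp [stog, Slice.src, Loc.src, Loc.tog, Loc.rgt, tog_append, tog, cur]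
  | cr b s₁ y s₂ t₁ y' t₂ z =>
    simp [stog, Slice.src, Loc.src, Loc.tog, Loc.rgt, tog_append, tog, cur]

theorem stog_tgt (a : Bool) (s : Slice Bool Unit) (h : Loc.EvenAt s.p) :
    (stog a s).tgt a = tog a (s.tgt ()) := by
  obtain ⟨L, p, R⟩ := s
  cases p with
  | death u y => simp [stog, Slice.tgt, Loc.tgt, Loc.tog, Loc.rgt, tog_append, tog, cur]
  | birth u y => simp [stog, Slice.tgt, Loc.tgt, Loc.tog, Loc.rgt, tog_append, tog, cur]
  | hole => simp [stog, Slice.tgt, Loc.tgt, Loc.tog, Loc.rgt, tog_append, tog, cur]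
  | cr b s₁ y s₂ t₁ y' t₂ z =>
    have h : xor s₁ s₂ = xor t₁ t₂ := h
    have h2 : ∀ x : Bool, xor (xor x s₁) s₂ = xor (xor x t₁) t₂ := by
      intro x; rw [Bool.xor_assoc, h, ← Bool.xor_assoc]
    simp only [stog, Slice.tgt, Loc.tgt, Loc.tog, Loc.rgt, tog_append, tog, cur, List.append_assoc,
      List.cons_append, List.nil_append, h2]

theorem stog_plain (a : Bool) (s : Slice Bool Unit) : (stog a s).plain = s.plain := by
  obtain ⟨L, p, R⟩ := s
  cases p <;> simp [stog, Slice.plain, Loc.tog, tog_length]

theorem path_tog (a : Bool) (F F' : List (Bool × Unit)) (E : List (Slice Bool Unit))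
    (h : Path () F E F') (he : ∀ s ∈ E, Loc.EvenAt s.p) :
    Path a (tog a F) (E.map (stog a)) (tog a F') := by
  induction E generalizing F with
  | nil =>
    have h : F = F' := h
    subst h; rfl
  | cons s E ih =>
    obtain ⟨h1, h2⟩ := h
    refine ⟨?_, ?_⟩
    · rw [stog_src]
      show tog a (s.src ()) = _
      rw [h1]
    · rw [stog_tgt a s (he s (by simp))]
      exact ih _ h2 (fun r hr => he r (by simp [hr]))

theorem lab_tog {E : List (Slice Bool Unit)} {D : List Piece} (h : Labelling () E D)
    (he : ∀ s ∈ E, Loc.EvenAt s.p) : Labelling false (E.map (stog false)) D := by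
  refine ⟨path_tog false [] [] E h.1 he, ?_⟩
  rw [List.map_map, ← h.2]
  apply List.map_congr_left
  intro s _
  exact stog_plain false s

theorem mem_zip_left {α β : Type} {l1 : List α} {l2 : List β} (h : l1.length = l2.length) {x : α}
    (hx : x ∈ l1) : ∃ c, (x, c) ∈ l1.zip l2 := by
  obtain ⟨n, hn, rfl⟩ := List.mem_iff_getElem.1 hx
  refine ⟨l2[n]'(by omega), ?_⟩
  rw [List.mem_iff_getElem]
  exact ⟨n, by simp; omega, by simp⟩

theorem even_of_same {E : List (Slice Bool Unit)} {s : Slice Bool Unit} (h : s.p.Same) :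
    Loc.EvenAt s.p := by
  obtain ⟨L, p, R⟩ := s
  cases p with
  | cr b s₁ y s₂ t₁ y' t₂ z =>
    obtain ⟨h1, h2, h3⟩ := h
    subst h1
    show xor s₁ s₁ = xor t₁ t₂
    rw [← h2, ← h3]
  | _ => trivial

theorem Ext_black {u v : List Piece} {i : ℕ} {b w : Bool} {e : ℕ}
    (hwf : WF 0 (u ++ .cr i b :: v) 0) (hD : Connected (u ++ .cr i b :: v))
    (hext : ∀ k, Mk2 w k → ExtN (u ++ .cr i b :: v) u.length k)
    (hdis : ¬ Connected (u ++ mid (!w) i ++ v)) (h : Ext (u ++ .cr i b :: v) e) :
    ∃ e', e = e' + 1 ∧ Ext (u ++ mid w i ++ v) e' := by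
  classical
  -- the two black corners
  obtain ⟨k1, k2, hk1, hk2, hkk⟩ : ∃ k1 k2 : Fin 4, Mk2 w k1 ∧ Mk2 w k2 ∧
      (∀ k, Mk2 w k → k = k1 ∨ k = k2) := by
    cases w
    · exact ⟨0, 2, by simp [Mk2], by simp [Mk2], by simp [Mk2]⟩
    · exact ⟨1, 3, by simp [Mk2], by simp [Mk2], by simp [Mk2]⟩
  have upper : ∀ (l : ℕ) (f' : List (Slice Unit ℕ)), Labelling l f' (u ++ mid w i ++ v) →
      cardL l f' + 1 ≤ e := by
    intro l f' hf'
    obtain ⟨Eu, Em, Ev, X, rfl, hu, hm, hv, hXp, hl, hho, -, -, hMrg, -⟩ := up hwf hf'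
    -- the marking of the strands
    unfold Connected at hdis
    push Not at hdis
    obtain ⟨T', hT', hTs, hTn⟩ := hdis
    obtain ⟨Tu, Tm, Tv, Y, rfl, hTu, hTm, hTv, hYp, hTl, -, -, hFit, -, hTe⟩ :=
      up (b := b) hwf hT'
    have hYs : ¬ Y.p.Same := by
      intro hY
      obtain ⟨c, hc⟩ := hD _ hTl (by
        intro s hs
        simp only [List.mem_append, List.mem_cons] at hs
        rcases hs with hs | rfl | hs
        · exact hTs s (by simp [hs])
        · exact hY
        · exact hTs s (by simp [hs]))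
      obtain ⟨s, hs, q, hq, hne⟩ := hTn c
      apply hne
      simp only [List.mem_append] at hs
      rcases hs with (hs | hs) | hs
      · exact hc s (by simp [hs]) q hq
      · exact hc Y (by simp) q (hTe s hs q hq)
      · exact hc s (by simp [hs]) q hq
    have hev : ∀ s ∈ Tu ++ Y :: Tv, Loc.EvenAt s.p := by
      intro s hs
      simp only [List.mem_append, List.mem_cons] at hs
      rcases hs with hs | rfl | hs
      · exact even_of_same (E := []) (hTs s (by simp [hs]))
      · obtain ⟨L, R, s₁, y, s₂, t₁, y', t₂, z, rfl, hL⟩ := plain_cr s i b hYp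
        cases w with
        | true =>
          obtain ⟨h1, h2⟩ : s₁ = s₂ ∧ t₁ = t₂ := by simpa [Fit] using hFit
          show xor s₁ s₂ = xor t₁ t₂
          rw [h1, h2]; cases s₂ <;> cases t₂ <;> rfl
        | false =>
          obtain ⟨h1, h2⟩ : s₁ = t₁ ∧ s₂ = t₂ := by simpa [Fit] using hFit
          show xor s₁ s₂ = xor t₁ t₂
          rw [h1, h2]
      · exact even_of_same (E := []) (hTs s (by simp [hs]))
    have hg := lab_tog hTl hev
    have hg2 := labelling_tr (S' := Unit) (φ := fun (_ : Bool) (_ _ : Bool) => ())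
      (fun _ _ _ => rfl) (id : Bool → Bool) hg
    set g : List (Slice Unit Bool) := trE (fun (_ : Bool) (_ _ : Bool) => ()) (id : Bool → Bool)
      false ((Tu ++ Y :: Tv).map (stog false)) with hgdef
    have hg2' : Labelling false g (u ++ .cr i b :: v) := hg2
    set Yg := Slice.tr (fun (_ : Bool) (_ _ : Bool) => ()) (id : Bool → Bool) false
      (stog false Y) with hYg
    have hgget : g[u.length]? = some Yg := by
      rw [hgdef, ← len_of_plain hTu]
      simp [trE, hYg]
    have hgcr : ∀ k, crn false Yg k = crn false (stog false Y) k := fun k =>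
      crn_tr (fun (_ : Bool) (_ _ : Bool) => ()) (id : Bool → Bool) false (stog false Y) k
    have hg12 : crn false Yg k1 ≠ crn false Yg k2 := by
      rw [hgcr, hgcr]
      obtain ⟨L, R, s₁, y, s₂, t₁, y', t₂, z, rfl, hL⟩ := plain_cr Y i b hYp
      cases w with
      | true =>
        obtain ⟨h1, h2⟩ : s₁ = s₂ ∧ t₁ = t₂ := by simpa [Fit] using hFit
        subst h1; subst h2
        have h3 : s₁ ≠ t₁ := fun h3 => hYs ⟨rfl, h3, h3⟩
        have h4 : xor (cur false (tog false L)) s₁ ≠ xor (cur false (tog false L)) t₁ := by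
          intro h5
          apply h3
          have := congrArg (fun q => xor (cur false (tog false L)) q) h5
          simpa using this
        have hc1 : ∀ k, (k = 1 ∨ k = 3) → ∀ k', (k' = 1 ∨ k' = 3) → k ≠ k' →
            crn false (stog false ⟨L, .cr b s₁ y s₁ t₁ y' t₁ z, R⟩) k ≠
            crn false (stog false ⟨L, .cr b s₁ y s₁ t₁ y' t₁ z, R⟩) k' := by
          rintro k (rfl | rfl) k' (rfl | rfl) hne
          · exact absurd rfl hne
          · simpa [crn, stog, Loc.tog, corner] using h4
          · simpa [crn, stog, Loc.tog, corner] using h4.symm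
          · exact absurd rfl hne
        have e1 : k1 = 1 ∨ k1 = 3 := by simpa [Mk2] using hk1
        have e2 : k2 = 1 ∨ k2 = 3 := by simpa [Mk2] using hk2
        apply hc1 k1 e1 k2 e2
        rintro rfl
        have q1 := hkk 1 (by simp [Mk2])
        have q3 := hkk 3 (by simp [Mk2])
        rcases q1 with q1 | q1 <;> rcases q3 with q3 | q3 <;> rw [← q1] at q3 <;>
          exact absurd q3 (by decide)
      | false =>
        obtain ⟨h1, h2⟩ : s₁ = t₁ ∧ s₂ = t₂ := by simpa [Fit] using hFit
        subst h1; subst h2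
        have h3 : s₁ ≠ s₂ := fun h3 => hYs ⟨h3, rfl, h3⟩
        have h4 : cur false (tog false L) ≠ xor (xor (cur false (tog false L)) s₁) s₂ := by
          generalize cur false (tog false L) = x
          cases x <;> cases s₁ <;> cases s₂ <;> simp_all
        have hc1 : ∀ k, (k = 0 ∨ k = 2) → ∀ k', (k' = 0 ∨ k' = 2) → k ≠ k' →
            crn false (stog false ⟨L, .cr b s₁ y s₂ s₁ y' s₂ z, R⟩) k ≠
            crn false (stog false ⟨L, .cr b s₁ y s₂ s₁ y' s₂ z, R⟩) k' := by
          rintro k (rfl | rfl) k' (rfl | rfl) hne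
          · exact absurd rfl hne
          · simpa [crn, stog, Loc.tog, corner] using h4
          · simpa [crn, stog, Loc.tog, corner] using h4.symm
          · exact absurd rfl hne
        have e1 : k1 = 0 ∨ k1 = 2 := by simpa [Mk2] using hk1
        have e2 : k2 = 0 ∨ k2 = 2 := by simpa [Mk2] using hk2
        apply hc1 k1 e1 k2 e2
        rintro rfl
        have q1 := hkk 0 (by simp [Mk2])
        have q3 := hkk 2 (by simp [Mk2])
        rcases q1 with q1 | q1 <;> rcases q3 with q3 | q3 <;> rw [← q1] at q3 <;>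
          exact absurd q3 (by decide)
    -- the refined labelling
    have hfget : (Eu ++ X :: Ev)[u.length]? = some X := by
      rw [← len_of_plain hu]; simp
    have hX12 : crn l X k1 = crn l X k2 := by
      obtain ⟨L, R, s₁, y, s₂, t₁, y', t₂, z, rfl, hL⟩ := plain_cr X i b hXp
      cases w with
      | true =>
        have e0 : y = y' := by simpa [Mrg] using hMrg
        have e1 : k1 = 1 ∨ k1 = 3 := by simpa [Mk2] using hk1
        have e2 : k2 = 1 ∨ k2 = 3 := by simpa [Mk2] using hk2
        rcases e1 with rfl | rfl <;> rcases e2 with rfl | rfl <;> simp [crn, corner, e0]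
      | false =>
        have e0 : cur l L = z := by simpa [Mrg] using hMrg
        have e1 : k1 = 0 ∨ k1 = 2 := by simpa [Mk2] using hk1
        have e2 : k2 = 0 ∨ k2 = 2 := by simpa [Mk2] using hk2
        rcases e1 with rfl | rfl <;> rcases e2 with rfl | rfl <;> simp [crn, corner, e0]
    set r := crn l X k1 with hr
    set Sf := insert l (holeLabels l (Eu ++ X :: Ev)).toFinset with hSf
    obtain ⟨fr, hfr⟩ := Infinite.exists_notMem_finset Sf
    set g1 := crn false Yg k1 with hg1
    set ρ : ℕ × Bool → ℕ := fun q => if q.1 = r ∧ q.2 = g1 then fr else q.1 with hρ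
    have hcl := comb_lab (ρ := ρ) hl hg2'
    have hch := comb_holes (ρ := ρ) hl hg2'
    obtain ⟨Z, hZ, hZc⟩ := comb_get (ρ := ρ) hl hg2' hfget hgget
    set F := comb ρ l false (Eu ++ X :: Ev) g with hF
    have hrS : r ∈ Sf := ext_lab (hext k1 hk1) hl hfget
    have hrfr : r ≠ fr := fun h => hfr (h ▸ hrS)
    have m1 : fr ∈ insert (ρ (l, false)) (holeLabels (ρ (l, false)) F).toFinset := by
      have := ext_lab (hext k1 hk1) hcl hZ
      rw [hZc k1] at this
      have e : ρ (crn l X k1, crn false Yg k1) = fr := by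
        simp only [hρ]; rw [if_pos ⟨hr.symm, hg1.symm⟩]
      rw [e] at this
      exact this
    have m2 : r ∈ insert (ρ (l, false)) (holeLabels (ρ (l, false)) F).toFinset := by
      have := ext_lab (hext k2 hk2) hcl hZ
      rw [hZc k2] at this
      have e : ρ (crn l X k2, crn false Yg k2) = r := by
        simp only [hρ]
        rw [if_neg (fun h => hg12 h.2.symm), ← hX12]
      rw [e] at this
      exact this
    have hsub : insert fr Sf ⊆ insert (ρ (l, false)) (holeLabels (ρ (l, false)) F).toFinset := by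
      intro q hq
      rcases Finset.mem_insert.1 hq with rfl | hq
      · exact m1
      · by_cases hqr : q = r
        · rw [hqr]; exact m2
        · have hρq : ∀ c, ρ (q, c) = q := by
            intro c; simp only [hρ]; rw [if_neg (fun h => hqr h.1)]
          rw [hSf, Finset.mem_insert, List.mem_toFinset] at hq
          rw [Finset.mem_insert, List.mem_toFinset]
          rcases hq with hq | hq
          · left; rw [← hq, hρq]
          · right
            have hlen : (holeLabels l (Eu ++ X :: Ev)).length = (holeLabels false g).length := by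
              rw [holeLabels_length, holeLabels_length, hl.2, hg2'.2]
            obtain ⟨c, hc⟩ := mem_zip_left hlen hq
            rw [hch]
            exact List.mem_map.2 ⟨_, hc, hρq c⟩
    have hcard := Finset.card_le_card hsub
    rw [Finset.card_insert_of_notMem hfr] at hcard
    have h7 := h.2 _ _ hcl
    unfold cardL at h7 ⊢
    have h8 : (insert l (holeLabels l (Eu ++ Em ++ Ev)).toFinset).card = Sf.card := by
      rw [hSf, hho]
    rw [h8]
    exact hcard.trans h7
  -- a labelling with many labels
  obtain ⟨l, f, hf, he⟩ := h.1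
  obtain ⟨a', fu, L, y, y', z, R, fv, h1, h2, h3, h4⟩ := merge u v i b k1 k2 e l f hf he
  have h5 : e ≤ cardL a' (fu ++ ⟨L, .cr b () y () () y' () z, R⟩ :: fv) + 1 := by
    rcases h4 with h4 | h4 <;> omega
  obtain ⟨Em, hEm, hl, hho, -, -⟩ := down (w := w) h1 h2 (by cases w <;> simp [Fit]) (by
    cases w with
    | true =>
      have e1 : k1 = 1 ∨ k1 = 3 := by simpa [Mk2] using hk1
      have e2 : k2 = 1 ∨ k2 = 3 := by simpa [Mk2] using hk2
      have q1 := hkk 1 (by simp [Mk2])
      have q3 := hkk 3 (by simp [Mk2])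
      have : y = y' := by
        rcases e1 with rfl | rfl <;> rcases e2 with rfl | rfl
        · exact absurd (q3.elim id id) (by decide)
        · simpa [corner] using h3
        · simpa [corner] using h3.symm
        · exact absurd (q1.elim id id) (by decide)
      simpa [Mrg] using this
    | false =>
      have e1 : k1 = 0 ∨ k1 = 2 := by simpa [Mk2] using hk1
      have e2 : k2 = 0 ∨ k2 = 2 := by simpa [Mk2] using hk2
      have q1 := hkk 0 (by simp [Mk2])
      have q3 := hkk 2 (by simp [Mk2])
      have : cur a' L = z := by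
        rcases e1 with rfl | rfl <;> rcases e2 with rfl | rfl
        · exact absurd (q3.elim id id) (by decide)
        · simpa [corner] using h3
        · simpa [corner] using h3.symm
        · exact absurd (q1.elim id id) (by decide)
      simpa [Mrg] using this)
  have h6 := upper a' _ hl
  have h7 : cardL a' (fu ++ Em ++ fv) =
      cardL a' (fu ++ ⟨L, .cr b () y () () y' () z, R⟩ :: fv) := by
    unfold cardL; rw [hho]
  refine ⟨e - 1, by omega, ⟨a', _, hl, by omega⟩, ?_⟩
  intro l' f' hf'
  have := upper l' f' hf'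
  omega

end Pool.Agent.W617.KB
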