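import Pool.Agent.H560R3.TG.Main
import Pool.Agent.W617.KB.Stmts

/-! Evaluation of the bracket at `A = i t`. -/

set_option autoImplicit false
set_option linter.unusedSimpArgs false

namespace Pool.Agent.W617.KB

open Pool.Agent.H560R3.TG

/-! ### the evaluation homomorphism -/

theorem trans_I {t : ℝ} (ht : Transcendental ℚ t) :
    Transcendental ℚ (Complex.I * (t : ℂ)) := by
  intro h
  apply ht
  have hI : IsAlgebraic ℚ Complex.I := by
    refine ⟨Polynomial.X ^ 2 + 1, ?_, by simp⟩
    intro h0
    have := congrArg (Polynomial.eval 0) h0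
    simp at this
  have h2 : IsAlgebraic ℚ ((t : ℝ) : ℂ) := by
    have h3 := (hI.neg).mul h
    have e : -Complex.I * (Complex.I * (t : ℂ)) = (t : ℂ) := by
      rw [← mul_assoc, neg_mul, Complex.I_mul_I, neg_neg, one_mul]
    rwa [e] at h3
  exact (isAlgebraic_algebraMap_iff (R := ℚ) (S := ℝ) (A := ℂ)
    (algebraMap ℝ ℂ).injective).1 h2

theorem ev_exists {z : ℂ} (hz : Transcendental ℚ z) : ∃ ev : K →+* ℂ, ev RatFunc.X = z := by
  have hinj : Function.Injective (Polynomial.aeval (R := ℚ) z).toRingHom :=
    transcendental_iff_injective.1 hz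
  refine ⟨IsFractionRing.lift (A := Polynomial ℚ) (K := RatFunc ℚ) hinj, ?_⟩
  have := IsFractionRing.lift_algebraMap (A := Polynomial ℚ) (K := RatFunc ℚ) hinj Polynomial.X
  rw [RatFunc.algebraMap_X] at this
  rw [this]
  simp

/-! ### the functional -/

/-- number of positive minus number of negative crossings -/
def sig : List Piece → ℤ
  | [] => 0
  | .cr _ b :: w => (if b then 1 else -1) + sig w
  | _ :: w => sig w

theorem sig_append (u v : List Piece) : sig (u ++ v) = sig u + sig v := by
  induction u with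
  | nil => simp [sig]
  | cons p u ih => cases p <;> simp only [List.cons_append, sig, ih] <;> ring

noncomputable def phi (t : ℝ) (D : List Piece) : ℂ := Complex.I ^ (sig D) * ((V t D : ℝ) : ℂ)

noncomputable def Fun (t : ℝ) (ev : K →+* ℂ) (x : List Piece →₀ K) : ℂ :=
  x.sum (fun D c => ev c * phi t D)

theorem Fun_add (t : ℝ) (ev : K →+* ℂ) (x y : List Piece →₀ K) :
    Fun t ev (x + y) = Fun t ev x + Fun t ev y := by
  unfold Fun
  exact Finsupp.sum_add_index' (by simp) (by intro D c d; rw [map_add, add_mul])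

theorem Fun_smul (t : ℝ) (ev : K →+* ℂ) (c : K) (x : List Piece →₀ K) :
    Fun t ev (c • x) = ev c * Fun t ev x := by
  unfold Fun
  rw [Finsupp.sum_smul_index' (by simp), Finsupp.mul_sum]
  congr 1
  funext D d
  rw [smul_eq_mul, map_mul, mul_assoc]

theorem Fun_neg (t : ℝ) (ev : K →+* ℂ) (x : List Piece →₀ K) :
    Fun t ev (-x) = -Fun t ev x := by
  have := Fun_smul t ev (-1) x
  simpa using this

theorem Fun_sub (t : ℝ) (ev : K →+* ℂ) (x y : List Piece →₀ K) :
    Fun t ev (x - y) = Fun t ev x - Fun t ev y := by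
  rw [sub_eq_add_neg, Fun_add, Fun_neg, sub_eq_add_neg]

theorem Fun_cls (t : ℝ) (ev : K →+* ℂ) (D : List Piece) : Fun t ev (cls D) = phi t D := by
  unfold Fun cls
  rw [Finsupp.sum_single_index (by simp), map_one, one_mul]

/-- factor of a local relation -/
theorem V_rel {t c : ℝ} {n m : ℕ} {u l r v : List Piece} (hu : WF 0 u n) (h : Rel t n c l r) :
    V t (u ++ l ++ v) = c * V t (u ++ r ++ v) := by
  unfold V
  rw [List.append_assoc, List.append_assoc, opW_append, opW_append, opW_append, opW_append]
  have h2 := h 0 (opW t 0 v (fun F => if F = [] then 1 else 0))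
  have h3 := opW_congr t 0 u 0 n hu _ _ h2 [] rfl rfl
  rw [h3, opW_smul]

theorem I2 : Complex.I ^ (2 : ℤ) = -1 := by
  have : Complex.I ^ (2 : ℤ) = Complex.I ^ (2 : ℕ) := by norm_cast
  rw [this, Complex.I_sq]

theorem sig_goRight (b : Bool) (i k : ℕ) : sig (goRight b i k) = (if b then 1 else -1) * k := by
  induction k generalizing i with
  | zero => simp [goRight, sig]
  | succ k ih => simp only [goRight, sig, ih]; push_cast; ring

theorem sig_goLeft (b : Bool) (i k : ℕ) : sig (goLeft b i k) = (if b then 1 else -1) * k := by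
  induction k generalizing i with
  | zero => simp [goLeft, sig]
  | succ k ih => simp only [goLeft, sig_append, sig, ih]; push_cast; ring

theorem rmove_phi {t : ℝ} (ht : 0 < t) {n m : ℕ} {u l r v : List Piece} (hu : WF 0 u n)
    (hm : RMove n l r) : phi t (u ++ l ++ v) = phi t (u ++ r ++ v) := by
  have same : sig l = sig r → Rel t n 1 l r → phi t (u ++ l ++ v) = phi t (u ++ r ++ v) := by
    intro h1 h2
    unfold phi
    rw [V_rel (m := m) (v := v) hu h2, one_mul]
    simp only [sig_append, h1]
  have neg : ∀ e : ℤ, (e = 1 ∨ e = -1) → sig l = sig r + 2 * e → Rel t n (-1) l r →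
      phi t (u ++ l ++ v) = phi t (u ++ r ++ v) := by
    intro e he h1 h2
    unfold phi
    rw [V_rel (m := m) (v := v) hu h2]
    simp only [sig_append, h1]
    have e1 : sig u + (sig r + 2 * e) + sig v = (sig u + sig r + sig v) + 2 * e := by ring
    have e2 : Complex.I ^ (2 * e) = -1 := by
      rw [zpow_mul, I2]
      rcases he with rfl | rfl <;> norm_num
    rw [e1, zpow_add₀ Complex.I_ne_zero, e2]
    push_cast
    ring
  cases hm with
  | zig1 i h => exact same rfl (rel_zig1 ht n i h)
  | zig2 i h => exact same rfl (rel_zig2 ht n i h)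
  | sb i b h =>
    refine neg (if b then 1 else -1) (by cases b <;> simp) ?_ (rel_sb ht n i b h)
    cases b <;> simp [sig]
  | sd i b h =>
    refine neg (if b then 1 else -1) (by cases b <;> simp) ?_ (rel_sd ht n i b h)
    cases b <;> simp [sig]
  | r2 i b h =>
    refine same ?_ (rel_r2 ht n i b h)
    cases b <;> simp [sig]
  | r3 i a b c hc h =>
    refine same ?_ (rel_r3 ht n i a b c hc h)
    simp only [sig]; ring
  | far p q hp hpq hn =>
    refine same ?_ (rel_far n p q hpq hn)
    cases p <;> cases q <;> simp only [Piece.put, sig] <;> ring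

theorem good_par (x : ℕ) (F : List ℕ) (h : Good x F) : x % 2 = F.length % 2 := by
  induction F generalizing x with
  | nil => rw [show x = 0 from h]; rfl
  | cons y F ih =>
    have h1 := ih y h.2
    have h2 := h.1
    simp only [List.length_cons]
    unfold Nb at h2
    omega

theorem hole_odd (x i k : ℕ) (f : Fn) (F : List ℕ) (hF : Good x F) (hl : F.length = i + 1 + k)
    (hk : Even k) : holeOp x i f F = 0 := by
  induction i generalizing x f F with
  | zero =>
    have h1 := good_par x F hF
    obtain ⟨j, hj⟩ := hk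
    have : x ≠ 0 := by omega
    simp [holeOp, this]
  | succ i ih =>
    rcases F with _ | ⟨y, F⟩
    · simp [holeOp]
    · exact ih y _ F hF.2 (by simp at hl; omega)

theorem V_hole_odd (t : ℝ) {i k : ℕ} (hk : Even k) {u v : List Piece}
    (hu : WF 0 u (i + 1 + k)) : V t (u ++ [.hole i] ++ v) = 0 := by
  unfold V
  rw [List.append_assoc, opW_append, opW_append]
  have h3 := opW_congr t 0 u 0 _ hu (opW t 0 [.hole i] (opW t 0 v fun F => if F = [] then 1 else 0))
    (fun _ => 0) (fun F hF hl => hole_odd 0 i k _ F hF hl hk) [] rfl rfl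
  rw [h3]
  have := congrFun (opW_smul t 0 u 0 (fun _ => 0)) []
  simpa using this

theorem skein_zero {t : ℝ} (ht : 0 < t) (h1 : t ≠ 1) {ev : K →+* ℂ}
    (hev : ev RatFunc.X = Complex.I * t) {x : List Piece →₀ K} (hx : SkeinRel x) :
    Fun t ev x = 0 := by
  have htc : (t : ℂ) ≠ 0 := by exact_mod_cast ht.ne'
  have hI := Complex.I_ne_zero
  have hI2 : Complex.I ^ 2 = -1 := Complex.I_sq
  have hinv : (Complex.I * (t : ℂ))⁻¹ = -Complex.I * (t : ℂ)⁻¹ := by
    rw [mul_inv, Complex.inv_I]
  cases hx with
  | isotopy n m u l r v hu hm hl hr hv =>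
    rw [Fun_sub, Fun_cls, Fun_cls, rmove_phi ht (m := m) hu hm, sub_self]
  | slide i k b u v hu hv =>
    rw [Fun_sub, Fun_smul, Fun_cls, Fun_cls, sub_eq_zero]
    have hV := V_rel (m := i + 1 + k) (v := v) hu (rel_slide ht h1 i k b)
    rcases Nat.even_or_odd k with hk | hk
    · have h0 := V_hole_odd t hk hu (v := v)
      have hsf : sf t b ≠ 0 := by
        unfold sf; split_ifs <;> positivity
      have h2 : V t (u ++ (goRight b i k ++ [.hole i] ++ goLeft b i k) ++ v) = 0 := by
        rw [h0] at hV
        rcases mul_eq_zero.1 hV.symm with h | h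
        · exact absurd h hsf
        · exact h
      unfold phi
      rw [h0, h2]
      simp
    · unfold phi
      rw [hV]
      obtain ⟨j, hj⟩ := hk
      have hs : sig (u ++ (goRight b i k ++ [.hole i] ++ goLeft b i k) ++ v) =
          sig (u ++ [.hole i] ++ v) + 2 * ((if b then 1 else -1) * k) := by
        simp only [sig_append, sig_goRight, sig_goLeft, sig]; ring
      rw [hs, zpow_add₀ hI, zpow_mul, I2]
      have h5 : (-1 : ℂ) ^ ((if b then 1 else -1 : ℤ) * (k : ℤ)) = -1 := by
        have hodd : Odd ((if b then 1 else -1 : ℤ) * (k : ℤ)) := by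
          cases b
          · simp only [Bool.false_eq_true, if_false]
            exact ⟨-j - 1, by rw [hj]; push_cast; ring⟩
          · simp only [if_true]
            exact ⟨j, by rw [hj]; push_cast; ring⟩
        exact hodd.neg_one_zpow
      rw [h5]
      have h6 : ev (Ab b ^ 6) = -((sf t b : ℝ) : ℂ) := by
        unfold Ab sf
        cases b
        · simp only [Bool.false_eq_true, if_false, map_pow, map_inv₀, hev, hinv]
          push_cast
          have : (-Complex.I * (t : ℂ)⁻¹) ^ 6 = (Complex.I ^ 2) ^ 3 * ((t : ℂ)⁻¹) ^ 6 := by ring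
          rw [this, hI2]; ring
        · simp only [if_true, map_pow, hev]
          push_cast
          have : (Complex.I * (t : ℂ)) ^ 6 = (Complex.I ^ 2) ^ 3 * (t : ℂ) ^ 6 := by ring
          rw [this, hI2]; ring
      rw [h6]
      push_cast
      ring
  | kauffman i b u v h =>
    rw [Fun_sub, Fun_add, Fun_smul, Fun_smul, Fun_cls, Fun_cls, Fun_cls, sub_eq_zero]
    unfold phi
    rw [V_cr]
    have s1 : sig (u ++ .cr i b :: v) = (if b then 1 else -1) + sig (u ++ v) := by
      simp only [sig_append, sig]; ring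
    have s2 : sig (u ++ .death i :: .birth i :: v) = sig (u ++ v) := by
      simp only [sig_append, sig]
    rw [s1, s2, zpow_add₀ hI]
    cases b
    · simp only [Bool.false_eq_true, if_false, Ab, al, Bool.not_false, if_true, inv_inv, map_inv₀,
        hev, hinv, zpow_neg_one, Complex.inv_I]
      push_cast
      ring
    · simp only [Bool.false_eq_true, if_false, Ab, al, Bool.not_true, if_true, map_inv₀,
        hev, hinv, zpow_one]
      push_cast
      ring
  | circle i u v h =>
    rw [Fun_sub, Fun_smul, Fun_cls, Fun_cls, sub_eq_zero]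
    obtain ⟨m, hu, hi, hv⟩ := (WF_append u _ 0 0).1 h
    have hrel : Rel t m (dd t) [.birth i, .death i] [] := by
      intro x f F hF hn
      exact circ ht m i hi x f F hF hn
    have hV := V_rel (m := m) (v := v) hu hrel
    have e1 : u ++ [.birth i, .death i] ++ v = u ++ .birth i :: .death i :: v := by simp
    have e2 : u ++ [] ++ v = u ++ v := by simp
    rw [e1, e2] at hV
    unfold phi
    rw [hV]
    have s1 : sig (u ++ .birth i :: .death i :: v) = sig (u ++ v) := by
      simp only [sig_append, sig]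
    rw [s1]
    have h6 : ev (-(RatFunc.X) ^ 2 - ((RatFunc.X)⁻¹) ^ 2 : K) = ((dd t : ℝ) : ℂ) := by
      simp only [map_sub, map_neg, map_pow, map_inv₀, hev, hinv]
      unfold dd
      push_cast
      linear_combination (-(t : ℂ) ^ 2 - ((t : ℂ)⁻¹) ^ 2) * hI2
    rw [h6]
    push_cast
    ring

theorem rels_zero {t : ℝ} (ht : 0 < t) (h1 : t ≠ 1) {ev : K →+* ℂ}
    (hev : ev RatFunc.X = Complex.I * t) {x : List Piece →₀ K} (hx : x ∈ Rels) :
    Fun t ev x = 0 := by
  unfold Rels at hx
  induction hx using Submodule.span_induction with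
  | mem x hx => exact skein_zero ht h1 hev hx
  | zero => simp [Fun]
  | add x y _ _ h1 h2 => rw [Fun_add, h1, h2, add_zero]
  | smul c x _ h => rw [Fun_smul, h, mul_zero]

theorem sig_empty (g : ℕ) : sig (empty g) = 0 := by
  unfold empty
  induction g with
  | zero => rfl
  | succ g ih => rw [List.replicate_succ]; exact ih

theorem V_empty (t : ℝ) (g : ℕ) : V t (empty g) = 1 := by
  unfold empty V
  induction g with
  | zero => simp [opW]
  | succ g ih => rw [List.replicate_succ]; simpa [opW, op, holeOp] using ih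

theorem bracket_eval {t : ℝ} (ht : 0 < t) (h1 : t ≠ 1) {ev : K →+* ℂ}
    (hev : ev RatFunc.X = Complex.I * t) {D : List Piece} {c : K} (h : IsBracket D c) :
    phi t D = ev c := by
  have h2 := rels_zero ht h1 hev h
  rw [Fun_sub, Fun_smul, Fun_cls, Fun_cls, sub_eq_zero] at h2
  rw [h2]
  unfold phi
  rw [sig_empty, V_empty]
  simp

theorem norm_phi (t : ℝ) (D : List Piece) : ‖phi t D‖ = |V t D| := by
  unfold phi
  rw [norm_mul, norm_zpow, Complex.norm_I, one_zpow, one_mul, Complex.norm_real, Real.norm_eq_abs]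

theorem ne_one {t : ℝ} (ht : Transcendental ℚ t) : t ≠ 1 := by
  rintro rfl
  exact ht (isAlgebraic_one)

theorem hTR : S_TR := by
  intro t ht htr
  obtain ⟨ev, hev⟩ := ev_exists (trans_I htr)
  refine ⟨ev, hev, fun D c _ h => ?_⟩
  rw [← bracket_eval ht (ne_one htr) hev h, norm_phi]

theorem exists_trans : ∃ t : ℝ, 0 < t ∧ Transcendental ℚ t := by
  have h1 : Dense ({x : ℝ | IsAlgebraic ℚ x}ᶜ) :=
    Set.Countable.dense_compl ℝ (Algebraic.countable ℚ ℝ)
  obtain ⟨t, ht, h⟩ := h1.exists_gt 0
  exact ⟨t, h, ht⟩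

/-- the bracket is unique -/
theorem bracket_unique {D : List Piece} {c c' : K} (h : IsBracket D c) (h' : IsBracket D c') :
    c = c' := by
  obtain ⟨t, ht, htr⟩ := exists_trans
  obtain ⟨ev, hev⟩ := ev_exists (trans_I htr)
  have e1 := bracket_eval ht (ne_one htr) hev h
  have e2 := bracket_eval ht (ne_one htr) hev h'
  exact ev.injective (e1.symm.trans e2)

end Pool.Agent.W617.KB
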