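import Pool.Agent.H560R3.TG.Main
import Pool.Agent.W617.KB.Stmts

/-! The two smoothings at a crossing with two external corners. -/

set_option autoImplicit false
set_option linter.unusedSimpArgs false

namespace Pool.Agent.W617.KB

open Pool.Agent.H560R3.TG

variable {t : ℝ}

theorem nbs_ne {x : ℕ} {f : ℕ → ℝ} (h : nbs t x f ≠ 0) : ∃ y, Nb x y ∧ f y ≠ 0 := by
  by_contra hcon
  push Not at hcon
  apply h
  rw [nbs_congr t x f (fun _ => 0) hcon, nbs_zero]

theorem good_iff (x : ℕ) (F : List ℕ) : Good x F ↔ Adj Nb x (stt F) ∧ cn x F = 0 := by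
  induction F generalizing x with
  | nil => simp [Good, Adj, stt, cn]
  | cons y F ih =>
    simp only [Good, stt_cons, Adj, cn, ih]
    tauto

/-- labelled paths with the label `0` at the holes -/
def Rch (F : List ℕ) (w : List Piece) (K : List ℕ) : Prop :=
  ∃ E : List (Slice Unit ℕ), Path 0 (stt F) E (stt K) ∧ E.map Slice.plain = w ∧
    ∀ g ∈ holeLabels 0 E, g = 0

theorem rch_birth {L R K : List ℕ} {w : List Piece} {y : ℕ}
    (h : Rch (L ++ y :: cn 0 L :: R) w K) : Rch (L ++ R) (.birth L.length :: w) K := by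
  obtain ⟨E, h1, h2, h3⟩ := h
  refine ⟨⟨stt L, .birth () y, stt R⟩ :: E, ⟨?_, ?_⟩, ?_, h3⟩
  · simp [Slice.src, Loc.src, stt_append]
  · simpa [Slice.tgt, Loc.tgt, cur_stt, stt_append, stt_cons] using h1
  · simp [Slice.plain, stt_length, h2]

theorem rch_death {L R K : List ℕ} {w : List Piece} {y : ℕ}
    (h : Rch (L ++ R) w K) : Rch (L ++ y :: cn 0 L :: R) (.death L.length :: w) K := by
  obtain ⟨E, h1, h2, h3⟩ := h
  refine ⟨⟨stt L, .death () y, stt R⟩ :: E, ⟨?_, ?_⟩, ?_, h3⟩
  · simp [Slice.src, Loc.src, stt_append, stt_cons, cur_stt]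
  · simpa [Slice.tgt, Loc.tgt, cur_stt, stt_append, stt_cons] using h1
  · simp [Slice.plain, stt_length, h2]

theorem rch_cr {L R K : List ℕ} {w : List Piece} {y y' z : ℕ} {b : Bool}
    (h : Rch (L ++ y' :: z :: R) w K) : Rch (L ++ y :: z :: R) (.cr L.length b :: w) K := by
  obtain ⟨E, h1, h2, h3⟩ := h
  refine ⟨⟨stt L, .cr b () y () () y' () z, stt R⟩ :: E, ⟨?_, ?_⟩, ?_, h3⟩
  · simp [Slice.src, Loc.src, stt_append, stt_cons, cur_stt]
  · simpa [Slice.tgt, Loc.tgt, cur_stt, stt_append, stt_cons] using h1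
  · simp [Slice.plain, stt_length, h2]

theorem rch_hole {L R K : List ℕ} {w : List Piece} (hx : cn 0 L = 0)
    (h : Rch (L ++ R) w K) : Rch (L ++ R) (.hole L.length :: w) K := by
  obtain ⟨E, h1, h2, h3⟩ := h
  refine ⟨⟨stt L, .hole, stt R⟩ :: E, ⟨?_, ?_⟩, ?_, ?_⟩
  · simp [Slice.src, Loc.src, stt_append]
  · simpa [Slice.tgt, Loc.tgt, stt_append] using h1
  · simp [Slice.plain, stt_length, h2]
  · intro g hg
    simp only [holeLabels, List.mem_cons, cur_stt] at hg
    rcases hg with rfl | hg
    · exact hx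
    · exact h3 g hg

theorem back (t : ℝ) (v : List Piece) : ∀ (n : ℕ) (F : List ℕ), WF n v 0 → F.length = n →
    opW t 0 v f0 F ≠ 0 → Rch F v [] := by
  induction v with
  | nil =>
    intro n F _ _ h
    have hF : F = [] := by
      by_contra hc
      apply h
      simp [opW, f0, hc]
    subst hF
    exact ⟨[], rfl, rfl, by simp [holeLabels]⟩
  | cons p w ih =>
    intro n F hwf hl h
    cases p with
    | birth i =>
      obtain ⟨hi, hw⟩ := hwf
      obtain ⟨L, R, rfl, rfl⟩ := split_len F i (by omega)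
      have h' : birthOp t 0 L.length (opW t 0 w f0) (L ++ R) ≠ 0 := h
      rw [birthOp_eval] at h'
      obtain ⟨y, -, hy⟩ := nbs_ne h'
      exact rch_birth (ih _ _ hw (by simp at hl ⊢; omega) hy)
    | death i =>
      obtain ⟨hi, hw⟩ := hwf
      obtain ⟨L, y, z, R, rfl, rfl⟩ := split_len2 F i (by omega)
      have h' : deathOp t 0 L.length (opW t 0 w f0) (L ++ y :: z :: R) ≠ 0 := h
      rw [deathOp_eval] at h'
      split_ifs at h' with hc
      · obtain ⟨rfl, -⟩ := hc
        exact rch_death (ih _ _ hw (by simp at hl ⊢; omega) (right_ne_zero_of_mul h'))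
      · exact absurd rfl h'
    | hole i =>
      obtain ⟨hi, hw⟩ := hwf
      obtain ⟨L, R, rfl, rfl⟩ := split_len F i (by omega)
      have h' : holeOp 0 L.length (opW t 0 w f0) (L ++ R) ≠ 0 := h
      rw [holeOp_eval] at h'
      split_ifs at h' with hc
      · exact rch_hole hc (ih _ _ hw hl h')
      · exact absurd rfl h'
    | cr i b =>
      obtain ⟨hi, hw⟩ := hwf
      obtain ⟨L, y, z, R, rfl, rfl⟩ := split_len2 F i (by omega)
      have h' : al t b * opW t 0 w f0 (L ++ y :: z :: R) - al t (!b) *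
        deathOp t 0 L.length (birthOp t 0 L.length (opW t 0 w f0)) (L ++ y :: z :: R) ≠ 0 := h
      by_cases h1 : opW t 0 w f0 (L ++ y :: z :: R) = 0
      · rw [h1, mul_zero, zero_sub] at h'
        have h2 := right_ne_zero_of_mul (neg_ne_zero.1 h')
        rw [deathOp_eval] at h2
        split_ifs at h2 with hc
        · obtain ⟨rfl, -⟩ := hc
          have h3 := right_ne_zero_of_mul h2
          rw [birthOp_eval] at h3
          obtain ⟨y', -, hy'⟩ := nbs_ne h3
          exact rch_cr (ih _ _ hw (by simp at hl ⊢; omega) hy')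
        · exact absurd rfl h2
      · exact rch_cr (ih _ _ hw hl h1)

theorem fwd (t : ℝ) (u : List Piece) : ∀ (n m : ℕ) (F : List ℕ), WF n u m → F.length = n →
    Good 0 F → ∀ g1 g2 : Fn, (∀ K, K.length = m → Good 0 K → Rch F u K → g1 K = g2 K) →
    opW t 0 u g1 F = opW t 0 u g2 F := by
  induction u with
  | nil =>
    intro n m F hwf hl hF g1 g2 h
    have hwf : n = m := hwf
    exact h F (by omega) hF ⟨[], rfl, rfl, by simp [holeLabels]⟩
  | cons p w ih =>
    intro n m F hwf hl hF g1 g2 h
    cases p with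
    | birth i =>
      obtain ⟨hi, hw⟩ := hwf
      obtain ⟨L, R, rfl, rfl⟩ := split_len F i (by omega)
      show birthOp t 0 L.length (opW t 0 w g1) (L ++ R) = birthOp t 0 L.length (opW t 0 w g2) (L ++ R)
      rw [birthOp_eval, birthOp_eval]
      apply nbs_congr
      intro y hy
      apply ih _ m _ hw (by simp at hl ⊢; omega)
      · rw [good_iff, stt_append, adj_append, cur_stt] at hF ⊢
        refine ⟨⟨hF.1.1, hy, ?_, hF.1.2⟩, ?_⟩
        · unfold Nb at hy ⊢; omega
        · have e : ∀ (x : ℕ) (A B : List ℕ), cn x (A ++ B) = cn (cn x A) B := by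
            intro x A B
            induction A generalizing x with
            | nil => rfl
            | cons a A ih => exact ih a
          rw [e] at hF ⊢
          exact hF.2
      · intro K h1 h2 h3
        exact h K h1 h2 (rch_birth h3)
    | death i =>
      obtain ⟨hi, hw⟩ := hwf
      obtain ⟨L, y, z, R, rfl, rfl⟩ := split_len2 F i (by omega)
      show deathOp t 0 L.length (opW t 0 w g1) (L ++ y :: z :: R) =
        deathOp t 0 L.length (opW t 0 w g2) (L ++ y :: z :: R)
      rw [deathOp_eval, deathOp_eval]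
      split_ifs with hc
      · obtain ⟨rfl, -⟩ := hc
        congr 1
        apply ih _ m _ hw (by simp at hl ⊢; omega)
        · rw [good_iff, stt_append, adj_append, cur_stt] at hF ⊢
          refine ⟨⟨hF.1.1, hF.1.2.2.2⟩, ?_⟩
          have e : ∀ (x : ℕ) (A B : List ℕ), cn x (A ++ B) = cn (cn x A) B := by
            intro x A B
            induction A generalizing x with
            | nil => rfl
            | cons a A ih => exact ih a
          rw [e] at hF ⊢
          exact hF.2
        · intro K h1 h2 h3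
          exact h K h1 h2 (rch_death h3)
      · rfl
    | hole i =>
      obtain ⟨hi, hw⟩ := hwf
      obtain ⟨L, R, rfl, rfl⟩ := split_len F i (by omega)
      show holeOp 0 L.length (opW t 0 w g1) (L ++ R) = holeOp 0 L.length (opW t 0 w g2) (L ++ R)
      rw [holeOp_eval, holeOp_eval]
      split_ifs with hc
      · apply ih _ m _ hw hl hF
        intro K h1 h2 h3
        exact h K h1 h2 (rch_hole hc h3)
      · rfl
    | cr i b =>
      obtain ⟨hi, hw⟩ := hwf
      obtain ⟨L, y, z, R, rfl, rfl⟩ := split_len2 F i (by omega)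
      show al t b * opW t 0 w g1 (L ++ y :: z :: R) - al t (!b) *
        deathOp t 0 L.length (birthOp t 0 L.length (opW t 0 w g1)) (L ++ y :: z :: R) =
        al t b * opW t 0 w g2 (L ++ y :: z :: R) - al t (!b) *
        deathOp t 0 L.length (birthOp t 0 L.length (opW t 0 w g2)) (L ++ y :: z :: R)
      have e1 : opW t 0 w g1 (L ++ y :: z :: R) = opW t 0 w g2 (L ++ y :: z :: R) := by
        apply ih _ m _ hw hl hF
        intro K h1 h2 h3
        exact h K h1 h2 (rch_cr h3)
      rw [e1]
      congr 2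
      rw [deathOp_eval, deathOp_eval]
      split_ifs with hc
      · obtain ⟨rfl, -⟩ := hc
        congr 1
        rw [birthOp_eval, birthOp_eval]
        apply nbs_congr
        intro y' hy'
        apply ih _ m _ hw (by simp at hl ⊢; omega)
        · rw [good_iff, stt_append, adj_append, cur_stt] at hF ⊢
          refine ⟨⟨hF.1.1, hy', ?_, hF.1.2.2.2⟩, ?_⟩
          · unfold Nb at hy' ⊢; omega
          · have e : ∀ (x : ℕ) (A B : List ℕ), cn x (A ++ B) = cn (cn x A) B := by
              intro x A B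
              induction A generalizing x with
              | nil => rfl
              | cons a A ih => exact ih a
            rw [e] at hF ⊢
            exact hF.2
        · intro K h1 h2 h3
          exact h K h1 h2 (rch_cr h3)
      · rfl

/-- the heights of the external corners are `0` -/
theorem ext_zero {u v : List Piece} {i : ℕ} {b : Bool} {k : Fin 4} (hext : External u i b v k)
    {L R : List ℕ} {y y' z : ℕ} (hL : L.length = i) (h1 : Rch [] u (L ++ y :: z :: R))
    (h2 : Rch (L ++ y' :: z :: R) v []) : corner (cn 0 L) y z y' k = 0 := by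
  obtain ⟨Eu, p1, p2, p3⟩ := h1
  obtain ⟨Ev, q1, q2, q3⟩ := h2
  have h := ext_height hext (E := Eu ++ ⟨stt L, .cr b () y () () y' () z, stt R⟩ :: Ev)
    ⟨(path_append 0 _ _ _ _).2 ⟨_, p1, ?_, ?_⟩, ?_⟩ ?_ Eu Ev (stt L) (stt R) y y' z rfl p2
  · rw [cur_stt] at h; exact h
  · simp [Slice.src, Loc.src, stt_append, stt_cons]
  · simpa [Slice.tgt, Loc.tgt, stt_append, stt_cons, stt] using q1
  · simp [p2, q2, Slice.plain, stt_length, hL]
  · intro g hg
    rw [holeLabels_append, List.mem_append] at hg
    rcases hg with hg | hg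
    · exact p3 g hg
    · exact q3 g hg

theorem V_main (ht : 0 < t) {u v : List Piece} {i : ℕ} {b : Bool}
    (hwf : WF 0 (u ++ .cr i b :: v) 0) :
    (External u i b v 1 → External u i b v 3 →
      V t (u ++ v) = dd t * V t (u ++ .death i :: .birth i :: v)) ∧
    (External u i b v 0 → External u i b v 2 →
      V t (u ++ .death i :: .birth i :: v) = dd t * V t (u ++ v)) := by
  obtain ⟨m, hu, hi, hv⟩ := (WF_append u _ 0 0).1 hwf
  set h := opW t 0 v f0 with hh
  have hdd : dd t ≠ 0 := by linarith [dd_ge ht]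
  have e1 : V t (u ++ v) = opW t 0 u h [] := by rw [V_eq, opW_append]
  have e2 : V t (u ++ .death i :: .birth i :: v) =
      opW t 0 u (fun K => deathOp t 0 i (birthOp t 0 i h) K) [] := by
    rw [V_eq, opW_append]; rfl
  have hbk : ∀ F : List ℕ, F.length = m → h F ≠ 0 → Rch F v [] := fun F hF hne =>
    back t v m F hv hF hne
  have key : ∀ (L R : List ℕ) (y z : ℕ), L.length = i → (L ++ y :: z :: R).length = m →
      Good 0 (L ++ y :: z :: R) → Rch [] u (L ++ y :: z :: R) →
      Nb (cn 0 L) y ∧ Nb y z := by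
    intro L R y z hL hl hG hR
    rw [good_iff, stt_append, adj_append, cur_stt] at hG
    exact ⟨hG.1.2.1, hG.1.2.2.1⟩
  constructor
  · intro x1 x3
    have e3 := congrFun (opW_smul t 0 u (dd t) (fun K => deathOp t 0 i (birthOp t 0 i h) K)) []
    rw [e1, e2, ← e3]
    refine fwd t u 0 m [] hu rfl rfl _ _ ?_
    intro K hKl hKG hKR
    obtain ⟨L, y, z, R, rfl, rfl⟩ := split_len2 K i (by omega)
    obtain ⟨n1, n2⟩ := key L R y z rfl hKl hKG hKR
    rw [deathOp_eval]
    by_cases hz : z = cn 0 L
    · subst hz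
      rw [if_pos ⟨rfl, n1⟩, birthOp_eval]
      by_cases hex : ∃ y', Nb (cn 0 L) y' ∧ h (L ++ y' :: cn 0 L :: R) ≠ 0
      · obtain ⟨y0, hy0, hne0⟩ := hex
        have hall : ∀ y', h (L ++ y' :: cn 0 L :: R) ≠ 0 → y = 0 ∧ y' = 0 := by
          intro y' hne
          have hb := hbk _ (by simp at hKl ⊢; omega) hne
          exact ⟨ext_zero x1 rfl hKR hb, ext_zero x3 rfl hKR hb⟩
        obtain ⟨hy, hy0'⟩ := hall y0 hne0
        subst hy
        have hx : cn 0 L = 1 := by unfold Nb at n1; omega
        have e4 : nbs t (cn 0 L) (fun y => h (L ++ y :: cn 0 L :: R)) =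
            nbs t (cn 0 L) (fun y => if y = 0 then h (L ++ y :: cn 0 L :: R) else 0) := by
          apply nbs_congr
          intro y' _
          by_cases h0 : y' = 0
          · rw [if_pos h0]
          · rw [if_neg h0]
            by_contra hc
            exact h0 (hall y' hc).2
        rw [e4, nbs_single _ 0 n1, hx]
        show h (L ++ 0 :: 1 :: R) = dd t * ((dl t 1)⁻¹ * (dl t 0 * h (L ++ 0 :: 1 :: R)))
        simp only [dl, one_mul]
        rw [← mul_assoc, mul_inv_cancel₀ hdd, one_mul]
      · push Not at hex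
        rw [nbs_congr t _ _ (fun _ => 0) hex, nbs_zero, mul_zero, mul_zero]
        exact hex y n1
    · rw [if_neg (fun h => hz h.1), mul_zero]
      by_contra hc
      have hb := hbk _ hKl hc
      have h0 : y = 0 := ext_zero x1 rfl hKR hb
      apply hz
      unfold Nb at n1 n2
      omega
  · intro x0 x2
    have e3 := congrFun (opW_smul t 0 u (dd t) h) []
    rw [e1, e2, ← e3]
    refine fwd t u 0 m [] hu rfl rfl _ _ ?_
    intro K hKl hKG hKR
    obtain ⟨L, y, z, R, rfl, rfl⟩ := split_len2 K i (by omega)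
    obtain ⟨n1, n2⟩ := key L R y z rfl hKl hKG hKR
    show deathOp t 0 L.length (birthOp t 0 L.length h) (L ++ y :: z :: R) = dd t * h (L ++ y :: z :: R)
    rw [deathOp_eval]
    by_cases hz : z = cn 0 L
    · subst hz
      rw [if_pos ⟨rfl, n1⟩, birthOp_eval]
      by_cases hex : ∃ y', Nb (cn 0 L) y' ∧ h (L ++ y' :: cn 0 L :: R) ≠ 0
      · obtain ⟨y0, hy0, hne0⟩ := hex
        have hb := hbk _ (by simp at hKl ⊢; omega) hne0
        have hx : cn 0 L = 0 := ext_zero x0 rfl hKR hb
        have hy : y = 1 := by unfold Nb at n1; omega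
        rw [hx, hy]
        simp only [nbs, if_true, add_zero, zero_add, dl, inv_one, one_mul]
      · push Not at hex
        rw [nbs_congr t _ _ (fun _ => 0) hex, nbs_zero, mul_zero, hex y n1, mul_zero]
    · rw [if_neg (fun h => hz h.1)]
      symm
      rw [mul_eq_zero]
      right
      by_contra hc
      have hb := hbk _ hKl hc
      have h0 : cn 0 L = 0 := ext_zero x0 rfl hKR hb
      have h2 : z = 0 := ext_zero x2 rfl hKR hb
      exact hz (by omega)

theorem hV13 : S_V13 := fun _ ht _ _ _ _ hwf h1 h3 => (V_main ht hwf).1 h1 h3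
theorem hV02 : S_V02 := fun _ ht _ _ _ _ hwf h0 h2 => (V_main ht hwf).2 h0 h2

end Pool.Agent.W617.KB
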