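import Pool.Agent.W617.KB.Ind
import Pool.Agent.W617.KB.VId
import Pool.Agent.W617.KB.Tr
import Pool.Agent.W617.KB.DE
import Pool.Agent.W398.KB.AS
import Pool.Agent.W398.KB.Ex
import Pool.Agent.W398.KB.HP

/-! The breadth of the bracket. -/

set_option autoImplicit false

namespace Pool.Agent.W617.KB

open Pool.Agent.H560R3.TG

theorem ext_of_fill {D : List Piece} (h : Filling D) : Ext D (holes D + 1) := by
  constructor
  · obtain ⟨F, hFl, hFn⟩ := h
    refine ⟨0, F, hFl, ?_⟩
    unfold cardL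
    have h1 : (insert 0 (holeLabels 0 F).toFinset) = (0 :: holeLabels 0 F).toFinset := by simp
    rw [h1, List.toFinset_card_of_nodup hFn, List.length_cons, holeLabels_length, hFl.2]
  · intro l f hf
    unfold cardL
    refine (Finset.card_insert_le _ _).trans ?_
    have h2 := List.toFinset_card_le (holeLabels l f)
    rw [holeLabels_length, hf.2] at h2
    omega

theorem nodisk {D : List Piece} (h : Admissible D) (m : ℕ) : ¬ DiskN D m := by
  intro hd
  obtain ⟨u, i, b, v, rfl, rfl⟩ := isCr_split (disk_cr hd)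
  exact h.noex u i b v rfl (hDE u i b v h.wf h.conn (disk_iff.2 hd))

theorem formula {D : List Piece} (h : Admissible D) :
    ∃ c : K, IsBracket D c ∧ (∀ c', IsBracket D c' → c' = c) ∧ c ≠ 0 ∧
      br c = 4 * crossings D + 4 - 4 * holes D - 4 * count ExternalTwice D := by
  obtain ⟨c, hc⟩ := Pool.Agent.W398.KB.hp D h.wf
  obtain ⟨M₁, M₂, h1, h2, h3⟩ := main_ind hV13 hV02 _ D rfl h.wf h.conn h.alt h.z2 h.strand
    (nodisk h) _ (ext_of_fill h.fill)
  obtain ⟨h4, h5⟩ := Pool.Agent.W398.KB.main c (fun t => V t D) M₁ M₂ (by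
    intro t ht htr
    obtain ⟨ev, hev, hall⟩ := hTR t ht htr
    exact ⟨ev, hev, hall D c h.wf hc⟩) h1 h2
  refine ⟨c, hc, fun c' hc' => bracket_unique hc' hc, h4, ?_⟩
  rw [h5, h3]
  push_cast
  ring

theorem adm0 : Admissible D0 := by
  obtain ⟨h1, h2, h3, h4, h5⟩ := Pool.Agent.W398.KB.ex1
  exact ⟨h1, ⟨0, by simp [D0]⟩, h2, h3, h4, h5, Pool.Agent.W398.KB.ex2⟩

end Pool.Agent.W617.KB
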