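import Pool.Agent.H560R3.TG.Main
import Pool.Agent.W617.KB.Defs

/-! Crossings given by their index in the word. -/

set_option autoImplicit false
set_option linter.unusedSimpArgs false

namespace Pool.Agent.W617.KB

open Pool.Agent.H560R3.TG

variable {S G S' G' : Type}

/-- the corners of a slice with a crossing (constant for the other slices) -/
def crn (a : G) (s : Slice S G) : Fin 4 → G :=
  match s.p with
  | .cr _ _ y _ _ y' _ z => corner (cur a s.L) y z y'
  | _ => fun _ => a

def IsCr (D : List Piece) (n : ℕ) : Prop := ∃ i b, D[n]? = some (Piece.cr i b)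

/-- the corner `k` of the slice number `n` is in an external region -/
def ExtN (D : List Piece) (n : ℕ) (k : Fin 4) : Prop :=
  ∀ E : List (Slice Unit Bool), Labelling true E D → (∀ h ∈ holeLabels true E, h = true) →
    ∀ s, E[n]? = some s → crn true s k = true

theorem take_of_eq {α : Type} {u v : List α} {n : ℕ} (h : u.length = n) : (u ++ v).take n = u := by
  subst h; simp

/-- splitting of a labelled word at the slice number `n` -/
theorem split_idx {a : G} {E : List (Slice S G)} {u v : List Piece} {p : Piece}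
    (hE : E.map Slice.plain = u ++ p :: v) {s : Slice S G} (hs : E[u.length]? = some s) :
    ∃ Eu Ev, E = Eu ++ s :: Ev ∧ Eu.map Slice.plain = u ∧ s.plain = p ∧
      Ev.map Slice.plain = v := by
  obtain ⟨Eu, E', rfl, h1, h2⟩ := split_plain E _ _ hE
  rcases E' with _ | ⟨r, Ev⟩
  · simp at h2
  · simp only [List.map_cons, List.cons.injEq] at h2
    have hl : Eu.length = u.length := by rw [← h1]; simp
    rw [← hl] at hs
    simp at hs
    subst hs
    exact ⟨Eu, Ev, rfl, h1, h2.1, h2.2⟩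

theorem ext_iff {u : List Piece} {i : ℕ} {b : Bool} {v : List Piece} {k : Fin 4} :
    External u i b v k ↔ ExtN (u ++ .cr i b :: v) u.length k := by
  constructor
  · intro h E hE hh s hs
    obtain ⟨Eu, Ev, rfl, h1, h2, h3⟩ := split_idx (a := true) hE.2 hs
    obtain ⟨L, R, ⟨⟩, y, ⟨⟩, ⟨⟩, y', ⟨⟩, z, rfl, hL⟩ := plain_cr s i b h2
    exact h Eu Ev L R y y' z hE h1 hh
  · intro h Eu Ev L R y y' z hE h1 hh
    have hl : Eu.length = u.length := by rw [← h1]; simp
    exact h _ hE hh ⟨L, .cr b () y () () y' () z, R⟩ (by rw [← hl]; simp)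

/-- the ends at a crossing belong to two parts, two neighbouring ends to each of them -/
def Loc.Two : Loc Bool G → Prop
  | .cr _ s₁ _ s₂ t₁ _ t₂ _ => (s₁ = s₂ ∧ t₁ = t₂ ∧ s₁ ≠ t₁) ∨ (s₁ = t₁ ∧ s₂ = t₂ ∧ s₁ ≠ s₂)
  | _ => False

def DiskN (D : List Piece) (n : ℕ) : Prop :=
  ∃ E : List (Slice Bool Bool), Labelling true E D ∧ (∀ h ∈ holeLabels true E, h = true) ∧
    (∀ s ∈ E, Away true (s.src true) ∧ Away true (s.tgt true)) ∧
    (∀ m s, m ≠ n → E[m]? = some s → s.p.Same) ∧ ∃ s, E[n]? = some s ∧ Loc.Two s.p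

theorem disk_of_at {u : List Piece} {i : ℕ} {b : Bool} {v : List Piece}
    (h : DiskAt u i b v) : DiskN (u ++ .cr i b :: v) u.length := by
  obtain ⟨Eu, Ev, L, R, s₁, y, s₂, t₁, y', t₂, z, h1, h2, h3, h4, h5, h6⟩ := h
  have hl : Eu.length = u.length := by rw [← h2]; simp
  refine ⟨_, h1, h3, h4, ?_, ⟨L, .cr b s₁ y s₂ t₁ y' t₂ z, R⟩, by rw [← hl]; simp, h6⟩
  intro m s hm hs
  apply h5
  rw [← hl] at hm
  rcases lt_or_gt_of_ne hm with hm | hm
  · rw [List.getElem?_append_left hm] at hs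
    exact List.mem_append_left _ (List.mem_of_getElem? hs)
  · rw [List.getElem?_append_right hm.le] at hs
    obtain ⟨r, hr⟩ : ∃ r, m - Eu.length = r + 1 := ⟨m - Eu.length - 1, by omega⟩
    rw [hr, List.getElem?_cons_succ] at hs
    exact List.mem_append_right _ (List.mem_of_getElem? hs)

theorem at_of_disk {u : List Piece} {i : ℕ} {b : Bool} {v : List Piece}
    (h : DiskN (u ++ .cr i b :: v) u.length) : DiskAt u i b v := by
  obtain ⟨E, h1, h3, h4, h5, s, hs, h6⟩ := h
  obtain ⟨Eu, Ev, rfl, g1, g2, g3⟩ := split_idx (a := true) h1.2 hs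
  obtain ⟨L, R, s₁, y, s₂, t₁, y', t₂, z, rfl, hL⟩ := plain_cr s i b g2
  have hl : Eu.length = u.length := by rw [← g1]; simp
  refine ⟨Eu, Ev, L, R, s₁, y, s₂, t₁, y', t₂, z, h1, g1, h3, h4, ?_, h6⟩
  intro s hs
  rcases List.mem_append.1 hs with hs | hs
  · obtain ⟨m, hm, rfl⟩ := List.mem_iff_getElem.1 hs
    refine h5 m _ (by omega) ?_
    rw [List.getElem?_append_left hm]
    simp [hm]
  · obtain ⟨m, hm, rfl⟩ := List.mem_iff_getElem.1 hs
    refine h5 (Eu.length + 1 + m) _ (by omega) ?_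
    rw [List.getElem?_append_right (by omega)]
    rw [show Eu.length + 1 + m - Eu.length = m + 1 by omega, List.getElem?_cons_succ]
    simp [hm]

theorem disk_iff {u : List Piece} {i : ℕ} {b : Bool} {v : List Piece} :
    DiskAt u i b v ↔ DiskN (u ++ .cr i b :: v) u.length := ⟨disk_of_at, at_of_disk⟩

/-- `DiskN` only holds at crossings -/
theorem disk_cr {D : List Piece} {n : ℕ} (h : DiskN D n) : IsCr D n := by
  obtain ⟨E, h1, h3, h4, h5, s, hs, h6⟩ := h
  have h2 : D[n]? = some s.plain := by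
    rw [← h1.2, List.getElem?_map, hs]; rfl
  obtain ⟨L, p, R⟩ := s
  cases p with
  | cr b s₁ y s₂ t₁ y' t₂ z => exact ⟨_, _, h2⟩
  | _ => exact absurd h6 (by simp [Loc.Two])

theorem isCr_split {D : List Piece} {n : ℕ} (h : IsCr D n) :
    ∃ u i b v, D = u ++ .cr i b :: v ∧ u.length = n := by
  obtain ⟨i, b, h⟩ := h
  have hn : n < D.length := by
    by_contra hc
    rw [List.getElem?_eq_none (by omega)] at h
    simp at h
  refine ⟨D.take n, i, b, D.drop (n + 1), ?_, by simp; omega⟩
  have : D[n] = .cr i b := by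
    rw [List.getElem?_eq_getElem hn] at h
    simpa using h
  rw [← this, List.cons_getElem_drop_succ, List.take_append_drop]

/-- both corners are external -/
def TwiceN (D : List Piece) (n : ℕ) : Prop := ∃ k k' : Fin 4, k ≠ k' ∧ ExtN D n k ∧ ExtN D n k'

theorem twice_iff {u : List Piece} {i : ℕ} {b : Bool} {v : List Piece} :
    ExternalTwice u i b v ↔ TwiceN (u ++ .cr i b :: v) u.length := by
  unfold ExternalTwice TwiceN
  simp only [ext_iff]

theorem count_eq (D : List Piece) :
    count ExternalTwice D = {n | IsCr D n ∧ TwiceN D n}.ncard := by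
  unfold count
  have himg : {n | IsCr D n ∧ TwiceN D n} =
      List.length '' {u : List Piece | ∃ i b v, D = u ++ .cr i b :: v ∧ ExternalTwice u i b v} := by
    ext n
    constructor
    · rintro ⟨h1, h2⟩
      obtain ⟨u, i, b, v, rfl, rfl⟩ := isCr_split h1
      exact ⟨u, ⟨i, b, v, rfl, twice_iff.2 h2⟩, rfl⟩
    · rintro ⟨u, ⟨i, b, v, rfl, h⟩, rfl⟩
      exact ⟨⟨i, b, by simp⟩, twice_iff.1 h⟩
  rw [himg]
  symm
  apply Set.InjOn.ncard_image
  rintro u ⟨i, b, v, h1, -⟩ u' ⟨i', b', v', h1', -⟩ hl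
  have h2 : D.take u.length = u := by rw [h1]; simp
  have h3 : D.take u'.length = u' := by rw [h1']; simp
  rw [← h2, ← h3, hl]

end Pool.Agent.W617.KB
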