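import Pool.Agent.W617.KB.ExtL

/-! The growth of the bracket of a connected alternating diagram: the induction. -/

set_option autoImplicit false
set_option linter.unusedSimpArgs false

namespace Pool.Agent.W617.KB

open Pool.Agent.H560R3.TG

theorem birth_of_lt {n m : ℕ} {w : List Piece} (h : WF n w m) (hnm : n < m) :
    ∃ i, Piece.birth i ∈ w := by
  induction w generalizing n with
  | nil => exact absurd (show n = m from h) (by omega)
  | cons p w ih =>
    cases p with
    | birth i => exact ⟨i, by simp⟩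
    | death i =>
      obtain ⟨j, hj⟩ := ih h.2 (by have := h.1; omega)
      exact ⟨j, by simp [hj]⟩
    | cr i b =>
      obtain ⟨j, hj⟩ := ih h.2 hnm
      exact ⟨j, by simp [hj]⟩
    | hole i =>
      obtain ⟨j, hj⟩ := ih h.2 hnm
      exact ⟨j, by simp [hj]⟩

theorem alt_of_type {D : List Piece} (hwf : WF 0 D 0) (c : Bool)
    (h : ∀ i b, Piece.cr i b ∈ D → (b = c ↔ i % 2 = 0)) : Alternating D := by
  obtain ⟨P, hP, -⟩ := exists_std hwf
  have hl := labelling_tr (S' := Bool) (φ := fun (_ : Unit) (_ _ : ℕ) => !c)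
    (fun _ _ _ => rfl) (fun _ => ()) hP
  refine ⟨_, hl, ?_⟩
  intro s hs b s₁ y s₂ t₁ y' t₂ z hsp
  have hmem : s.plain ∈ D := by rw [← hl.2]; exact List.mem_map_of_mem hs
  obtain ⟨r, hr, rfl⟩ := List.mem_map.1 hs
  obtain ⟨L, p, R⟩ := r
  cases p with
  | cr b0 a₁ x₁ a₂ c₁ x₂ c₂ x₃ =>
    simp only [Slice.tr, Loc.tr, Loc.cr.injEq] at hsp
    obtain ⟨rfl, rfl, -, rfl, rfl, -, rfl, -⟩ := hsp
    have h1 := h _ _ hmem
    simp only [Slice.tr] at h1 ⊢
    generalize (trF (fun (_ : Unit) (_ _ : ℕ) => !c) (fun _ => ()) 0 L).length = i at h1 ⊢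
    unfold dir
    rcases Nat.mod_two_eq_zero_or_one i with hi | hi
    · have hi' : (i + 1) % 2 = 1 := by omega
      have hb := h1.2 hi
      subst hb
      rw [hi, hi']
      simp
    · have hi' : (i + 1) % 2 = 0 := by omega
      have hb : b0 ≠ c := fun hb => by have := h1.1 hb; omega
      have hb' : b0 = !c := by cases b0 <;> cases c <;> simp_all
      subst hb'
      rw [hi, hi']
      simp
  | birth _ _ => simp [Slice.tr, Loc.tr] at hsp
  | death _ _ => simp [Slice.tr, Loc.tr] at hsp
  | hole => simp [Slice.tr, Loc.tr] at hsp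

theorem alt_mid {u v : List Piece} {i : ℕ} {b : Bool} (w : Bool)
    (hwf : WF 0 (u ++ .cr i b :: v) 0) (hD : Connected (u ++ .cr i b :: v))
    (ha : Alternating (u ++ .cr i b :: v)) : Alternating (u ++ mid w i ++ v) := by
  obtain ⟨c, hc⟩ := alt_type hD ha
  refine alt_of_type (WF_mid w hwf) c fun j b' h => hc j b' ?_
  simp only [List.mem_append] at h
  rcases h with (h | h) | h
  · simp [h]
  · cases w <;> simp [mid] at h
  · simp [h]

theorem birth_mid {u v : List Piece} {i : ℕ} {b : Bool} (w : Bool)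
    (hwf : WF 0 (u ++ .cr i b :: v) 0) : ∃ j, Piece.birth j ∈ u ++ mid w i ++ v := by
  obtain ⟨m, hu, hi, hv⟩ := (WF_append u _ 0 0).1 hwf
  obtain ⟨j, hj⟩ := birth_of_lt hu (by omega)
  exact ⟨j, by simp [hj]⟩

/-! ### growth -/

theorem Gr.mul {f h g : ℝ → ℝ} {M N : ℤ} (hf : Gr f M) (hh : Gr h N)
    (hg : ∀ t : ℝ, 0 < t → g t = h t * f t) : Gr g (M + N) := by
  obtain ⟨a, C, T, ha, h1⟩ := hf
  obtain ⟨a', C', T', ha', h2⟩ := hh
  refine ⟨a * a', C * C', max T T', mul_pos ha ha', fun t ht h0 => ?_⟩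
  obtain ⟨p1, p2⟩ := h1 t ((le_max_left _ _).trans ht) h0
  obtain ⟨q1, q2⟩ := h2 t ((le_max_right _ _).trans ht) h0
  have e : t ^ (M + N) = t ^ M * t ^ N := zpow_add₀ h0.ne' M N
  have pM : 0 < t ^ M := zpow_pos h0 M
  have pN : 0 < t ^ N := zpow_pos h0 N
  rw [hg t h0, abs_mul, e]
  constructor
  · calc a * a' * (t ^ M * t ^ N) = (a' * t ^ N) * (a * t ^ M) := by ring
      _ ≤ |h t| * |f t| := mul_le_mul q1 p1 (by positivity) (abs_nonneg _)
  · calc |h t| * |f t| ≤ (C' * t ^ N) * (C * t ^ M) :=
          mul_le_mul q2 p2 (abs_nonneg _) ((abs_nonneg _).trans q2)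
      _ = C * C' * (t ^ M * t ^ N) := by ring

theorem Gr_pow (ε : ℝ) (hε : |ε| = 1) (N : ℤ) : Gr (fun t => ε * t ^ N) N := by
  refine ⟨1, 1, 0, one_pos, fun t _ h0 => ?_⟩
  have : |ε * t ^ N| = t ^ N := by rw [abs_mul, hε, one_mul, abs_of_pos (zpow_pos h0 N)]
  show 1 * t ^ N ≤ |ε * t ^ N| ∧ |ε * t ^ N| ≤ 1 * t ^ N
  rw [this]
  constructor <;> linarith

theorem Gr_dd : Gr (fun t => (dd t)⁻¹) (-2) := by
  refine ⟨1 / 2, 1, 1, by norm_num, fun t h1 h0 => ?_⟩
  have hti : 0 < t⁻¹ := inv_pos.2 h0
  have hti1 : t⁻¹ ≤ 1 := inv_le_one_of_one_le₀ h1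
  have hdd : 0 < dd t := by linarith [dd_ge h0]
  have h2 : t ^ 2 ≤ dd t := by unfold dd; nlinarith
  have h3 : dd t ≤ 2 * t ^ 2 := by unfold dd; nlinarith
  have e : t ^ (-2 : ℤ) = (t ^ 2)⁻¹ := by
    rw [zpow_neg]; norm_cast
  show 1 / 2 * t ^ (-2 : ℤ) ≤ |(dd t)⁻¹| ∧ |(dd t)⁻¹| ≤ 1 * t ^ (-2 : ℤ)
  rw [abs_of_pos (inv_pos.2 hdd), e]
  have ht2 : 0 < t ^ 2 := by positivity
  constructor
  · rw [one_div, ← mul_inv]
    exact inv_anti₀ hdd h3
  · rw [one_mul]
    exact inv_anti₀ ht2 h2

/-! ### the factors -/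

theorem V_bad (hV13 : S_V13) (hV02 : S_V02) {u v : List Piece} {i : ℕ} {b : Bool}
    (hwf : WF 0 (u ++ .cr i b :: v) 0) (w : Bool)
    (hext : ∀ k, Mk2 (!w) k → ExtN (u ++ .cr i b :: v) u.length k) :
    ∃ (ε : ℝ) (N : ℤ), |ε| = 1 ∧ ∀ t : ℝ, 0 < t →
      V t (u ++ .cr i b :: v) = ε * t ^ N * V t (u ++ mid w i ++ v) ∧
      V t (u ++ mid (!w) i ++ v) = dd t * V t (u ++ mid w i ++ v) := by
  have em1 : u ++ mid true i ++ v = u ++ v := by simp [mid]
  have em2 : u ++ mid false i ++ v = u ++ .death i :: .birth i :: v := by simp [mid]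
  cases w with
  | true =>
    have h0 : External u i b v 0 := ext_iff.2 (hext 0 (by simp [Mk2]))
    have h2 : External u i b v 2 := ext_iff.2 (hext 2 (by simp [Mk2]))
    refine ⟨-1, if b then -3 else 3, by simp, fun t ht => ?_⟩
    have hV := hV02 t ht u i b v hwf h0 h2
    simp only [Bool.not_true, em1, em2]
    refine ⟨?_, hV⟩
    rw [V_cr, hV]
    have hts : t * t⁻¹ = 1 := mul_inv_cancel₀ ht.ne'
    cases b
    · have e : t ^ ((if (false : Bool) = true then -3 else 3 : ℤ)) = t ^ 3 := by
        rw [if_neg (by simp)]; norm_cast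
      rw [e]
      simp only [al, dd, Bool.not_false, if_true, Bool.false_eq_true, if_false]
      linear_combination (-t⁻¹ * V t (u ++ v)) * hts
    · have e : t ^ ((if (true : Bool) = true then -3 else 3 : ℤ)) = (t⁻¹) ^ 3 := by
        rw [if_pos rfl, zpow_neg, inv_pow]; norm_cast
      rw [e]
      simp only [al, dd, Bool.not_true, if_true, Bool.false_eq_true, if_false]
      linear_combination (-t * V t (u ++ v)) * hts
  | false =>
    have h1 : External u i b v 1 := ext_iff.2 (hext 1 (by simp [Mk2]))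
    have h3 : External u i b v 3 := ext_iff.2 (hext 3 (by simp [Mk2]))
    refine ⟨1, if b then 3 else -3, by simp, fun t ht => ?_⟩
    have hV := hV13 t ht u i b v hwf h1 h3
    simp only [Bool.not_false, em1, em2]
    refine ⟨?_, hV⟩
    rw [V_cr, hV]
    have hts : t * t⁻¹ = 1 := mul_inv_cancel₀ ht.ne'
    cases b
    · have e : t ^ ((if (false : Bool) = true then 3 else -3 : ℤ)) = (t⁻¹) ^ 3 := by
        rw [if_neg (by simp), zpow_neg, inv_pow]; norm_cast
      rw [e]
      simp only [al, dd, Bool.not_false, if_true, Bool.false_eq_true, if_false]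
      linear_combination (t * V t (u ++ .death i :: .birth i :: v)) * hts
    · have e : t ^ ((if (true : Bool) = true then 3 else -3 : ℤ)) = t ^ 3 := by
        rw [if_pos rfl]; norm_cast
      rw [e]
      simp only [al, dd, Bool.not_true, if_true, Bool.false_eq_true, if_false]
      linear_combination (t⁻¹ * V t (u ++ .death i :: .birth i :: v)) * hts

theorem mk2_white {i : ℕ} {w : Bool} (hw : w = true ↔ i % 2 = 0) {k : Fin 4} (h : Mk2 w k) :
    par i k ≠ 0 := by
  cases w with
  | true =>
    have hi := hw.1 rfl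
    have : k = 1 ∨ k = 3 := by simpa [Mk2] using h
    rcases this with rfl | rfl <;> simp [par] <;> omega
  | false =>
    have hi : ¬ i % 2 = 0 := fun h => by have := hw.2 h; simp at this
    have : k = 0 ∨ k = 2 := by simpa [Mk2] using h
    rcases this with rfl | rfl <;> simp [par] <;> omega

theorem mk2_black {i : ℕ} {w : Bool} (hw : w = true ↔ i % 2 = 0) {k : Fin 4} :
    Mk2 (!w) k ↔ par i k = 0 := by
  cases w with
  | true =>
    have hi := hw.1 rfl
    have hi' : ¬ (i + 1) % 2 = 0 := by omega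
    fin_cases k <;> simp [Mk2, par, hi, hi']
  | false =>
    have hi : ¬ i % 2 = 0 := fun h => by have := hw.2 h; simp at this
    have hi' : (i + 1) % 2 = 0 := by omega
    fin_cases k <;> simp [Mk2, par, hi, hi']

theorem main_ind (hV13 : S_V13) (hV02 : S_V02) (n : ℕ) : ∀ D : List Piece, crossings D = n →
    WF 0 D 0 → Connected D → Alternating D → Z2Trivial D → (∃ i, Piece.birth i ∈ D) →
    (∀ m, ¬ DiskN D m) → ∀ e : ℕ, Ext D e →
    ∃ M₁ M₂ : ℤ, Gr (fun t => V t D) M₁ ∧ Gr (fun t => V t⁻¹ D) M₂ ∧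
      M₁ + M₂ = 4 * crossings D + 8 - 4 * e - 4 * count ExternalTwice D := by
  classical
  induction n with
  | zero =>
    intro D h0 hwf hD ha hz hbt hdisk e he
    have hnc : ∀ m, ¬ IsCr D m := by
      intro m hm
      obtain ⟨u, i, b, v, rfl, -⟩ := isCr_split hm
      rw [crossings_append] at h0
      simp [crossings] at h0
    have hS : Simple D := by
      refine ⟨fun u i b v h => ?_, fun u i b v h => ?_⟩
      · exact absurd ⟨i, b, by rw [h]; simp⟩ (hnc u.length)
      · exact absurd ⟨i, b, by rw [h]; simp⟩ (hnc u.length)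
    obtain ⟨M₁, M₂, h1, h2, h3⟩ := base hwf hD ha hS hz hbt e he
    refine ⟨M₁, M₂, h1, h2, ?_⟩
    have hc : count ExternalTwice D = 0 := by
      rw [count_eq]
      have : {n | IsCr D n ∧ TwiceN D n} = ∅ := by
        ext m
        simp only [Set.mem_setOf_eq, Set.mem_empty_iff_false, iff_false]
        exact fun h => hnc m h.1
      rw [this, Set.ncard_empty]
    rw [hc, h3]; push_cast; ring
  | succ n ih =>
    intro D hn hwf hD ha hz hbt hdisk e he
    by_cases hall : ∀ m, IsCr D m → ¬ TwiceN D m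
    · have hS : Simple D := by
        refine ⟨fun u i b v h => ?_, fun u i b v h k k' h1 h2 => ?_⟩
        · subst h
          intro hd
          exact hdisk _ (disk_iff.1 hd)
        · subst h
          by_contra hk
          exact hall u.length ⟨i, b, by simp⟩ ⟨k, k', hk, ext_iff.1 h1, ext_iff.1 h2⟩
      obtain ⟨M₁, M₂, h1, h2, h3⟩ := base hwf hD ha hS hz hbt e he
      refine ⟨M₁, M₂, h1, h2, ?_⟩
      have hc : count ExternalTwice D = 0 := by
        rw [count_eq]
        have : {n | IsCr D n ∧ TwiceN D n} = ∅ := by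
          ext m
          simp only [Set.mem_setOf_eq, Set.mem_empty_iff_false, iff_false]
          exact fun h => hall m h.1 h.2
        rw [this, Set.ncard_empty]
      rw [hc, h3]; push_cast; ring
    · push Not at hall
      obtain ⟨m, hm, htw⟩ := hall
      obtain ⟨u, i, b, v, rfl, rfl⟩ := isCr_split hm
      -- `w` is the smoothing which merges the white corners
      obtain ⟨w, hw⟩ : ∃ w : Bool, (w = true ↔ i % 2 = 0) := ⟨decide (i % 2 = 0), by simp⟩
      have hgetc : (u ++ Piece.cr i b :: v)[u.length]? = some (.cr i b) := by simp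
      have hext : ∀ k, Mk2 (!w) k → ExtN (u ++ .cr i b :: v) u.length k := by
        obtain ⟨k, k', hkk, h1, h2⟩ := htw
        have b1 := (mk2_black hw).2 (ext_black hwf hz hgetc h1)
        have b2 := (mk2_black hw).2 (ext_black hwf hz hgetc h2)
        intro k'' hk''
        have : k'' = k ∨ k'' = k' := by
          cases w with
          | true =>
            simp only [Mk2, Bool.not_true, Bool.false_eq_true, if_false] at b1 b2 hk''
            rcases b1 with rfl | rfl <;> rcases b2 with rfl | rfl <;>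
              first
                | exact absurd rfl hkk
                | exact hk''
                | exact hk''.symm
          | false =>
            simp only [Mk2, Bool.not_false, if_true] at b1 b2 hk''
            rcases b1 with rfl | rfl <;> rcases b2 with rfl | rfl <;>
              first
                | exact absurd rfl hkk
                | exact hk''
                | exact hk''.symm
        rcases this with rfl | rfl
        · exact h1
        · exact h2
      have hwhite : ∀ k, Mk2 w k → par i k ≠ 0 := fun k h => mk2_white hw h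
      have hnodisk : ∀ w', ∀ m, ¬ DiskN (u ++ mid w' i ++ v) m := by
        intro w' m hd
        obtain ⟨n', hc⟩ := cor_of_cr (disk_cr hd)
        exact hdisk n' (disk_up hwf hc hext hd)
      obtain ⟨ε, N, hε, hV⟩ := V_bad hV13 hV02 hwf w hext
      by_cases hcw : Connected (u ++ mid w i ++ v)
      · have hcr := crossings_mid (u := u) (v := v) (i := i) (b := b) w
        obtain ⟨M₁, M₂, h1, h2, h3⟩ := ih (u ++ mid w i ++ v) (by omega) (WF_mid w hwf) hcw
          (alt_mid w hwf hD ha) (Z2_mid hz) (birth_mid w hwf) (hnodisk w) e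
          (Ext_white hwf hz hwhite he)
        have hcount := count_mid (w := w) hwf hz (fun k hk => Or.inr (hwhite k hk)) htw
        refine ⟨M₁ + N, M₂ + -N, h1.mul (Gr_pow ε hε N) (fun t ht => (hV t ht).1),
          h2.mul (Gr_pow ε hε (-N)) (fun t ht => ?_), ?_⟩
        · have := (hV t⁻¹ (inv_pos.2 ht)).1
          rw [this, inv_zpow, zpow_neg]
        · rw [hcr, hcount]
          push_cast
          linarith
      · have hcb : Connected (u ++ mid (!w) i ++ v) := by
          have em1 : u ++ mid true i ++ v = u ++ v := by simp [mid]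
          have em2 : u ++ mid false i ++ v = u ++ .death i :: .birth i :: v := by simp [mid]
          have h := conn_or u v i b hwf hD
          cases w
          · rw [em2] at hcw
            show Connected (u ++ mid true i ++ v)
            rw [em1]
            exact h.resolve_right hcw
          · rw [em1] at hcw
            show Connected (u ++ mid false i ++ v)
            rw [em2]
            exact h.resolve_left hcw
        have hcr := crossings_mid (u := u) (v := v) (i := i) (b := b) (!w)
        obtain ⟨e', rfl, he'⟩ := Ext_black hwf hD hext (by rw [Bool.not_not]; exact hcw) he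
        obtain ⟨M₁, M₂, h1, h2, h3⟩ := ih (u ++ mid (!w) i ++ v) (by omega) (WF_mid _ hwf) hcb
          (alt_mid _ hwf hD ha) (Z2_mid hz) (birth_mid _ hwf) (hnodisk _) e' he'
        have hcount := count_mid (w := !w) hwf hz (fun k hk => Or.inl (hext k hk)) htw
        have hV1 : ∀ t : ℝ, 0 < t → V t (u ++ .cr i b :: v) =
            (ε * t ^ N) * ((dd t)⁻¹ * V t (u ++ mid (!w) i ++ v)) := by
          intro t ht
          have hdd : dd t ≠ 0 := by linarith [dd_ge ht]
          rw [(hV t ht).1, (hV t ht).2]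
          field_simp
        have g1 : Gr (fun t => (dd t)⁻¹ * V t (u ++ mid (!w) i ++ v)) (M₁ + -2) :=
          h1.mul Gr_dd (fun t _ => rfl)
        have g2 : Gr (fun t => (dd t)⁻¹ * V t⁻¹ (u ++ mid (!w) i ++ v)) (M₂ + -2) :=
          h2.mul Gr_dd (fun t _ => rfl)
        refine ⟨M₁ + -2 + N, M₂ + -2 + -N, g1.mul (Gr_pow ε hε N) hV1,
          g2.mul (Gr_pow ε hε (-N)) (fun t ht => ?_), ?_⟩
        · have := hV1 t⁻¹ (inv_pos.2 ht)
          rw [this, inv_zpow, zpow_neg, dd_inv]
        · rw [hcr, hcount]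
          push_cast
          push_cast at h3
          linarith

end Pool.Agent.W617.KB
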