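import Pool.Agent.W617.KB.Idx

/-! Labellings of a diagram and of its smoothings at a crossing. -/

set_option autoImplicit false
set_option linter.unusedSimpArgs false

namespace Pool.Agent.W617.KB

open Pool.Agent.H560R3.TG

variable {S G S' G' : Type}

/-- the smoothings of a crossing -/
def mid (w : Bool) (i : ℕ) : List Piece := if w then [] else [.death i, .birth i]

/-- the ends at the slice fit to the smoothing `w` -/
def Fit (w : Bool) : Loc S G → Prop
  | .cr _ s₁ _ s₂ t₁ _ t₂ _ => if w then s₁ = t₁ ∧ s₂ = t₂ else s₁ = s₂ ∧ t₁ = t₂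
  | _ => False

/-- the corners of the slice which are merged by the smoothing `w` have the same label -/
def Mrg (w : Bool) (x : G) : Loc S G → Prop
  | .cr _ _ y _ _ y' _ z => if w then y = y' else x = z
  | _ => False

theorem WF_mid {u v : List Piece} {i : ℕ} {b : Bool} (w : Bool)
    (h : WF 0 (u ++ .cr i b :: v) 0) : WF 0 (u ++ mid w i ++ v) 0 := by
  obtain ⟨m, hu, hi, hv⟩ := (WF_append u _ 0 0).1 h
  cases w
  · simp only [mid, Bool.false_eq_true, if_false, List.append_assoc]
    refine (WF_append _ _ _ _).2 ⟨m, hu, hi, by omega, ?_⟩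
    rw [show m - 2 + 2 = m by omega]; exact hv
  · simp only [mid, if_true, List.append_nil]
    exact (WF_append _ _ _ _).2 ⟨m, hu, hv⟩

theorem crossings_mid {u v : List Piece} {i : ℕ} {b : Bool} (w : Bool) :
    crossings (u ++ .cr i b :: v) = crossings (u ++ mid w i ++ v) + 1 := by
  rw [crossings_append, crossings_append, crossings_append]
  cases w <;> simp [mid, crossings] <;> omega

theorem holes_mid {u v : List Piece} {i : ℕ} {b : Bool} (w : Bool) :
    holes (u ++ mid w i ++ v) = holes (u ++ .cr i b :: v) := by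
  rw [holes_append, holes_append, holes_append]
  cases w <;> simp [mid, holes]

/-- from a labelling of the smoothing to a labelling of the diagram -/
theorem up {a : G} {u v : List Piece} {i : ℕ} {b : Bool} {w : Bool}
    (hwf : WF 0 (u ++ .cr i b :: v) 0) {E' : List (Slice S G)}
    (hE' : Labelling a E' (u ++ mid w i ++ v)) :
    ∃ Eu Em Ev X, E' = Eu ++ Em ++ Ev ∧ Eu.map Slice.plain = u ∧
      Em.map Slice.plain = mid w i ∧ Ev.map Slice.plain = v ∧ X.plain = .cr i b ∧
      Labelling a (Eu ++ X :: Ev) (u ++ .cr i b :: v) ∧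
      holeLabels a (Eu ++ X :: Ev) = holeLabels a E' ∧
      (∀ P : List (S × G) → Prop, (∀ s ∈ E', P (s.src a) ∧ P (s.tgt a)) →
        P (X.src a) ∧ P (X.tgt a)) ∧
      Fit w X.p ∧ Mrg w (cur a X.L) X.p ∧
      (∀ s ∈ Em, ∀ e ∈ s.src a ++ s.tgt a, e ∈ X.src a ++ X.tgt a) := by
  obtain ⟨m, hu, hi, hv⟩ := (WF_append u _ 0 0).1 hwf
  cases w with
  | true =>
    simp only [mid, if_true, List.append_nil] at hE' ⊢
    obtain ⟨hE1, hp1⟩ := hE'
    obtain ⟨Eu, Ev, rfl, h1u, h1v⟩ := split_plain E' u v hp1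
    obtain ⟨K1, hK1, hK1'⟩ := (path_append a Eu Ev [] []).1 hE1
    have hl1 : K1.length = m := by
      have h1 := path_WF hK1
      rw [h1u] at h1
      exact WF_det h1 hu
    obtain ⟨L1, ⟨p, y⟩, ⟨q, z⟩, R1, rfl, hL1⟩ := split_len2 K1 i (by omega)
    refine ⟨Eu, [], Ev, ⟨L1, .cr b p y q p y q z, R1⟩, by simp, h1u, rfl, h1v, ?_, ⟨?_, ?_⟩, ?_, ?_,
      ?_, ?_, by simp⟩
    · simp [Slice.plain, hL1]
    · refine (path_append a _ _ _ _).2 ⟨_, hK1, ?_, ?_⟩
      · simp [Slice.src, Loc.src]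
      · simpa [Slice.tgt, Loc.tgt] using hK1'
    · simp [h1u, h1v, Slice.plain, hL1]
    · simp only [holeLabels_append, holeLabels]
    · intro P hP
      have h1 : (⟨L1, .cr b p y q p y q z, R1⟩ : Slice S G).src a = L1 ++ (p, y) :: (q, z) :: R1 := by
        simp [Slice.src, Loc.src]
      have h2 : (⟨L1, .cr b p y q p y q z, R1⟩ : Slice S G).tgt a = L1 ++ (p, y) :: (q, z) :: R1 := by
        simp [Slice.tgt, Loc.tgt]
      rw [h1, h2]
      have hmem := end_mem_sts a _ _ _ hK1
      rcases mem_sts_cases hmem with h | ⟨s, hs, h⟩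
      · simp at h
      · rw [h]
        have := (hP s (by simp [hs])).2
        exact ⟨this, this⟩
    · exact ⟨rfl, rfl⟩
    · simp [Mrg]
  | false =>
    simp only [mid, Bool.false_eq_true, if_false] at hE' ⊢
    have hpl : E'.map Slice.plain = u ++ (.death i :: .birth i :: v) := by
      rw [hE'.2]; simp
    obtain ⟨Eu, L, p, y, R, q, y', Ev, rfl, hu', hL, hv', h3, h4⟩ :=
      decomp_db a [] [] E' u v i hE'.1 hpl
    refine ⟨Eu, [⟨L, .death p y, R⟩, ⟨L, .birth q y', R⟩], Ev,
      ⟨L, .cr b p y p q y' q (cur a L), R⟩, by simp, hu', ?_, hv', ?_, ⟨?_, ?_⟩, ?_, ?_, ?_, ?_, ?_⟩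
    · simp [Slice.plain, hL]
    · simp [Slice.plain, hL]
    · refine (path_append a _ _ _ _).2 ⟨_, h3, ?_, ?_⟩
      · simp [Slice.src, Loc.src]
      · simpa [Slice.tgt, Loc.tgt] using h4
    · simp [hu', hv', Slice.plain, hL]
    · simp only [holeLabels_append, holeLabels]
    · intro P hP
      have h1 := (hP ⟨L, .death p y, R⟩ (by simp)).1
      have h2 := (hP ⟨L, .birth q y', R⟩ (by simp)).2
      exact ⟨by simpa [Slice.src, Loc.src] using h1, by simpa [Slice.tgt, Loc.tgt] using h2⟩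
    · exact ⟨rfl, rfl⟩
    · simp [Mrg]
    · intro s hs e he
      simp only [List.mem_cons, List.not_mem_nil, or_false] at hs
      rcases hs with rfl | rfl <;>
      · simp only [Slice.src, Slice.tgt, Loc.src, Loc.tgt, List.mem_append, List.mem_cons,
          List.not_mem_nil, or_false] at he ⊢
        tauto

/-- from a labelling of the diagram to a labelling of the smoothing -/
theorem down {a : G} {u v : List Piece} {i : ℕ} {b : Bool} {w : Bool}
    {Eu Ev : List (Slice S G)} {X : Slice S G}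
    (hE : Labelling a (Eu ++ X :: Ev) (u ++ .cr i b :: v)) (hu : Eu.map Slice.plain = u)
    (hf : Fit w X.p) (hm : Mrg w (cur a X.L) X.p) :
    ∃ Em, Em.map Slice.plain = mid w i ∧ Labelling a (Eu ++ Em ++ Ev) (u ++ mid w i ++ v) ∧
      holeLabels a (Eu ++ Em ++ Ev) = holeLabels a (Eu ++ X :: Ev) ∧
      (∀ s ∈ Em, s.p.NoCr) ∧ Ev.map Slice.plain = v := by
  have hp := hE.2
  rw [List.map_append, List.map_cons, hu] at hp
  have hp2 := List.append_cancel_left hp
  simp only [List.cons.injEq] at hp2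
  obtain ⟨hX, hv⟩ := hp2
  obtain ⟨L, R, s₁, y, s₂, t₁, y', t₂, z, rfl, hL⟩ := plain_cr X i b hX
  obtain ⟨K, h1, h2, h3⟩ := (path_append _ _ _ _ _).1 hE.1
  simp only [Fit, Mrg] at hf hm
  cases w with
  | true =>
    simp only [if_true] at hf hm
    obtain ⟨rfl, rfl⟩ := hf
    subst hm
    refine ⟨[], rfl, ⟨?_, ?_⟩, ?_, by simp, hv⟩
    · rw [List.append_nil]
      exact (path_append _ _ _ _ _).2 ⟨K, h1, by rw [← h2]; exact h3⟩
    · simp [mid, hu, hv]
    · simp only [List.append_nil, holeLabels_append, holeLabels]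
  | false =>
    simp only [Bool.false_eq_true, if_false] at hf hm
    obtain ⟨rfl, rfl⟩ := hf
    subst hm
    refine ⟨[⟨L, .death s₁ y, R⟩, ⟨L, .birth t₁ y', R⟩], ?_, ⟨?_, ?_⟩, ?_, ?_, hv⟩
    · simp [Slice.plain, mid, hL]
    · rw [List.append_assoc]
      refine (path_append _ _ _ _ _).2 ⟨K, h1, ?_, ?_, ?_⟩
      · rw [← h2]; simp [Slice.src, Loc.src]
      · simp [Slice.src, Slice.tgt, Loc.src, Loc.tgt]
      · simpa [Slice.src, Slice.tgt, Loc.src, Loc.tgt] using h3
    · simp [mid, hu, hv, Slice.plain, hL]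
    · simp only [holeLabels_append, holeLabels, List.append_nil]
    · intro s hs
      simp only [List.mem_cons, List.not_mem_nil, or_false] at hs
      rcases hs with rfl | rfl <;> trivial

/-- `n` is the index of a slice in the smoothing, `n'` its index in the diagram -/
def Cor (N μ n n' : ℕ) : Prop := (n < N ∧ n' = n) ∨ ∃ r, n = N + μ + r ∧ n' = N + 1 + r

theorem Cor.get {α : Type} {Eu Em Ev : List α} {X : α} {N μ n n' : ℕ} (h : Cor N μ n n')
    (hN : Eu.length = N) (hμ : Em.length = μ) : (Eu ++ Em ++ Ev)[n]? = (Eu ++ X :: Ev)[n']? := by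
  rcases h with ⟨h1, rfl⟩ | ⟨r, rfl, rfl⟩
  · rw [List.append_assoc, List.getElem?_append_left (by omega),
      List.getElem?_append_left (by omega)]
  · rw [List.getElem?_append_right (by rw [List.length_append]; omega),
      List.getElem?_append_right (by omega)]
    rw [show N + 1 + r - Eu.length = r + 1 by omega, List.getElem?_cons_succ]
    rw [show N + μ + r - (Eu ++ Em).length = r by rw [List.length_append]; omega]

theorem cor_of_cr {u v : List Piece} {i n : ℕ} {w : Bool} (h : IsCr (u ++ mid w i ++ v) n) :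
    ∃ n', Cor u.length (mid w i).length n n' := by
  by_cases h1 : n < u.length
  · exact ⟨n, Or.inl ⟨h1, rfl⟩⟩
  · by_cases h2 : u.length + (mid w i).length ≤ n
    · exact ⟨_, Or.inr ⟨n - u.length - (mid w i).length, by omega, rfl⟩⟩
    · exfalso
      obtain ⟨j, b', hj⟩ := h
      rw [List.append_assoc, List.getElem?_append_right (by omega),
        List.getElem?_append_left (by omega)] at hj
      have := List.mem_of_getElem? hj
      cases w <;> simp [mid] at this

theorem cor_exists {N μ n' : ℕ} (h : n' ≠ N) : ∃ n, Cor N μ n n' := by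
  rcases lt_or_gt_of_ne h with h | h
  · exact ⟨n', Or.inl ⟨h, rfl⟩⟩
  · exact ⟨N + μ + (n' - N - 1), Or.inr ⟨_, rfl, by omega⟩⟩

theorem Cor.ne {N μ n n' : ℕ} (h : Cor N μ n n') : n' ≠ N := by
  rcases h with ⟨h1, rfl⟩ | ⟨r, rfl, rfl⟩ <;> omega

theorem Cor.inj {N μ n n' m : ℕ} (h : Cor N μ n n') (h2 : Cor N μ m n') : n = m := by
  rcases h with ⟨h1, rfl⟩ | ⟨r, rfl, rfl⟩ <;> rcases h2 with ⟨h3, h4⟩ | ⟨r', h3, h4⟩ <;> omega

theorem Cor.inj2 {N μ n n' m' : ℕ} (h : Cor N μ n n') (h2 : Cor N μ n m') : n' = m' := by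
  rcases h with ⟨h1, rfl⟩ | ⟨r, rfl, rfl⟩ <;> rcases h2 with ⟨h3, h4⟩ | ⟨r', h3, h4⟩ <;> omega

end Pool.Agent.W617.KB
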